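import Pool.Agent.T9h16.Rand.Kernel
import Pool.Agent.T9h16.Approx

/-!
Closed families of sets of constraints, and the approximation of monotone straight-line programs:
the positive tests are random sets of constraints, the negative tests are the sets of all the
constraints that are satisfied by a random assignment.
-/

set_option autoImplicit false
set_option linter.unusedSectionVars false

namespace Pool.Agent.T9h16.Rand

open Finset
open scoped Classical

section
variable {V E : Type} [Fintype V] [Fintype E]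

/-- The family accepts the assignment `x`. -/
def Acc (sat : (V → Bool) → E → Prop) (𝒜 : Set (Finset E)) (x : V → Bool) : Prop :=
  ∃ S ∈ 𝒜, ∀ e ∈ S, sat x e

/-- The family captures `T`. -/
def Capt (sat : (V → Bool) → E → Prop) (R : ℕ) (𝒜 : Set (Finset E)) (T : Finset E) : Prop :=
  (univ.filter fun x : V → Bool => (∀ e ∈ T, sat x e) ∧ ¬ Acc sat 𝒜 x).card * 2 ^ R ≤
    2 ^ Fintype.card V

/-- Closed families of sets with at most `w` elements. -/
def ClosedF (sat : (V → Bool) → E → Prop) (R w : ℕ) (𝒜 : Set (Finset E)) : Prop :=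
  (∀ S ∈ 𝒜, S.card ≤ w) ∧ ∀ T : Finset E, T.card ≤ w → Capt sat R 𝒜 T → T ∈ 𝒜

variable {sat : (V → Bool) → E → Prop} {R w : ℕ}

theorem Acc.mono {𝒜 ℬ : Set (Finset E)} (h : 𝒜 ⊆ ℬ) {x : V → Bool} (ha : Acc sat 𝒜 x) :
    Acc sat ℬ x := by
  obtain ⟨A, hA, hi⟩ := ha
  exact ⟨A, h hA, hi⟩

theorem Capt.mono {𝒜 ℬ : Set (Finset E)} (h : 𝒜 ⊆ ℬ) {Y : Finset E}
    (ha : Capt sat R 𝒜 Y) : Capt sat R ℬ Y := by
  refine le_trans (Nat.mul_le_mul_right _ (card_le_card ?_)) ha
  intro χ hχ
  rw [mem_filter] at hχ ⊢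
  exact ⟨hχ.1, hχ.2.1, fun h' => hχ.2.2 (h'.mono h)⟩

theorem ClosedF.inter {𝒜 ℬ : Set (Finset E)} (hA : ClosedF sat R w 𝒜)
    (hB : ClosedF sat R w ℬ) : ClosedF sat R w (𝒜 ∩ ℬ) :=
  ⟨fun A h => hA.1 A h.1, fun Y hY hc => ⟨hA.2 Y hY (hc.mono Set.inter_subset_left),
    hB.2 Y hY (hc.mono Set.inter_subset_right)⟩⟩

/-- Closed families are closed upwards. -/
theorem ClosedF.up {𝒜 : Set (Finset E)} (hA : ClosedF sat R w 𝒜) {A Y : Finset E}
    (h : A ∈ 𝒜) (hAY : A ⊆ Y) (hY : Y.card ≤ w) : Y ∈ 𝒜 := by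
  apply hA.2 Y hY
  have hempty : (univ.filter fun x : V → Bool => (∀ e ∈ Y, sat x e) ∧ ¬ Acc sat 𝒜 x) = ∅ := by
    rw [filter_eq_empty_iff]
    rintro x - ⟨h1, h2⟩
    exact h2 ⟨A, h, fun e he => h1 e (hAY he)⟩
  rw [Capt, hempty]
  simp

/-- The number of sets with at most `w` elements. -/
noncomputable def UU (E : Type) [Fintype E] (w : ℕ) : ℕ :=
  (univ.filter fun A : Finset E => A.card ≤ w).card

theorem UU_le (E : Type) [Fintype E] (w : ℕ) : UU E w ≤ (Fintype.card E + 1) ^ w := by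
  set f : (Fin w → Option E) → Finset E := fun g => univ.filter fun v => ∃ i, g i = some v with hf
  have hsub : (univ.filter fun A : Finset E => A.card ≤ w) ⊆ univ.image f := by
    intro A hA
    rw [mem_filter] at hA
    rw [mem_image]
    set e := A.equivFin with he
    refine ⟨fun i => if h : i.val < A.card then some (e.symm ⟨i.val, h⟩).1 else none,
      mem_univ _, ?_⟩
    ext v
    simp only [hf, mem_filter, mem_univ, true_and]
    constructor
    · rintro ⟨i, hi⟩
      split_ifs at hi with h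
      rw [Option.some.injEq] at hi
      rw [← hi]
      exact (e.symm ⟨i.val, h⟩).2
    · intro hv
      have hlt : (e ⟨v, hv⟩).val < w := lt_of_lt_of_le (e ⟨v, hv⟩).isLt hA.2
      refine ⟨⟨(e ⟨v, hv⟩).val, hlt⟩, ?_⟩
      rw [dif_pos (e ⟨v, hv⟩).isLt]
      simp
  refine (card_le_card hsub).trans (card_image_le.trans ?_)
  rw [card_univ, Fintype.card_fun, Fintype.card_fin, Fintype.card_option]

/-- Existence of a closure with a small error. -/
theorem exists_closure (sat : (V → Bool) → E → Prop) (R w : ℕ) (𝒜 : Set (Finset E))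
    (hA : ∀ A ∈ 𝒜, A.card ≤ w) :
    ∃ ℬ : Set (Finset E), 𝒜 ⊆ ℬ ∧ ClosedF sat R w ℬ ∧
      (univ.filter fun x : V → Bool => Acc sat ℬ x ∧ ¬ Acc sat 𝒜 x).card * 2 ^ R ≤
        UU E w * 2 ^ Fintype.card V := by
  set good : Finset (Finset (Finset E)) := univ.filter fun 𝒟 =>
    (∀ A ∈ 𝒜, A ∈ 𝒟) ∧ (∀ A ∈ 𝒟, A.card ≤ w) ∧
      (univ.filter fun x : V → Bool => Acc sat {A | A ∈ 𝒟} x ∧ ¬ Acc sat 𝒜 x).card * 2 ^ R ≤
        𝒟.card * 2 ^ Fintype.card V with hgood
  have hne : good.Nonempty := by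
    refine ⟨univ.filter fun A => A ∈ 𝒜, ?_⟩
    rw [hgood, mem_filter]
    refine ⟨mem_univ _, fun A h => by simp [h], fun A h => hA A (by simpa using h), ?_⟩
    have hempty : (univ.filter fun x : V → Bool =>
        Acc sat {A | A ∈ univ.filter fun A => A ∈ 𝒜} x ∧ ¬ Acc sat 𝒜 x) = ∅ := by
      rw [filter_eq_empty_iff]
      rintro χ - ⟨⟨A, h1, h2⟩, h3⟩
      refine h3 ⟨A, ?_, h2⟩
      simpa using h1
    rw [hempty]
    simp
  obtain ⟨𝒟, h𝒟, hmax⟩ := exists_max_image good Finset.card hne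
  rw [hgood, mem_filter] at h𝒟
  obtain ⟨-, h1, h2, h3⟩ := h𝒟
  refine ⟨{A | A ∈ 𝒟}, fun A h => h1 A h, ⟨fun A h => h2 A h, ?_⟩, ?_⟩
  · intro Y hY hcap
    by_contra hnot
    have hnot' : Y ∉ 𝒟 := hnot
    have hins : insert Y 𝒟 ∈ good := by
      rw [hgood, mem_filter]
      refine ⟨mem_univ _, fun A h => mem_insert_of_mem (h1 A h), ?_, ?_⟩
      · intro A h
        rcases mem_insert.1 h with rfl | h
        · exact hY
        · exact h2 A h
      · have hsub : (univ.filter fun x : V → Bool =>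
            Acc sat {A | A ∈ insert Y 𝒟} x ∧ ¬ Acc sat 𝒜 x) ⊆
            (univ.filter fun x : V → Bool => Acc sat {A | A ∈ 𝒟} x ∧ ¬ Acc sat 𝒜 x) ∪
            (univ.filter fun x : V → Bool => (∀ e ∈ Y, sat x e) ∧
              ¬ Acc sat {A | A ∈ 𝒟} x) := by
          intro χ hχ
          rw [mem_filter] at hχ
          obtain ⟨-, ⟨A, hA1, hA2⟩, hA3⟩ := hχ
          rw [mem_union, mem_filter, mem_filter]
          by_cases hacc : Acc sat {A | A ∈ 𝒟} χ
          · exact Or.inl ⟨mem_univ _, hacc, hA3⟩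
          · right
            refine ⟨mem_univ _, ?_, hacc⟩
            rcases mem_insert.1 hA1 with rfl | h
            · exact hA2
            · exact (hacc ⟨A, h, hA2⟩).elim
        calc (univ.filter fun x : V → Bool =>
            Acc sat {A | A ∈ insert Y 𝒟} x ∧ ¬ Acc sat 𝒜 x).card * 2 ^ R
            ≤ ((univ.filter fun x : V → Bool => Acc sat {A | A ∈ 𝒟} x ∧ ¬ Acc sat 𝒜 x).card +
              (univ.filter fun x : V → Bool => (∀ e ∈ Y, sat x e) ∧
              ¬ Acc sat {A | A ∈ 𝒟} x).card) * 2 ^ R :=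
              Nat.mul_le_mul_right _ ((card_le_card hsub).trans (card_union_le _ _))
          _ ≤ 𝒟.card * 2 ^ Fintype.card V + 2 ^ Fintype.card V := by
              rw [add_mul]
              exact Nat.add_le_add h3 hcap
          _ = (insert Y 𝒟).card * 2 ^ Fintype.card V := by
              rw [card_insert_of_notMem hnot']
              ring
    have := hmax _ hins
    rw [card_insert_of_notMem hnot'] at this
    omega
  · refine h3.trans (Nat.mul_le_mul_right _ (card_le_card ?_))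
    intro A h
    rw [mem_filter]
    exact ⟨mem_univ _, h2 A h⟩

/-- The minimal sets of a family. -/
noncomputable def MinF (𝒜 : Set (Finset E)) : Finset (Finset E) :=
  univ.filter fun A => A ∈ 𝒜 ∧ ∀ B ∈ 𝒜, B ⊆ A → B = A

theorem exists_min {𝒜 : Set (Finset E)} {A : Finset E} (hA : A ∈ 𝒜) :
    ∃ B ∈ MinF 𝒜, B ⊆ A := by
  obtain ⟨B, hB, hmin⟩ := exists_min_image (univ.filter fun B => B ∈ 𝒜 ∧ B ⊆ A) Finset.card
    ⟨A, by simp [hA]⟩
  rw [mem_filter] at hB
  refine ⟨B, ?_, hB.2.2⟩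
  rw [MinF, mem_filter]
  refine ⟨mem_univ _, hB.2.1, fun C hC hCB => ?_⟩
  apply eq_of_subset_of_card_le hCB
  apply hmin
  rw [mem_filter]
  exact ⟨mem_univ _, hC, hCB.trans hB.2.2⟩

/-- A closed family has few minimal sets over each core. -/
def FewMin (D : ℕ) (𝒜 : Set (Finset E)) : Prop :=
  ∀ (I : Finset E) (j : ℕ), ((MinF 𝒜).filter fun S => I ⊆ S ∧ S.card = I.card + j).card ≤ D ^ j

theorem fewMin [Nonempty V] {vars : E → Finset V} {k : ℕ} (sgn : E → V → Bool)
    (hk : ∀ e, (vars e).card ≤ k)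
    (hsat : ∀ e v x, v ∈ vars e → x v = sgn e v → sat x e)
    (hcount : ∀ W : Finset V, (univ.filter fun e => vars e ⊆ W).card ≤ (2 * W.card) ^ k)
    (hw1 : 1 ≤ w) (hR : 1 ≤ R) (D : ℕ)
    (hD : D = 4 * Fintype.card V * (2 * ((k + 1) * w) * (10 * (R * w))) ^ k)
    {𝒜 : Set (Finset E)} (hA : ClosedF sat R w 𝒜) : FewMin D 𝒜 := by
  intro I j
  by_contra hcon
  rw [not_le] at hcon
  obtain ⟨T, ⟨S, hS, hTS⟩, hT⟩ := kernel sgn sat hk hsat hcount w R hw1 hR D hD
    ((MinF 𝒜).filter fun S => I ⊆ S ∧ S.card = I.card + j) I j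
    (fun S hS => (mem_filter.1 hS).2.1) (fun S hS => (mem_filter.1 hS).2.2)
    (fun S hS => by
      have h1 := (mem_filter.1 hS).1
      rw [MinF, mem_filter] at h1
      exact hA.1 S h1.2.1) hcon
  have hS1 := (mem_filter.1 hS).1
  rw [MinF, mem_filter] at hS1
  have hTw : T.card ≤ w := (card_le_card hTS.1).trans (hA.1 S hS1.2.1)
  have hTA : T ∈ 𝒜 := by
    apply hA.2 T hTw
    refine le_trans (Nat.mul_le_mul_right _ (card_le_card ?_)) hT
    intro x hx
    simp only [mem_filter, mem_univ, true_and] at hx ⊢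
    intro S' hS'
    by_contra hno
    simp only [not_exists, not_and, not_not] at hno
    have h2 : S' ∈ 𝒜 := by
      have := hS'.1
      rw [MinF, mem_filter] at this
      exact this.2.1
    apply hx.2
    refine ⟨S', h2, ?_⟩
    intro e he
    by_cases heT : e ∈ T
    · exact hx.1 e heT
    · exact hno e he heT
  have h3 := hS1.2.2 T hTA hTS.1
  rw [h3] at hTS
  exact (lt_irrefl _ hTS)

/-- The number of sequences that contain a given set. -/
theorem card_contain {ι : Type} [Fintype ι] (Z : Finset E) :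
    (univ.filter fun φ : ι → E => ∀ z ∈ Z, ∃ i, φ i = z).card * Fintype.card E ^ Z.card ≤
      Fintype.card ι ^ Z.card * Fintype.card E ^ Fintype.card ι := by
  have hsub : (univ.filter fun φ : ι → E => ∀ z ∈ Z, ∃ i, φ i = z) ⊆
      (univ : Finset ({z // z ∈ Z} → ι)).biUnion fun g =>
        univ.filter fun φ : ι → E => ∀ z, φ (g z) = z.1 := by
    intro φ hφ
    rw [mem_filter] at hφ
    have h1 : ∀ z : {z // z ∈ Z}, ∃ i, φ i = z.1 := fun z => hφ.2 z.1 z.2
    choose g hg using h1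
    rw [mem_biUnion]
    exact ⟨g, mem_univ _, by rw [mem_filter]; exact ⟨mem_univ _, hg⟩⟩
  have hg : ∀ g ∈ (univ : Finset ({z // z ∈ Z} → ι)),
      (univ.filter fun φ : ι → E => ∀ z, φ (g z) = z.1).card * Fintype.card E ^ Z.card ≤
        Fintype.card E ^ Fintype.card ι := by
    intro g _
    by_cases hinj : Function.Injective g
    · set T : Finset ι := univ.image g with hT
      have hTc : T.card = Z.card := by
        rw [hT, card_image_of_injective _ hinj, card_univ, Fintype.card_coe]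
      rcases Z.eq_empty_or_nonempty with hZ | ⟨z₀, hz₀⟩
      · subst hZ
        rw [card_empty, pow_zero, mul_one]
        refine (card_le_univ _).trans ?_
        rw [Fintype.card_fun]
      · set τ : ι → E := fun i => if h : ∃ z, g z = i then h.choose.1 else z₀ with hτ
        have hτg : ∀ z, τ (g z) = z.1 := by
          intro z
          have h1 : ∃ z', g z' = g z := ⟨z, rfl⟩
          simp only [hτ]
          rw [dif_pos h1, hinj h1.choose_spec]
        have h1 := card_fixed T τ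
        rw [hTc] at h1
        rw [← h1]
        apply Nat.mul_le_mul_right
        apply card_le_card
        intro φ hφ
        simp only [mem_filter, mem_univ, true_and] at hφ ⊢
        intro i hi
        rw [hT, mem_image] at hi
        obtain ⟨z, -, rfl⟩ := hi
        rw [hφ z, hτg]
    · have hempty : (univ.filter fun φ : ι → E => ∀ z, φ (g z) = z.1) = ∅ := by
        rw [filter_eq_empty_iff]
        intro φ _ hφ
        apply hinj
        intro z z' hzz
        apply Subtype.ext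
        rw [← hφ z, ← hφ z', hzz]
      rw [hempty, card_empty, zero_mul]
      exact Nat.zero_le _
  calc (univ.filter fun φ : ι → E => ∀ z ∈ Z, ∃ i, φ i = z).card * Fintype.card E ^ Z.card
      ≤ (∑ g : {z // z ∈ Z} → ι,
          (univ.filter fun φ : ι → E => ∀ z, φ (g z) = z.1).card) *
          Fintype.card E ^ Z.card :=
        Nat.mul_le_mul_right _ ((card_le_card hsub).trans card_biUnion_le)
    _ = ∑ g : {z // z ∈ Z} → ι,
          (univ.filter fun φ : ι → E => ∀ z, φ (g z) = z.1).card *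
          Fintype.card E ^ Z.card := sum_mul _ _ _
    _ ≤ ∑ _g : {z // z ∈ Z} → ι, Fintype.card E ^ Fintype.card ι := sum_le_sum hg
    _ = Fintype.card ι ^ Z.card * Fintype.card E ^ Fintype.card ι := by
        rw [sum_const, card_univ, Fintype.card_fun, Fintype.card_coe,
          smul_eq_mul]

/-- The same for real numbers. -/
theorem card_contain_real {ι : Type} [Fintype ι] (hE : 0 < Fintype.card E) (Z : Finset E) :
    ((univ.filter fun φ : ι → E => ∀ z ∈ Z, ∃ i, φ i = z).card : ℝ) ≤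
      (Fintype.card E : ℝ) ^ Fintype.card ι *
        ((Fintype.card ι : ℝ) / Fintype.card E) ^ Z.card := by
  have hE' : (0 : ℝ) < Fintype.card E := by exact_mod_cast hE
  have h : ((univ.filter fun φ : ι → E => ∀ z ∈ Z, ∃ i, φ i = z).card : ℝ) *
      (Fintype.card E : ℝ) ^ Z.card ≤ (Fintype.card ι : ℝ) ^ Z.card *
        (Fintype.card E : ℝ) ^ Fintype.card ι := by
    exact_mod_cast card_contain Z
  rw [div_pow, ← mul_div_assoc, le_div_iff₀ (by positivity)]
  linarith

theorem sq_le_two_pow (w : ℕ) : (w + 1) ^ 2 ≤ 2 ^ (w + 2) := by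
  induction w with
  | zero => norm_num
  | succ w ih =>
    rcases w with _ | _ | w
    · norm_num
    · norm_num
    · have h0 : 2 * (w + 1 + 1 + 1) ^ 2 = (w + 1 + 1 + 1 + 1) ^ 2 + (w ^ 2 + 4 * w + 2) := by ring
      have h : (w + 1 + 1 + 1 + 1) ^ 2 ≤ 2 * (w + 1 + 1 + 1) ^ 2 := by
        rw [h0]
        exact Nat.le_add_right _ _
      calc (w + 1 + 1 + 1 + 1) ^ 2 ≤ 2 * (w + 1 + 1 + 1) ^ 2 := h
        _ ≤ 2 * 2 ^ (w + 1 + 1 + 2) := Nat.mul_le_mul_left _ ih
        _ = 2 ^ (w + 1 + 1 + 1 + 2) := by ring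

/-- Two families with few minimal sets: a random sequence rarely contains the union of two minimal
sets if this union is large. -/
theorem card_pairs {ι : Type} [Fintype ι] (hE : 0 < Fintype.card E) (D : ℕ)
    {𝒜 ℬ : Set (Finset E)}
    (hA : ∀ S ∈ 𝒜, S.card ≤ w) (hB : ∀ S ∈ ℬ, S.card ≤ w) (hfA : FewMin D 𝒜) (hfB : FewMin D ℬ)
    (hρ : 2 * (D : ℝ) * ((Fintype.card ι : ℝ) / Fintype.card E) ≤ 1 / 4) :
    (univ.filter fun φ : ι → E => ∃ S ∈ MinF 𝒜, ∃ S' ∈ MinF ℬ, w < (S ∪ S').card ∧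
      ∀ z ∈ S ∪ S', ∃ i, φ i = z).card * 2 ^ w ≤ Fintype.card E ^ Fintype.card ι := by
  obtain ⟨ρ, hρdef⟩ : ∃ ρ : ℝ, ρ = (Fintype.card ι : ℝ) / Fintype.card E := ⟨_, rfl⟩
  have hρ0 : 0 ≤ ρ := by rw [hρdef]; positivity
  rw [← hρdef] at hρ
  have hD0 : (0 : ℝ) ≤ D := Nat.cast_nonneg _
  set X := (Fintype.card E : ℝ) ^ Fintype.card ι with hX
  have hX0 : 0 ≤ X := by positivity
  -- the union bound
  have h1 : ((univ.filter fun φ : ι → E => ∃ S ∈ MinF 𝒜, ∃ S' ∈ MinF ℬ, w < (S ∪ S').card ∧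
      ∀ z ∈ S ∪ S', ∃ i, φ i = z).card : ℝ) ≤
      ∑ S ∈ MinF 𝒜, ∑ S' ∈ MinF ℬ, if w < (S ∪ S').card then X * ρ ^ (S ∪ S').card else 0 := by
    have h2 : (univ.filter fun φ : ι → E => ∃ S ∈ MinF 𝒜, ∃ S' ∈ MinF ℬ, w < (S ∪ S').card ∧
        ∀ z ∈ S ∪ S', ∃ i, φ i = z) ⊆ (MinF 𝒜).biUnion fun S => (MinF ℬ).biUnion fun S' =>
        if w < (S ∪ S').card then univ.filter fun φ : ι → E => ∀ z ∈ S ∪ S', ∃ i, φ i = z
          else ∅ := by
      intro φ hφ
      rw [mem_filter] at hφ
      obtain ⟨-, S, hS, S', hS', hlt, hz⟩ := hφ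
      rw [mem_biUnion]
      refine ⟨S, hS, ?_⟩
      rw [mem_biUnion]
      refine ⟨S', hS', ?_⟩
      rw [if_pos hlt, mem_filter]
      exact ⟨mem_univ _, hz⟩
    have h3 := (card_le_card h2).trans (card_biUnion_le.trans (sum_le_sum fun S _ =>
      card_biUnion_le (s := MinF ℬ)))
    have h4 : ((univ.filter fun φ : ι → E => ∃ S ∈ MinF 𝒜, ∃ S' ∈ MinF ℬ, w < (S ∪ S').card ∧
        ∀ z ∈ S ∪ S', ∃ i, φ i = z).card : ℝ) ≤
        ((∑ S ∈ MinF 𝒜, ∑ S' ∈ MinF ℬ, (if w < (S ∪ S').card then univ.filter fun φ : ι → E =>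
          ∀ z ∈ S ∪ S', ∃ i, φ i = z else ∅).card : ℕ) : ℝ) := by exact_mod_cast h3
    refine h4.trans ?_
    push_cast
    apply sum_le_sum
    intro S _
    apply sum_le_sum
    intro S' _
    split_ifs
    · rw [hX, hρdef]
      exact card_contain_real hE (S ∪ S')
    · simp
  -- the sum for one set `S`
  set f : ℕ → ℝ := fun a => ∑ j ∈ range (w + 1),
    if w < a + j then (2 : ℝ) ^ a * (D : ℝ) ^ j * (X * ρ ^ (a + j)) else 0 with hf
  have h2 : ∀ S ∈ MinF 𝒜, (∑ S' ∈ MinF ℬ,
      if w < (S ∪ S').card then X * ρ ^ (S ∪ S').card else 0) ≤ f S.card := by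
    intro S _
    have h3 : ∀ S' ∈ MinF ℬ, (if w < (S ∪ S').card then X * ρ ^ (S ∪ S').card else 0) ≤
        ∑ I ∈ S.powerset, ∑ j ∈ range (w + 1),
          if (I ⊆ S' ∧ S'.card = I.card + j) then
            (if w < S.card + j then X * ρ ^ (S.card + j) else 0) else 0 := by
      intro S' hS'
      have h4 : (S ∪ S').card = S.card + (S' \ S).card := by
        rw [← union_sdiff_self_eq_union, card_union_of_disjoint disjoint_sdiff]
      have h5 : (S' \ S).card ≤ w := by
        rw [MinF, mem_filter] at hS'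
        exact (card_le_card sdiff_subset).trans (hB S' hS'.2.1)
      have h6 : S'.card = (S ∩ S').card + (S' \ S).card := by
        rw [inter_comm]
        exact (card_inter_add_card_sdiff _ _).symm
      have hnn : ∀ I ∈ S.powerset, 0 ≤ ∑ j ∈ range (w + 1),
          (if (I ⊆ S' ∧ S'.card = I.card + j) then
            (if w < S.card + j then X * ρ ^ (S.card + j) else 0) else 0 : ℝ) := by
        intro I _
        apply sum_nonneg
        intro j _
        split_ifs
        · positivity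
        · exact le_rfl
        · exact le_rfl
      refine le_trans ?_ (single_le_sum hnn (mem_powerset.2 (inter_subset_left (s₂ := S'))))
      refine le_trans ?_ (single_le_sum (f := fun j => (if (S ∩ S' ⊆ S' ∧
        S'.card = (S ∩ S').card + j) then
            (if w < S.card + j then X * ρ ^ (S.card + j) else 0) else 0 : ℝ)) ?_
            (mem_range.2 (Nat.lt_succ_of_le h5)))
      · have h7 : S ∩ S' ⊆ S' ∧ S'.card = (S ∩ S').card + (S' \ S).card :=
          ⟨inter_subset_right, h6⟩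
        rw [if_pos h7, h4]
      · intro j _
        split_ifs
        · positivity
        · exact le_rfl
        · exact le_rfl
    refine (sum_le_sum h3).trans ?_
    rw [sum_comm]
    have h4 : ∀ I ∈ S.powerset, (∑ S' ∈ MinF ℬ, ∑ j ∈ range (w + 1),
          if (I ⊆ S' ∧ S'.card = I.card + j) then
            (if w < S.card + j then X * ρ ^ (S.card + j) else 0) else 0) ≤
        ∑ j ∈ range (w + 1), (D : ℝ) ^ j *
          (if w < S.card + j then X * ρ ^ (S.card + j) else 0) := by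
      intro I _
      rw [sum_comm]
      apply sum_le_sum
      intro j _
      rw [← sum_filter, sum_const, nsmul_eq_mul]
      apply mul_le_mul_of_nonneg_right
      · exact_mod_cast hfB I j
      · split_ifs
        · positivity
        · exact le_rfl
    refine (sum_le_sum h4).trans (le_of_eq ?_)
    rw [sum_const, card_powerset, nsmul_eq_mul, mul_sum, hf]
    apply sum_congr rfl
    intro j _
    split_ifs
    · push_cast
      ring
    · simp
  have h3 : (∑ S ∈ MinF 𝒜, f S.card) ≤ ∑ a ∈ range (w + 1), (D : ℝ) ^ a * f a := by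
    have hmaps : ∀ S ∈ MinF 𝒜, S.card ∈ range (w + 1) := by
      intro S hS
      rw [MinF, mem_filter] at hS
      exact mem_range.2 (Nat.lt_succ_of_le (hA S hS.2.1))
    rw [← sum_fiberwise_of_maps_to hmaps]
    apply sum_le_sum
    intro a _
    have h4 : ∀ S ∈ (MinF 𝒜).filter fun S => S.card = a, f S.card = f a := by
      intro S hS
      rw [(mem_filter.1 hS).2]
    rw [sum_congr rfl h4, sum_const, nsmul_eq_mul]
    apply mul_le_mul_of_nonneg_right
    · have h5 := hfA ∅ a
      have h6 : ((MinF 𝒜).filter fun S => S.card = a).card ≤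
          ((MinF 𝒜).filter fun S => ∅ ⊆ S ∧ S.card = (∅ : Finset E).card + a).card := by
        apply card_le_card
        intro S hS
        rw [mem_filter] at hS ⊢
        exact ⟨hS.1, empty_subset _, by rw [card_empty, zero_add]; exact hS.2⟩
      exact_mod_cast h6.trans h5
    · rw [hf]
      apply sum_nonneg
      intro j _
      split_ifs
      · positivity
      · exact le_rfl
  have h4 : (∑ a ∈ range (w + 1), (D : ℝ) ^ a * f a) ≤
      ∑ a ∈ range (w + 1), ∑ j ∈ range (w + 1), X * (1 / 4 : ℝ) ^ (w + 1) := by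
    apply sum_le_sum
    intro a _
    rw [hf, mul_sum]
    apply sum_le_sum
    intro j _
    split_ifs with hlt
    · have e1 : (D : ℝ) ^ a * ((2 : ℝ) ^ a * (D : ℝ) ^ j * (X * ρ ^ (a + j))) =
          X * ((2 * D * ρ) ^ a * (D * ρ) ^ j) := by
        rw [mul_pow, mul_pow, mul_pow, pow_add]
        ring
      rw [e1]
      apply mul_le_mul_of_nonneg_left _ hX0
      have h5 : (D : ℝ) * ρ ≤ 1 / 4 := by
        have : 0 ≤ (D : ℝ) * ρ := by positivity
        linarith
      calc (2 * (D : ℝ) * ρ) ^ a * (D * ρ) ^ j ≤ (1 / 4) ^ a * (1 / 4) ^ j := by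
            apply mul_le_mul
            · exact pow_le_pow_left₀ (by positivity) hρ _
            · exact pow_le_pow_left₀ (by positivity) h5 _
            · positivity
            · positivity
        _ = (1 / 4 : ℝ) ^ (a + j) := by rw [pow_add]
        _ ≤ (1 / 4 : ℝ) ^ (w + 1) := by
            apply pow_le_pow_of_le_one (by norm_num) (by norm_num)
            omega
    · rw [mul_zero]
      positivity
  have h5 : ((univ.filter fun φ : ι → E => ∃ S ∈ MinF 𝒜, ∃ S' ∈ MinF ℬ, w < (S ∪ S').card ∧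
      ∀ z ∈ S ∪ S', ∃ i, φ i = z).card : ℝ) ≤ ((w : ℝ) + 1) ^ 2 * (X * (1 / 4 : ℝ) ^ (w + 1)) := by
    refine h1.trans ((sum_le_sum h2).trans (h3.trans (h4.trans (le_of_eq ?_))))
    rw [sum_const, sum_const, card_range, nsmul_eq_mul, nsmul_eq_mul]
    push_cast
    ring
  have h6 : ((w : ℝ) + 1) ^ 2 ≤ 2 ^ (w + 2) := by
    exact_mod_cast sq_le_two_pow w
  have h7 : ((univ.filter fun φ : ι → E => ∃ S ∈ MinF 𝒜, ∃ S' ∈ MinF ℬ, w < (S ∪ S').card ∧
      ∀ z ∈ S ∪ S', ∃ i, φ i = z).card : ℝ) * 2 ^ w ≤ X := by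
    have h8 : ((w : ℝ) + 1) ^ 2 * (X * (1 / 4 : ℝ) ^ (w + 1)) * 2 ^ w ≤
        2 ^ (w + 2) * (X * (1 / 4 : ℝ) ^ (w + 1)) * 2 ^ w := by
      apply mul_le_mul_of_nonneg_right _ (by positivity)
      exact mul_le_mul_of_nonneg_right h6 (by positivity)
    have h9 : (2 : ℝ) ^ (w + 2) * (X * (1 / 4 : ℝ) ^ (w + 1)) * 2 ^ w = X := by
      have e1 : (2 : ℝ) ^ (w + 2) * 2 ^ w = 4 ^ (w + 1) := by
        rw [← pow_add, show (4 : ℝ) = 2 ^ 2 by norm_num, ← pow_mul]
        congr 1
        ring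
      calc (2 : ℝ) ^ (w + 2) * (X * (1 / 4 : ℝ) ^ (w + 1)) * 2 ^ w
          = X * ((2 : ℝ) ^ (w + 2) * 2 ^ w * (1 / 4 : ℝ) ^ (w + 1)) := by ring
        _ = X * ((4 : ℝ) * (1 / 4)) ^ (w + 1) := by rw [e1, mul_pow]
        _ = X := by norm_num
    calc _ ≤ ((w : ℝ) + 1) ^ 2 * (X * (1 / 4 : ℝ) ^ (w + 1)) * 2 ^ w :=
          mul_le_mul_of_nonneg_right h5 (by positivity)
      _ ≤ _ := h8
      _ = X := h9
  rw [hX] at h7
  exact_mod_cast h7

end

end Pool.Agent.T9h16.Rand
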