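import Pool.Agent.T9h16.Rand.Build
import Pool.Agent.T9lead.LN.Win

/-!
Translation between straight-line programs and Boolean circuits with AND, OR and NOT gates.
-/

set_option autoImplicit false
set_option linter.unusedSectionVars false

namespace Pool.Agent.T9h16.Rand

open scoped Classical
open Pool.Agent.T9h16 (Leaf Avail IsSLP)
open Pool.Agent.LN (Circuit Wire Gate Reach base)

variable {Λ : Type}

/-- The circuit `C` accepts the set `F`: its value is true if exactly the variables in `F` are
true. -/
def Acc' (C : Circuit Λ) (F : Set Λ) : Prop := C.eval (fun c => decide (c ∈ F)) = true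

/-- The function of sets given by a Boolean function. -/
def toSet (f : (Λ → Bool) → Bool) (z : Set Λ) : Prop := f (fun c => decide (c ∈ z)) = true

theorem reach_comp {s t : ℕ} {B : Set ((Λ → Bool) → Bool)} (h : Reach (base Λ) s t B)
    (ht : t = 0) : Comp s (toSet '' B) := by
  induction h with
  | refl =>
    refine (comp_zero.leaves (𝒢 := toSet '' base Λ) ?_).mono le_rfl Set.subset_union_right
    rintro f ⟨f, (⟨i, rfl⟩ | rfl | rfl), rfl⟩
    · exact Or.inl ⟨i, fun z => by simp [toSet]⟩
    · exact Or.inr ⟨True, fun z => by simp [toSet]⟩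
    · exact Or.inr ⟨False, fun z => by simp [toSet]⟩
  | @and s t B f g _ hf hg ih =>
    have h1 := (ih ht).gate (f := toSet (fun x => f x && g x)) ⟨f, hf, rfl⟩ ⟨g, hg, rfl⟩
      (Or.inl fun z => by simp [toSet])
    refine h1.mono le_rfl ?_
    rintro _ ⟨p, (rfl | hp), rfl⟩
    · exact Or.inl rfl
    · exact Or.inr ⟨p, hp, rfl⟩
  | @or s t B f g _ hf hg ih =>
    have h1 := (ih ht).gate (f := toSet (fun x => f x || g x)) ⟨f, hf, rfl⟩ ⟨g, hg, rfl⟩
      (Or.inr fun z => by simp [toSet])
    refine h1.mono le_rfl ?_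
    rintro _ ⟨p, (rfl | hp), rfl⟩
    · exact Or.inl rfl
    · exact Or.inr ⟨p, hp, rfl⟩
  | @not s t B f _ hf ih => omega

/-- A circuit without NOT gates is a monotone circuit. -/
theorem exists_mono (C : Circuit Λ) (hC : C.nots = 0) :
    ∃ D : MonoCircuit Λ, D.size ≤ C.size ∧ ∀ F, Accepts D F ↔ Acc' C F := by
  obtain ⟨s, hs, t, ht, B, hB, hCB⟩ := Pool.Agent.LN.comp_of_circuit C
  have h1 := reach_comp hB (by omega)
  obtain ⟨D, hD, hacc⟩ := h1.circuit (o := toSet C.eval) ⟨C.eval, hCB rfl, rfl⟩
  exact ⟨D, hD.trans hs, hacc⟩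

/-- The Boolean function given by a function of sets. -/
noncomputable def toFun (f : Set Λ → Prop) (x : Λ → Bool) : Bool := decide (f {c | x c = true})

/-- A monotone circuit is a circuit without NOT gates. -/
theorem exists_bool (D : MonoCircuit Λ) :
    ∃ C : Circuit Λ, C.size ≤ D.size ∧ C.nots = 0 ∧ ∀ F, Acc' C F ↔ Accepts D F := by
  obtain ⟨g, o, hg, ho, hacc⟩ := exists_slp D
  have hleaf : ∀ p : Set Λ → Prop, Leaf p → toFun p ∈ base Λ := by
    rintro p (⟨e, he⟩ | ⟨b, hb⟩)
    · refine Or.inl ⟨e, ?_⟩
      funext x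
      simp [toFun, he]
    · by_cases hb' : b
      · refine Or.inr (Or.inl ?_)
        funext x
        simp [toFun, hb, hb']
      · refine Or.inr (Or.inr ?_)
        funext x
        simp [toFun, hb, hb']
  have hav : ∀ (i : ℕ) (p : Set Λ → Prop), Avail g i p →
      toFun p ∈ base Λ ∪ {f | ∃ j < i, f = toFun (g j)} := by
    rintro i p (hp | ⟨j, hj, hp⟩)
    · exact Or.inl (hleaf p hp)
    · refine Or.inr ⟨j, hj, ?_⟩
      have : p = g j := by
        funext z
        exact propext (hp z)
      rw [this]
  have key : ∀ i ≤ D.size, Pool.Agent.LN.Comp (base Λ) i 0 {f | ∃ j < i, f = toFun (g j)} := by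
    intro i
    induction i with
    | zero =>
      intro _
      refine Pool.Agent.LN.Comp.of_subset ?_
      rintro f ⟨j, hj, -⟩
      exact absurd hj (Nat.not_lt_zero j)
    | succ i ih =>
      intro hi
      have h1 := ih (by omega)
      have h2 : Pool.Agent.LN.Comp (base Λ ∪ {f | ∃ j < i, f = toFun (g j)}) 1 0
          {toFun (g i)} := by
        rcases hg i (by omega) with hl | ⟨p, q, hp, hq, hpq⟩
        · refine (Pool.Agent.LN.Comp.of_subset ?_).mono subset_rfl (Nat.zero_le 1) le_rfl
            subset_rfl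
          rw [Set.singleton_subset_iff]
          exact Or.inl (hleaf _ hl)
        · rcases hpq with hpq | hpq
          · have h3 := Pool.Agent.LN.comp_and (hav i p hp) (hav i q hq)
            have h4 : (fun x => toFun p x && toFun q x) = toFun (g i) := by
              funext x
              rw [Bool.eq_iff_iff]
              simp [toFun, hpq]
            rwa [h4] at h3
          · have h3 := Pool.Agent.LN.comp_or (hav i p hp) (hav i q hq)
            have h4 : (fun x => toFun p x || toFun q x) = toFun (g i) := by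
              funext x
              rw [Bool.eq_iff_iff]
              simp [toFun, hpq]
            rwa [h4] at h3
      refine (h1.trans h2).mono subset_rfl le_rfl le_rfl ?_
      rintro f ⟨j, hj, rfl⟩
      rcases Nat.lt_succ_iff_lt_or_eq.1 hj with hj | rfl
      · exact Or.inl ⟨j, hj, rfl⟩
      · exact Or.inr rfl
  have h1 : Pool.Agent.LN.Comp (base Λ) D.size 0 {toFun o} := by
    have h2 : Pool.Agent.LN.Comp (base Λ ∪ {f | ∃ j < D.size, f = toFun (g j)}) 0 0 {toFun o} :=
      Pool.Agent.LN.Comp.of_subset (by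
        rw [Set.singleton_subset_iff]
        exact hav D.size o ho)
    exact (key D.size le_rfl).trans' h2
  obtain ⟨C, hC1, hC2, hC3⟩ := Pool.Agent.LN.exists_circuit h1
  refine ⟨C, hC1, by omega, fun F => ?_⟩
  rw [hacc]
  unfold Acc'
  rw [hC3]
  simp [toFun]

/-- One NOT gate suffices on a slice. -/
theorem exists_one_not [Fintype Λ] (C : Circuit Λ) (m : ℕ) :
    ∃ C' : Circuit Λ, C'.size ≤ 2 * C.size + 10 * (Fintype.card Λ + 1) ^ 3 ∧ C'.nots ≤ 1 ∧
      ∀ F : Set Λ, Acc' C' F ↔ Acc' C F ∧ F.ncard = m := by
  have h1 := Pool.Agent.LN.comp_slice (Pool.Agent.LN.comp_of_circuit C) ∅ m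
  have h2 := Pool.Agent.LN.comp_wt (∅ : Finset Λ) (m + 1)
  have h3 := h2.trans' (Pool.Agent.LN.comp_not (A := base Λ ∪ {fun x =>
    decide (m + 1 ≤ Pool.Agent.LN.wt ∅ x)}) (Or.inr rfl))
  have h4 := h1.and h3
  obtain ⟨C', hC1, hC2, hC3⟩ := Pool.Agent.LN.exists_circuit h4
  refine ⟨C', hC1.trans ?_, by omega, fun F => ?_⟩
  · have e1 : (Fintype.card Λ + 1) ^ 2 ≤ (Fintype.card Λ + 1) ^ 3 :=
      Nat.pow_le_pow_right (Nat.succ_pos _) (by norm_num)
    have e2 : 1 ≤ (Fintype.card Λ + 1) ^ 3 := Nat.one_le_pow _ _ (Nat.succ_pos _)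
    omega
  · have hwt : Pool.Agent.LN.wt ∅ (fun c => decide (c ∈ F)) = F.ncard := by
      unfold Pool.Agent.LN.wt
      rw [← Set.ncard_coe_finset]
      congr 1
      ext c
      simp
    have hup : Pool.Agent.LN.up ∅ (fun c => decide (c ∈ F)) = fun c => decide (c ∈ F) := by
      funext c
      simp [Pool.Agent.LN.up]
    unfold Acc'
    rw [hC3]
    simp only [Pool.Agent.LN.win, hwt, hup, Bool.and_eq_true, Bool.not_eq_true',
      decide_eq_false_iff_not, not_le]
    constructor
    · rintro ⟨h5, h6⟩
      split_ifs at h5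
      exact ⟨h5, by omega⟩
    · rintro ⟨h5, h6⟩
      rw [if_neg (by omega), if_pos (by omega)]
      exact ⟨h5, by omega⟩

/-- Most random sequences have distinct entries. -/
theorem not_distinct {E : Type} [Fintype E] (m : ℕ) :
    {φ : Fin m → E | (Set.range φ).ncard ≠ m}.ncard * (2 * Fintype.card E) ≤
      m ^ 2 * Nat.card (Fin m → E) := by
  have hsub : {φ : Fin m → E | (Set.range φ).ncard ≠ m} ⊆
      ⋃ p ∈ ((Finset.univ : Finset (Fin m × Fin m)).filter fun p => p.1 < p.2),
        {φ : Fin m → E | φ p.1 = φ p.2} := by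
    intro φ hφ
    have hninj : ¬ Function.Injective φ := by
      intro hinj
      apply hφ
      rw [← Set.image_univ, Set.ncard_image_of_injective _ hinj, Set.ncard_univ,
        Nat.card_eq_fintype_card, Fintype.card_fin]
    unfold Function.Injective at hninj
    simp only [not_forall] at hninj
    obtain ⟨i, j, hij, hne⟩ := hninj
    simp only [Set.mem_iUnion, Finset.mem_filter, Finset.mem_univ, true_and, Set.mem_ofPred_eq]
    rcases lt_or_gt_of_ne hne with h | h
    · exact ⟨(i, j), h, hij⟩
    · exact ⟨(j, i), h, hij.symm⟩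
  have hpair : ∀ p ∈ ((Finset.univ : Finset (Fin m × Fin m)).filter fun p => p.1 < p.2),
      {φ : Fin m → E | φ p.1 = φ p.2}.ncard * Fintype.card E ≤ Nat.card (Fin m → E) := by
    rintro ⟨i, j⟩ hp
    have hij : i ≠ j := (Finset.mem_filter.1 hp).2.ne
    have h1 : ({φ : Fin m → E | φ i = φ j} ×ˢ (Set.univ : Set E)).ncard ≤
        (Set.univ : Set (Fin m → E)).ncard := by
      apply Set.ncard_le_ncard_of_injOn (fun q => Function.update q.1 j q.2)
      · intro q _
        exact Set.mem_univ _
      · rintro ⟨φ, e⟩ hq ⟨ψ, f⟩ hq' h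
        simp only [Set.mem_prod, Set.mem_ofPred_eq, Set.mem_univ, and_true] at hq hq'
        simp only at h
        have h2 : e = f := by
          have := congrFun h j
          rwa [Function.update_self, Function.update_self] at this
        have h3 : ∀ l, l ≠ j → φ l = ψ l := by
          intro l hl
          have := congrFun h l
          rwa [Function.update_of_ne hl, Function.update_of_ne hl] at this
        have h4 : φ = ψ := by
          funext l
          by_cases hl : l = j
          · rw [hl, ← hq, ← hq', h3 i hij]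
          · exact h3 l hl
        rw [h2, h4]
    rw [Set.ncard_prod, Set.ncard_univ, Set.ncard_univ, Nat.card_eq_fintype_card] at h1
    exact h1
  have hcount : 2 * ((Finset.univ : Finset (Fin m × Fin m)).filter fun p => p.1 < p.2).card ≤
      m ^ 2 := by
    have h1 : ((Finset.univ : Finset (Fin m × Fin m)).filter fun p => p.1 < p.2).card =
        ((Finset.univ : Finset (Fin m × Fin m)).filter fun p => p.2 < p.1).card := by
      apply Finset.card_bij (fun p _ => (p.2, p.1))
      · intro p hp
        simpa using hp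
      · intro p _ q _ h
        simp only [Prod.mk.injEq] at h
        exact Prod.ext h.2 h.1
      · intro p hp
        exact ⟨(p.2, p.1), by simpa using hp, rfl⟩
    have h2 : ((Finset.univ : Finset (Fin m × Fin m)).filter fun p => p.1 < p.2).card +
        ((Finset.univ : Finset (Fin m × Fin m)).filter fun p => p.2 < p.1).card ≤
        (Finset.univ : Finset (Fin m × Fin m)).card := by
      rw [← Finset.card_union_of_disjoint]
      · exact Finset.card_le_card (Finset.subset_univ _)
      · rw [Finset.disjoint_left]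
        intro p hp hp'
        rw [Finset.mem_filter] at hp hp'
        exact lt_asymm hp.2 hp'.2
    rw [Finset.card_univ, Fintype.card_prod, Fintype.card_fin] at h2
    have e1 : m ^ 2 = m * m := sq m
    omega
  have h1 := (Set.ncard_le_ncard hsub (Set.toFinite _)).trans
    (Finset.set_ncard_biUnion_le _ _)
  calc {φ : Fin m → E | (Set.range φ).ncard ≠ m}.ncard * (2 * Fintype.card E)
      ≤ (∑ p ∈ ((Finset.univ : Finset (Fin m × Fin m)).filter fun p => p.1 < p.2),
          {φ : Fin m → E | φ p.1 = φ p.2}.ncard) * (2 * Fintype.card E) :=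
        Nat.mul_le_mul_right _ h1
    _ = 2 * ∑ p ∈ ((Finset.univ : Finset (Fin m × Fin m)).filter fun p => p.1 < p.2),
          {φ : Fin m → E | φ p.1 = φ p.2}.ncard * Fintype.card E := by
        rw [← Finset.sum_mul]
        ring
    _ ≤ 2 * (((Finset.univ : Finset (Fin m × Fin m)).filter fun p => p.1 < p.2).card *
          Nat.card (Fin m → E)) := by
        apply Nat.mul_le_mul_left
        have := Finset.sum_le_card_nsmul _ _ _ hpair
        rwa [smul_eq_mul] at this
    _ = (2 * ((Finset.univ : Finset (Fin m × Fin m)).filter fun p => p.1 < p.2).card) *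
          Nat.card (Fin m → E) := by ring
    _ ≤ m ^ 2 * Nat.card (Fin m → E) := Nat.mul_le_mul_right _ hcount

end Pool.Agent.T9h16.Rand
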