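import Pool.Agent.T9h16.Rand.Circuit

/-!
Construction of monotone straight-line programs, layer by layer.
-/

set_option autoImplicit false
set_option linter.unusedSectionVars false

namespace Pool.Agent.T9h16.Rand

open Finset
open scoped Classical
open Pool.Agent.T9h16 (Leaf Avail IsSLP)

variable {Λ : Type}

/-- All functions in `𝓕` are computed by one straight-line program with at most `s` gates. -/
def Comp (s : ℕ) (𝓕 : Set (Set Λ → Prop)) : Prop :=
  ∃ r ≤ s, ∃ g : ℕ → Set Λ → Prop, IsSLP g r ∧ ∀ f ∈ 𝓕, Avail g r f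

theorem Comp.mono {s s' : ℕ} {𝓕 𝒢 : Set (Set Λ → Prop)} (h : Comp s 𝓕) (hs : s ≤ s')
    (hG : 𝒢 ⊆ 𝓕) : Comp s' 𝒢 := by
  obtain ⟨r, hr, g, h1, h2⟩ := h
  exact ⟨r, hr.trans hs, g, h1, fun f hf => h2 f (hG hf)⟩

theorem comp_zero : Comp 0 (∅ : Set (Set Λ → Prop)) :=
  ⟨0, le_rfl, fun _ _ => False, fun i hi => absurd hi (Nat.not_lt_zero i),
    fun f hf => absurd hf (Set.notMem_empty f)⟩

theorem Comp.leaves {s : ℕ} {𝓕 𝒢 : Set (Set Λ → Prop)} (h : Comp s 𝓕) (hG : ∀ f ∈ 𝒢, Leaf f) :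
    Comp s (𝓕 ∪ 𝒢) := by
  obtain ⟨r, hr, g, h1, h2⟩ := h
  refine ⟨r, hr, g, h1, ?_⟩
  rintro f (hf | hf)
  · exact h2 f hf
  · exact Or.inl (hG f hf)

theorem Comp.gate {s : ℕ} {𝓕 : Set (Set Λ → Prop)} (h : Comp s 𝓕) {p q f : Set Λ → Prop}
    (hp : p ∈ 𝓕) (hq : q ∈ 𝓕) (hf : (∀ z, f z ↔ (p z ∧ q z)) ∨ (∀ z, f z ↔ (p z ∨ q z))) :
    Comp (s + 1) (insert f 𝓕) := by
  obtain ⟨r, hr, g, h1, h2⟩ := h
  set g' : ℕ → Set Λ → Prop := fun i => if i = r then f else g i with hg'
  have hlt : ∀ i, i < r → g' i = g i := by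
    intro i hi
    simp only [hg']
    rw [if_neg (by omega)]
  have hr' : g' r = f := by
    simp only [hg', if_true]
  have hav : ∀ i ≤ r, ∀ p, Avail g i p → Avail g' i p := by
    rintro i hi p (hp | ⟨j, hj, hp⟩)
    · exact Or.inl hp
    · refine Or.inr ⟨j, hj, fun z => ?_⟩
      rw [hlt j (by omega)]
      exact hp z
  refine ⟨r + 1, by omega, g', ?_, ?_⟩
  · intro i hi
    rcases Nat.lt_succ_iff_lt_or_eq.1 hi with hi | rfl
    · rcases h1 i hi with hl | ⟨p, q, hp, hq, hpq⟩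
      · left
        rw [hlt i hi]
        exact hl
      · right
        rw [hlt i hi]
        exact ⟨p, q, hav i hi.le p hp, hav i hi.le q hq, hpq⟩
    · right
      rw [hr']
      exact ⟨p, q, hav _ le_rfl p (h2 p hp), hav _ le_rfl q (h2 q hq), hf⟩
  · rintro f' (rfl | hf')
    · exact Or.inr ⟨r, Nat.lt_succ_self r, fun z => by rw [hr']⟩
    · rcases h2 f' hf' with hl | ⟨j, hj, hp⟩
      · exact Or.inl hl
      · refine Or.inr ⟨j, by omega, fun z => ?_⟩
        rw [hlt j hj]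
        exact hp z

/-- A finite family of gates. -/
theorem Comp.family {s : ℕ} {𝓕 : Set (Set Λ → Prop)} (h : Comp s 𝓕) {J : Type} (T : Finset J)
    (f : J → Set Λ → Prop) (hf : ∀ j ∈ T, ∃ p ∈ 𝓕, ∃ q ∈ 𝓕,
      (∀ z, f j z ↔ (p z ∧ q z)) ∨ (∀ z, f j z ↔ (p z ∨ q z))) :
    Comp (s + T.card) (𝓕 ∪ f '' (T : Set J)) := by
  induction T using Finset.induction_on with
  | empty => exact h.mono le_rfl (by simp)
  | insert j T hj ih =>
    have ih' := ih (fun j' hj' => hf j' (mem_insert_of_mem hj'))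
    obtain ⟨p, hp, q, hq, hpq⟩ := hf j (mem_insert_self j T)
    have h1 := ih'.gate (f := f j) (Or.inl hp) (Or.inl hq) hpq
    refine h1.mono ?_ ?_
    · rw [card_insert_of_notMem hj]
      omega
    · rintro f' (hf' | ⟨j', hj', rfl⟩)
      · exact Or.inr (Or.inl hf')
      · rw [mem_coe, mem_insert] at hj'
        rcases hj' with rfl | hj'
        · exact Or.inl rfl
        · exact Or.inr (Or.inr ⟨j', hj', rfl⟩)

/-- A family of disjunctions or conjunctions of many functions. -/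
theorem Comp.big {s : ℕ} {𝓕 : Set (Set Λ → Prop)} (h : Comp s 𝓕) {J I : Type} [Fintype J]
    (T : Finset I) (f : J → I → Set Λ → Prop) (hf : ∀ j, ∀ i ∈ T, f j i ∈ 𝓕) :
    Comp (s + T.card * Fintype.card J) (𝓕 ∪ Set.range fun j z => ∃ i ∈ T, f j i z) ∧
    Comp (s + T.card * Fintype.card J) (𝓕 ∪ Set.range fun j z => ∀ i ∈ T, f j i z) := by
  induction T using Finset.induction_on with
  | empty =>
    constructor
    · refine (h.leaves (𝒢 := Set.range fun (_ : J) (_ : Set Λ) => ∃ i ∈ (∅ : Finset I), False)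
        ?_).mono (by simp) ?_
      · rintro f ⟨j, rfl⟩
        exact Or.inr ⟨_, fun z => Iff.rfl⟩
      · rintro f' (hf' | ⟨j, rfl⟩)
        · exact Or.inl hf'
        · refine Or.inr ⟨j, ?_⟩
          funext z
          simp
    · refine (h.leaves (𝒢 := Set.range fun (_ : J) (_ : Set Λ) => True) ?_).mono (by simp) ?_
      · rintro f ⟨j, rfl⟩
        exact Or.inr ⟨True, fun z => Iff.rfl⟩
      · rintro f' (hf' | ⟨j, rfl⟩)
        · exact Or.inl hf'
        · refine Or.inr ⟨j, ?_⟩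
          funext z
          simp
  | insert i T hi ih =>
    obtain ⟨ih1, ih2⟩ := ih (fun j i' hi' => hf j i' (mem_insert_of_mem hi'))
    have hcard : s + T.card * Fintype.card J + (univ : Finset J).card ≤
        s + (insert i T).card * Fintype.card J := by
      rw [card_insert_of_notMem hi, card_univ]
      apply le_of_eq
      ring
    constructor
    · refine (ih1.family (univ : Finset J) (fun j z => ∃ i' ∈ insert i T, f j i' z)
        ?_).mono hcard ?_
      · intro j _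
        refine ⟨_, Or.inr ⟨j, rfl⟩, f j i, Or.inl (hf j i (mem_insert_self i T)), Or.inr ?_⟩
        intro z
        constructor
        · rintro ⟨i', hi', hz⟩
          rcases mem_insert.1 hi' with rfl | hi'
          · exact Or.inr hz
          · exact Or.inl ⟨i', hi', hz⟩
        · rintro (⟨i', hi', hz⟩ | hz)
          · exact ⟨i', mem_insert_of_mem hi', hz⟩
          · exact ⟨i, mem_insert_self i T, hz⟩
      · rintro f' (hf' | ⟨j, rfl⟩)
        · exact Or.inl (Or.inl hf')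
        · exact Or.inr ⟨j, by simp, rfl⟩
    · refine (ih2.family (univ : Finset J) (fun j z => ∀ i' ∈ insert i T, f j i' z)
        ?_).mono hcard ?_
      · intro j _
        refine ⟨_, Or.inr ⟨j, rfl⟩, f j i, Or.inl (hf j i (mem_insert_self i T)), Or.inl ?_⟩
        intro z
        constructor
        · intro hz
          exact ⟨fun i' hi' => hz i' (mem_insert_of_mem hi'), hz i (mem_insert_self i T)⟩
        · rintro ⟨hz1, hz2⟩ i' hi'
          rcases mem_insert.1 hi' with rfl | hi'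
          · exact hz2
          · exact hz1 i' hi'
      · rintro f' (hf' | ⟨j, rfl⟩)
        · exact Or.inl (Or.inl hf')
        · exact Or.inr ⟨j, by simp, rfl⟩

theorem Comp.circuit {s : ℕ} {𝓕 : Set (Set Λ → Prop)} (h : Comp s 𝓕) {o : Set Λ → Prop}
    (ho : o ∈ 𝓕) : ∃ D : MonoCircuit Λ, D.size ≤ s ∧ ∀ F, Accepts D F ↔ o F := by
  obtain ⟨r, hr, g, h1, h2⟩ := h
  obtain ⟨D, hD, hacc⟩ := exists_circuit h1 (h2 o ho)
  exact ⟨D, hD.le.trans hr, hacc⟩

end Pool.Agent.T9h16.Rand
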