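import Pool.Agent.T9h16.Rand.Defs
import Pool.Agent.T9h16.Circ

/-!
Monotone circuits and straight-line programs.
-/

set_option autoImplicit false
set_option linter.unusedSectionVars false

namespace Pool.Agent.T9h16.Rand

open Pool.Agent.T9h16 (Leaf Avail IsSLP exists_solution)
open scoped Classical

variable {Λ : Type}

theorem value_congr {s : ℕ} (F : Set Λ) {v v' : Fin s → Prop} {i : Fin s} (o : Source Λ s)
    (ho : ∀ j, o = Source.gate j → j < i) (h : ∀ j < i, v j ↔ v' j) :
    value F v o ↔ value F v' o := by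
  cases o with
  | input c => exact Iff.rfl
  | const b => exact Iff.rfl
  | gate j => exact h j (ho j rfl)

theorem exists_run (D : MonoCircuit Λ) (F : Set Λ) : ∃ v, Run D F v :=
  exists_solution (s := D.size) (fun v i =>
    if D.isAnd i = true then (value F v (D.left i) ∧ value F v (D.right i))
      else (value F v (D.left i) ∨ value F v (D.right i))) (by
    intro v v' i h
    have h1 := value_congr F (D.left i) (fun j hj => (D.acyclic i j).1 hj) h
    have h2 := value_congr F (D.right i) (fun j hj => (D.acyclic i j).2 hj) h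
    split_ifs
    · rw [h1, h2]
    · rw [h1, h2])

theorem run_unique {D : MonoCircuit Λ} {F : Set Λ} {v v' : Fin D.size → Prop}
    (h : Run D F v) (h' : Run D F v') : v = v' := by
  funext i
  apply propext
  induction i using WellFoundedLT.induction with
  | ind i ih =>
    rw [h i, h' i]
    have h1 := value_congr F (D.left i) (fun j hj => (D.acyclic i j).1 hj) ih
    have h2 := value_congr F (D.right i) (fun j hj => (D.acyclic i j).2 hj) ih
    split_ifs
    · rw [h1, h2]
    · rw [h1, h2]

/-- A circuit is a straight-line program. -/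
theorem exists_slp (D : MonoCircuit Λ) : ∃ (g : ℕ → Set Λ → Prop) (o : Set Λ → Prop),
    IsSLP g D.size ∧ Avail g D.size o ∧ ∀ F, Accepts D F ↔ o F := by
  choose val hval using fun F => exists_run D F
  obtain ⟨g, hg⟩ : ∃ g : ℕ → Set Λ → Prop, ∀ (i : Fin D.size) z, g i.val z ↔ val z i :=
    ⟨fun i z => if h : i < D.size then val z ⟨i, h⟩ else False, fun i z => by simp⟩
  have havail : ∀ (o : Source Λ D.size) (m : ℕ), (∀ j, o = Source.gate j → j.val < m) →
      Avail g m (fun z => value z (val z) o) := by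
    intro o m ho
    cases o with
    | input c => exact Or.inl (Or.inl ⟨c, fun z => Iff.rfl⟩)
    | const b => exact Or.inl (Or.inr ⟨b = true, fun z => Iff.rfl⟩)
    | gate j => exact Or.inr ⟨j.val, ho j rfl, fun z => (hg j z).symm⟩
  refine ⟨g, fun z => value z (val z) D.out, ?_, havail D.out D.size (fun j _ => j.isLt), ?_⟩
  · intro i hi
    right
    refine ⟨_, _, havail (D.left ⟨i, hi⟩) i (fun j hj => (D.acyclic _ j).1 hj),
      havail (D.right ⟨i, hi⟩) i (fun j hj => (D.acyclic _ j).2 hj), ?_⟩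
    by_cases hA : D.isAnd ⟨i, hi⟩ = true
    · left
      intro z
      rw [hg ⟨i, hi⟩ z, hval z ⟨i, hi⟩, if_pos hA]
    · right
      intro z
      rw [hg ⟨i, hi⟩ z, hval z ⟨i, hi⟩, if_neg hA]
  · intro F
    constructor
    · rintro ⟨v, hv, ho⟩
      rwa [run_unique hv (hval _)] at ho
    · intro h
      exact ⟨_, hval _, h⟩

/-- A straight-line program is a circuit. -/
theorem exists_circuit {g : ℕ → Set Λ → Prop} {s : ℕ} (hg : IsSLP g s) {o : Set Λ → Prop}
    (ho : Avail g s o) : ∃ D : MonoCircuit Λ, D.size = s ∧ ∀ F, Accepts D F ↔ o F := by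
  have hsrc : ∀ (p : Set Λ → Prop) (i : ℕ), i ≤ s → Avail g i p → ∃ a : Source Λ s,
      (∀ j, a = Source.gate j → j.val < i) ∧
        ∀ z, value z (fun j : Fin s => g j.val z) a ↔ p z := by
    rintro p i hi ((⟨c, hc⟩ | ⟨b, hb⟩) | ⟨j, hj, hp⟩)
    · refine ⟨Source.input c, ?_, fun z => (hc z).symm⟩
      intro j hj
      cases hj
    · refine ⟨Source.const (decide b), ?_, fun z => ?_⟩
      · intro j hj
        cases hj
      · rw [hb z]
        simp [value]
    · refine ⟨Source.gate ⟨j, by omega⟩, ?_, fun z => (hp z).symm⟩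
      intro j' hj'
      cases hj'
      exact hj
  have hgate : ∀ i : Fin s, ∃ (A : Bool) (a b : Source Λ s),
      (∀ j, a = Source.gate j → j < i) ∧ (∀ j, b = Source.gate j → j < i) ∧
      ∀ z, g i.val z ↔ if A = true then
        (value z (fun j : Fin s => g j.val z) a ∧ value z (fun j : Fin s => g j.val z) b) else
        (value z (fun j : Fin s => g j.val z) a ∨ value z (fun j : Fin s => g j.val z) b) := by
    intro i
    rcases hg i.val i.isLt with hleaf | ⟨p, q, hp, hq, hpq⟩
    · obtain ⟨a, ha1, ha2⟩ := hsrc (g i.val) i.val i.isLt.le (Or.inl hleaf)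
      refine ⟨true, a, a, fun j hj => ha1 j hj, fun j hj => ha1 j hj, fun z => ?_⟩
      rw [if_pos rfl, ha2 z, and_self_iff]
    · obtain ⟨a, ha1, ha2⟩ := hsrc p i.val i.isLt.le hp
      obtain ⟨b, hb1, hb2⟩ := hsrc q i.val i.isLt.le hq
      rcases hpq with hpq | hpq
      · refine ⟨true, a, b, fun j hj => ha1 j hj, fun j hj => hb1 j hj, fun z => ?_⟩
        rw [if_pos rfl, ha2 z, hb2 z, hpq z]
      · refine ⟨false, a, b, fun j hj => ha1 j hj, fun j hj => hb1 j hj, fun z => ?_⟩
        rw [if_neg (by simp), ha2 z, hb2 z, hpq z]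
  choose A a b h1 h2 h3 using hgate
  obtain ⟨c, -, hc⟩ := hsrc o s le_rfl ho
  refine ⟨⟨s, A, a, b, c, fun i j => ⟨h1 i j, h2 i j⟩⟩, rfl, fun F => ?_⟩
  have hrun : Run (⟨s, A, a, b, c, fun i j => ⟨h1 i j, h2 i j⟩⟩ : MonoCircuit Λ) F
      (fun j : Fin s => g j.val F) := fun i => h3 i F
  constructor
  · rintro ⟨v, hv, hout⟩
    rw [run_unique hv hrun] at hout
    exact (hc F).1 hout
  · intro h
    exact ⟨_, hrun, (hc F).2 h⟩

end Pool.Agent.T9h16.Rand
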