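import Pool.Agent.T9h16.Rand.Slp

/-!
Clauses with `k` literals on `k` distinct variables.
-/

set_option autoImplicit false
set_option linter.unusedSectionVars false

namespace Pool.Agent.T9h16.Rand

open Finset
open scoped Classical
open Pool.Agent.T9h16 (Leaf Avail IsSLP)

/-- The elements of `E` are the clauses with `k` literals on `k` distinct variables. -/
structure IsCl {V E : Type} (k : ℕ) (lits : E → Finset (V × Bool)) : Prop where
  inj : Function.Injective lits
  card : ∀ c, (lits c).card = k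
  dist : ∀ c, ∀ l ∈ lits c, ∀ l' ∈ lits c, l.1 = l'.1 → l = l'
  surj : ∀ s : Finset (V × Bool), s.card = k → (∀ l ∈ s, ∀ l' ∈ s, l.1 = l'.1 → l = l') →
    ∃ c, lits c = s

section
variable {V : Type} [Fintype V] {k : ℕ} {E : Type} {lits : E → Finset (V × Bool)}

/-- The variables of a clause. -/
noncomputable def cvars (lits : E → Finset (V × Bool)) (c : E) : Finset V :=
  (lits c).image Prod.fst

/-- The signs of the literals. -/
noncomputable def csgn (lits : E → Finset (V × Bool)) (c : E) (v : V) : Bool :=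
  decide ((v, true) ∈ lits c)

/-- Satisfaction. -/
def csat (lits : E → Finset (V × Bool)) (x : V → Bool) (c : E) : Prop :=
  ∃ l ∈ lits c, x l.1 = l.2

theorem cvars_card (H : IsCl k lits) (c : E) : (cvars lits c).card ≤ k := by
  unfold cvars
  exact card_image_le.trans (H.card c).le

theorem csat_of (H : IsCl k lits) (c : E) (v : V) (x : V → Bool)
    (hv : v ∈ cvars lits c) (hx : x v = csgn lits c v) : csat lits x c := by
  unfold cvars at hv
  rw [mem_image] at hv
  obtain ⟨⟨v', b⟩, hl, rfl⟩ := hv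
  simp only at hx ⊢
  refine ⟨(v', b), hl, ?_⟩
  simp only
  rw [hx]
  unfold csgn
  by_cases ht : (v', true) ∈ lits c
  · have := H.dist c _ hl _ ht rfl
    rw [Prod.mk.injEq] at this
    rw [this.2]
    simpa using ht
  · cases b
    · simpa using ht
    · exact (ht hl).elim

theorem csat_dep (c : E) (x y : V → Bool) (h : ∀ v ∈ cvars lits c, x v = y v)
    (hx : csat lits x c) : csat lits y c := by
  obtain ⟨l, hl, hxl⟩ := hx
  refine ⟨l, hl, ?_⟩
  rw [← h l.1 (mem_image_of_mem _ hl), hxl]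

variable [Fintype E]

theorem ccount (H : IsCl k lits) (W : Finset V) :
    (univ.filter fun c : E => cvars lits c ⊆ W).card ≤ (2 * W.card) ^ k := by
  have h1 : ((univ.filter fun c : E => cvars lits c ⊆ W).image fun c => lits c) ⊆
      powersetCard k (W ×ˢ (univ : Finset Bool)) := by
    intro c hc
    rw [mem_image] at hc
    obtain ⟨c, hc, rfl⟩ := hc
    rw [mem_filter] at hc
    rw [mem_powersetCard]
    refine ⟨?_, H.card c⟩
    intro l hl
    rw [mem_product]
    exact ⟨hc.2 (mem_image_of_mem _ hl), mem_univ _⟩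
  have h2 := card_le_card h1
  rw [card_image_of_injective _ H.inj, card_powersetCard, card_product,
    card_univ, Fintype.card_bool] at h2
  refine h2.trans ((Nat.choose_le_pow _ _).trans ?_)
  apply Nat.pow_le_pow_left
  omega

theorem card_Cl_le (H : IsCl k lits) : Fintype.card E ≤ (2 * Fintype.card V) ^ k := by
  have h := ccount H univ
  rw [filter_true_of_mem (fun _ _ => subset_univ _), card_univ, card_univ] at h
  exact h

/-- The number of clauses. -/
theorem le_card_Cl (H : IsCl k lits) (hk : 1 ≤ k) {n : ℕ} (hn : n = Fintype.card V)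
    (hkn : k ≤ n) : n ^ k ≤ k ^ k * Fintype.card E := by
  obtain ⟨b, hb⟩ : ∃ b, b = n / k := ⟨_, rfl⟩
  have hb1 : 1 ≤ b := by
    rw [hb, Nat.le_div_iff_mul_le (by omega)]
    omega
  have hbn : k * b ≤ n := by
    rw [hb]
    exact Nat.mul_div_le n k
  have hnb : n ≤ k * (2 * b) := by
    have h1 : n < k * (n / k) + k := by
      have := Nat.lt_mul_div_succ n (show 0 < k by omega)
      rw [Nat.mul_succ] at this
      exact this
    rw [← hb] at h1
    nlinarith
  obtain ⟨μ⟩ : Nonempty (Fin k × Fin b ↪ V) := by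
    apply Function.Embedding.nonempty_of_card_le
    rw [← hn]
    simpa using hbn
  have hinj0 : ∀ f : Fin k → Fin b × Bool, Function.Injective fun i : Fin k =>
      (μ (i, (f i).1), (f i).2) := by
    intro f i j hij
    simp only [Prod.mk.injEq, EmbeddingLike.apply_eq_iff_eq] at hij
    exact hij.1.1
  have hex : ∀ f : Fin k → Fin b × Bool, ∃ c : E,
      lits c = univ.image fun i : Fin k => (μ (i, (f i).1), (f i).2) := by
    intro f
    apply H.surj
    · rw [card_image_of_injective _ (hinj0 f), card_univ, Fintype.card_fin]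
    · intro l hl l' hl' h
      rw [mem_image] at hl hl'
      obtain ⟨i, -, rfl⟩ := hl
      obtain ⟨j, -, rfl⟩ := hl'
      simp only [EmbeddingLike.apply_eq_iff_eq, Prod.mk.injEq] at h
      rw [h.1]
  choose F hF using hex
  have hFinj : Function.Injective F := by
    intro f g hfg
    funext i
    have h1 : (μ (i, (f i).1), (f i).2) ∈ lits (F g) := by
      rw [← hfg, hF]
      exact mem_image_of_mem _ (mem_univ i)
    rw [hF] at h1
    simp only [mem_image, mem_univ, true_and, Prod.mk.injEq,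
      EmbeddingLike.apply_eq_iff_eq] at h1
    obtain ⟨j, ⟨h2, h3⟩, h4⟩ := h1
    subst h2
    exact Prod.ext h3.symm h4.symm
  have h1 := Fintype.card_le_of_injective F hFinj
  rw [Fintype.card_fun, Fintype.card_prod, Fintype.card_fin, Fintype.card_fin,
    Fintype.card_bool] at h1
  calc n ^ k ≤ (k * (2 * b)) ^ k := Nat.pow_le_pow_left hnb k
    _ = k ^ k * (b * 2) ^ k := by rw [mul_pow, mul_comm 2 b]
    _ ≤ k ^ k * Fintype.card E := Nat.mul_le_mul_left _ h1

theorem card_pos_of (H : IsCl k lits) (hk : 1 ≤ k) {n : ℕ} (hn : n = Fintype.card V)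
    (hkn : k ≤ n) : 0 < Fintype.card E := by
  have h := le_card_Cl H hk hn hkn
  have h1 : 0 < n ^ k := Nat.pow_pos (by omega)
  exact Nat.pos_of_mul_pos_left (lt_of_lt_of_le h1 h)

end

/-- The choice of the exponent `R`. -/
theorem params {n k w s M U : ℕ} (hk : 1 ≤ k) (hw : 1 ≤ w) (hs : s ≤ 2 ^ w)
    (hM : M ≤ (2 * n) ^ k) (hU : U ≤ (M + 1) ^ w) :
    2 ^ (k * w + 1) * ((3 * s + 1) * U) < 2 ^ ((3 * k + 5) * w * (Nat.log 2 n + 1)) := by
  obtain ⟨L, hL⟩ : ∃ L, L = Nat.log 2 n := ⟨_, rfl⟩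
  rw [← hL]
  have hUU : U ≤ 2 ^ (k * (L + 2) * w) := by
    refine hU.trans ?_
    rw [pow_mul]
    apply Nat.pow_le_pow_left
    have h1 : n < 2 ^ (L + 1) := hL ▸ Nat.lt_pow_succ_log_self (by norm_num) n
    have h2 : 2 * n + 1 ≤ 2 ^ (L + 2) := by
      rw [pow_succ]
      omega
    calc M + 1 ≤ (2 * n) ^ k + 1 ^ k := by
          rw [one_pow]
          exact Nat.add_le_add_right hM 1
      _ ≤ (2 * n + 1) ^ k := by
          have : k ≠ 0 := by omega
          exact pow_add_pow_le (by positivity) (by positivity) this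
      _ ≤ (2 ^ (L + 2)) ^ k := Nat.pow_le_pow_left h2 k
      _ = 2 ^ (k * (L + 2)) := by rw [← pow_mul, mul_comm]
  have h1 : 3 * s + 1 ≤ 2 ^ (w + 2) := by
    have : 1 ≤ 2 ^ w := Nat.one_le_two_pow
    rw [pow_add]
    omega
  calc 2 ^ (k * w + 1) * ((3 * s + 1) * U)
      ≤ 2 ^ (k * w + 1) * (2 ^ (w + 2) * 2 ^ (k * (L + 2) * w)) :=
        Nat.mul_le_mul_left _ (Nat.mul_le_mul h1 hUU)
    _ = 2 ^ (k * w + 1 + (w + 2 + k * (L + 2) * w)) := by rw [← pow_add, ← pow_add]
    _ < 2 ^ ((3 * k + 5) * w * (L + 1)) := by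
        apply Nat.pow_lt_pow_right (by norm_num)
        have e1 : (3 * k + 5) * w * (L + 1) =
          (k * w + (w + k * (L + 2) * w)) + (2 * (k * L * w) + 5 * (L * w) + 4 * w) := by ring
        rw [e1]
        omega

/-- The bound for the density. -/
theorem density {n k w m M R L D : ℕ} (hk : 1 ≤ k) (hkn : n ^ k ≤ k ^ k * M)
    (hm : m * (640 * (k + 1) * k * (3 * k + 5) * w ^ 3 * (L + 1)) ^ k ≤ n ^ (k - 1))
    (hR : R = (3 * k + 5) * w * (L + 1))
    (hD : D = 4 * n * (2 * ((k + 1) * w) * (10 * (R * w))) ^ k) : 8 * D * m ≤ M := by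
  have hkk : 0 < k ^ k := Nat.pow_pos (by omega)
  have h1 : 8 * D * m * k ^ k ≤ k ^ k * M := by
    refine le_trans ?_ hkn
    have e0 : n ^ k = n * n ^ (k - 1) := by
      rw [← pow_succ']
      congr 1
      omega
    rw [e0]
    refine le_trans ?_ (Nat.mul_le_mul_left _ hm)
    have e1 : 8 * D * m * k ^ k = n * (m *
        (32 * (2 * ((k + 1) * w) * (10 * (R * w)) * k) ^ k)) := by
      rw [hD, mul_pow (2 * ((k + 1) * w) * (10 * (R * w))) k k]
      ring
    rw [e1]
    apply Nat.mul_le_mul_left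
    apply Nat.mul_le_mul_left
    calc 32 * (2 * ((k + 1) * w) * (10 * (R * w)) * k) ^ k
        ≤ 32 ^ k * (2 * ((k + 1) * w) * (10 * (R * w)) * k) ^ k := by
          apply Nat.mul_le_mul_right
          exact Nat.le_self_pow (by omega) 32
      _ = (640 * (k + 1) * k * (3 * k + 5) * w ^ 3 * (L + 1)) ^ k := by
          rw [← mul_pow, hR]
          congr 1
          ring
  have h2 : k ^ k * (8 * D * m) ≤ k ^ k * M := by
    rw [mul_comm (k ^ k)]
    exact h1
  exact Nat.le_of_mul_le_mul_left h2 hkk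

section
variable {V : Type} [Fintype V] {n k : ℕ} {E : Type} {lits : E → Finset (V × Bool)} [Fintype E]
  {ι : Type} [Fintype ι]

/-- The structure theorem for random sequences of clauses. -/
theorem structure_Cl (H : IsCl k lits) (hk : 1 ≤ k) (hn : n = Fintype.card V) (hkn : k ≤ n) (w : ℕ) (hw : 1 ≤ w)
    (hm : Fintype.card ι * (640 * (k + 1) * k * (3 * k + 5) * w ^ 3 * (Nat.log 2 n + 1)) ^ k ≤
      n ^ (k - 1))
    (g : ℕ → Set E → Prop) (s : ℕ) (hg : IsSLP g s) (hs : s ≤ 2 ^ w)
    (o : Set E → Prop) (ho : Avail g s o)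
    (hsound : (univ.filter fun x : V → Bool => o {e | csat lits x e}).card *
      2 ^ (k * w + 1) ≤ 2 ^ n) :
    (univ.filter fun φ : ι → E => o (Set.range φ) ∧
      ∀ S : Finset E, S.card ≤ w → (∀ e ∈ S, ∃ i, φ i = e) →
        ∃ x, ∀ e ∈ S, csat lits x e).card * 2 ^ w ≤ s * Fintype.card E ^ Fintype.card ι := by
  obtain ⟨R, hRdef⟩ : ∃ R, R = (3 * k + 5) * w * (Nat.log 2 n + 1) := ⟨_, rfl⟩
  obtain ⟨D, hD⟩ : ∃ D, D = 4 * Fintype.card V *
    (2 * ((k + 1) * w) * (10 * (R * w))) ^ k := ⟨_, rfl⟩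
  have hR1 : 1 ≤ R := by
    rw [hRdef]
    exact Nat.mul_pos (Nat.mul_pos (by omega) (by omega)) (by omega)
  have : Nonempty V := Fintype.card_pos_iff.1 (by omega)
  have hM : 0 < Fintype.card E := card_pos_of H hk hn hkn
  have hMR : (0 : ℝ) < Fintype.card E := by exact_mod_cast hM
  have h8 : 8 * D * Fintype.card ι ≤ Fintype.card E :=
    density hk (le_card_Cl H hk hn hkn) hm hRdef (by rw [hD, ← hn])
  have h8R : 8 * (D : ℝ) * Fintype.card ι ≤ Fintype.card E := by exact_mod_cast h8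
  have hρ : 2 * (D : ℝ) * ((Fintype.card ι : ℝ) / Fintype.card E) ≤ 1 / 4 := by
    rw [← mul_div_assoc, div_le_iff₀ hMR]
    linarith
  have hRR : 2 ^ (k * w + 1) * ((3 * s + 1) * UU E w) < 2 ^ R := by
    rw [hRdef]
    exact params hk hw hs (hn ▸ card_Cl_le H) (UU_le E w)
  refine structure_slp (ι := ι) (sat := csat lits) (R := R) (w := w) (vars := cvars lits)
    (cvars_card H) csat_dep hw hM D
    (fun 𝒜 h𝒜 => fewMin (vars := cvars lits) (csgn lits) (cvars_card H) (csat_of H)
      (ccount H) hw hR1 D hD h𝒜)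
    hρ g s hg o ho hRR ?_
  rw [← hn]
  refine le_trans (Nat.mul_le_mul_right _ (card_le_card ?_)) hsound
  intro x hx
  simp only [mem_filter, mem_univ, true_and] at hx ⊢
  exact hx

/-- Small unsatisfiable subformulas are rare. -/
theorem small_Cl (H : IsCl k lits) (hk : 1 ≤ k) (hn : n = Fintype.card V) (hkn : k ≤ n) (w : ℕ) (hw : 1 ≤ w)
    (hm : Fintype.card ι * (640 * (k + 1) * k * (3 * k + 5) * w ^ 3 * (Nat.log 2 n + 1)) ^ k ≤
      n ^ (k - 1)) :
    3 * (n * (univ.filter fun φ : ι → E => ∃ S : Finset E, S.card ≤ w ∧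
      (∀ e ∈ S, ∃ i, φ i = e) ∧ ¬ ∃ x : V → Bool, ∀ e ∈ S, csat lits x e).card) ≤
      Fintype.card E ^ Fintype.card ι := by
  obtain ⟨R, hRdef⟩ : ∃ R, R = (3 * k + 5) * w * (Nat.log 2 n + 1) := ⟨_, rfl⟩
  obtain ⟨D, hD⟩ : ∃ D, D = 4 * n * (2 * ((k + 1) * w) * (10 * (R * w))) ^ k := ⟨_, rfl⟩
  have hR1 : 1 ≤ R := by
    rw [hRdef]
    exact Nat.mul_pos (Nat.mul_pos (by omega) (by omega)) (by omega)
  have : Nonempty V := Fintype.card_pos_iff.1 (by omega)
  have hM : 0 < Fintype.card E := card_pos_of H hk hn hkn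
  have hMR : (0 : ℝ) < Fintype.card E := by exact_mod_cast hM
  have h8 : 8 * D * Fintype.card ι ≤ Fintype.card E :=
    density hk (le_card_Cl H hk hn hkn) hm hRdef hD
  have h8R : 8 * (D : ℝ) * Fintype.card ι ≤ Fintype.card E := by exact_mod_cast h8
  have h := small_unsat (ι := ι) (sat := csat lits) (w := w) (vars := cvars lits) (csgn lits)
    (csat_of H) (ccount H) hM (by
      rw [← mul_div_assoc, div_le_iff₀ hMR]
      have h1 : 4 * (n * (2 * w) ^ k) ≤ D := by
        rw [hD, mul_assoc]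
        apply Nat.mul_le_mul_left
        apply Nat.mul_le_mul_left
        apply Nat.pow_le_pow_left
        calc 2 * w = 2 * (1 * w) * 1 := by ring
          _ ≤ 2 * ((k + 1) * w) * (10 * (R * w)) := by
              apply Nat.mul_le_mul
              · exact Nat.mul_le_mul_left _ (Nat.mul_le_mul_right _ (by omega))
              · exact Nat.mul_pos (by norm_num) (Nat.mul_pos (by omega) (by omega))
      have h2 : 4 * ((n : ℝ) * (2 * (w : ℝ)) ^ k) ≤ D := by exact_mod_cast h1
      rw [← hn]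
      have h3 : (0 : ℝ) ≤ Fintype.card ι := Nat.cast_nonneg _
      have h4 : (0 : ℝ) ≤ D := Nat.cast_nonneg _
      have h5 : 4 * ((n : ℝ) * (2 * (w : ℝ)) ^ k) * Fintype.card ι ≤ D * Fintype.card ι :=
        mul_le_mul_of_nonneg_right h2 h3
      have h6 : (0 : ℝ) ≤ D * Fintype.card ι := mul_nonneg h4 h3
      linarith)
  rw [← hn] at h
  exact h

end

end Pool.Agent.T9h16.Rand
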