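import Pool.Agent.T9h16.Rand.Moment

set_option autoImplicit false
set_option linter.unusedSectionVars false

namespace Pool.Agent.T9h16.Rand

open Finset
open scoped Classical

section
variable {V : Type} [Fintype V]

/-- Labels of the variables for which the average failure probability of a label is at most
`2 / 3`. -/
theorem exists_labels {α : Type} (𝒢 : Finset α) (hne : 𝒢.Nonempty) (Rf : α → Finset V)
    (σ : α → V → Bool) (u g : ℕ) (hg : 1 ≤ g) (hu : ∀ S ∈ 𝒢, (Rf S).card = u) (B : ℝ)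
    (hB : 0 < B) (hBg : 5 * (g * u) ≤ B)
    (hsp : ∀ S ∈ 𝒢, ∀ Z ⊆ Rf S, ((𝒢.filter fun S' => Z ⊆ Rf S').card : ℝ) * B ^ Z.card ≤
      2 * 𝒢.card) :
    ∃ ℓ : V → Fin g, (∑ i : Fin g, ((univ.filter fun x : V → Bool =>
      ∀ S ∈ 𝒢, ∃ v ∈ Rf S, ¬ (ℓ v = i ∧ x v = σ S v)).card : ℝ)) * 3 ≤
        2 * g * Fintype.card (V → Bool) := by
  by_contra hcon
  simp only [not_exists, not_le] at hcon
  have h1 : ∀ i : Fin g, (∑ ℓ : V → Fin g, ((univ.filter fun x : V → Bool =>
      ∀ S ∈ 𝒢, ∃ v ∈ Rf S, ¬ (ℓ v = i ∧ x v = σ S v)).card : ℝ)) * 3 ≤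
      2 * (Fintype.card (V → Fin g) * Fintype.card (V → Bool)) := by
    intro i
    have h2 := second_moment 𝒢 hne Rf σ u g hg hu B hB hBg hsp i
    have h3 : Fintype.card (V → Fin g × Bool) =
        Fintype.card (V → Fin g) * Fintype.card (V → Bool) := by
      rw [← Fintype.card_prod]
      exact Fintype.card_congr (Equiv.arrowProdEquivProdArrow V (fun _ => Fin g) (fun _ => Bool))
    rw [h3] at h2
    push_cast at h2
    refine le_trans (le_of_eq ?_) h2
    congr 1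
    rw [← Nat.cast_sum]
    congr 1
    have h4 : (∑ ℓ : V → Fin g, (univ.filter fun x : V → Bool =>
        ∀ S ∈ 𝒢, ∃ v ∈ Rf S, ¬ (ℓ v = i ∧ x v = σ S v)).card) =
        (univ.filter fun q : (V → Fin g) × (V → Bool) =>
          ∀ S ∈ 𝒢, ∃ v ∈ Rf S, ¬ (q.1 v = i ∧ q.2 v = σ S v)).card := by
      rw [card_filter, ← univ_product_univ, sum_product]
      apply sum_congr rfl
      intro ℓ _
      rw [card_filter]
    rw [h4]
    refine (card_bij' (fun ω _ => (fun v => (ω v).1, fun v => (ω v).2))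
      (fun q _ v => (q.1 v, q.2 v)) ?_ ?_ ?_ ?_).symm
    · intro ω hω
      rw [mem_filter] at hω ⊢
      refine ⟨mem_univ _, fun S hS => ?_⟩
      obtain ⟨v, hv, h5⟩ := hω.2 S hS
      refine ⟨v, hv, fun h6 => h5 (Prod.ext h6.1 h6.2)⟩
    · intro q hq
      rw [mem_filter] at hq ⊢
      refine ⟨mem_univ _, fun S hS => ?_⟩
      obtain ⟨v, hv, h5⟩ := hq.2 S hS
      refine ⟨v, hv, fun h6 => h5 ?_⟩
      simp only [Prod.mk.injEq] at h6
      exact h6
    · intro ω _
      rfl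
    · intro q _
      rfl
  have h2 : (∑ ℓ : V → Fin g, ∑ i : Fin g, ((univ.filter fun x : V → Bool =>
      ∀ S ∈ 𝒢, ∃ v ∈ Rf S, ¬ (ℓ v = i ∧ x v = σ S v)).card : ℝ)) * 3 ≤
      g * (2 * (Fintype.card (V → Fin g) * Fintype.card (V → Bool))) := by
    rw [sum_comm, sum_mul]
    refine (sum_le_sum fun i _ => h1 i).trans (le_of_eq ?_)
    rw [sum_const, card_univ, Fintype.card_fin, nsmul_eq_mul]
  have hF0 : 0 < Fintype.card (V → Fin g) := by
    rw [Fintype.card_fun, Fintype.card_fin]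
    exact Nat.pow_pos hg
  have hne2 : (univ : Finset (V → Fin g)).Nonempty := by
    rw [← card_pos, card_univ]; exact hF0
  have h3 : (Fintype.card (V → Fin g) : ℝ) * (2 * g * Fintype.card (V → Bool)) <
      (∑ ℓ : V → Fin g, ∑ i : Fin g, ((univ.filter fun x : V → Bool =>
      ∀ S ∈ 𝒢, ∃ v ∈ Rf S, ¬ (ℓ v = i ∧ x v = σ S v)).card : ℝ)) * 3 := by
    rw [sum_mul]
    calc (Fintype.card (V → Fin g) : ℝ) * (2 * g * Fintype.card (V → Bool))
        = ∑ _ℓ : V → Fin g, 2 * (g : ℝ) * Fintype.card (V → Bool) := by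
          rw [sum_const, card_univ, nsmul_eq_mul]
      _ < _ := sum_lt_sum_of_nonempty hne2 fun ℓ _ => hcon ℓ
  linarith

/-- The events of different labels are independent. -/
theorem prod_labels {g : ℕ} (ℓ : V → Fin g) (P : Fin g → (V → Bool) → Prop)
    (hP : ∀ i x x', (∀ v, ℓ v = i → x v = x' v) → P i x → P i x') (Q₀ : (V → Bool) → Prop)
    (hQ₀ : ∀ x, Q₀ x ↔ ∀ i, P i x) :
    ((univ.filter Q₀).card : ℝ) / Fintype.card (V → Bool) =
      ∏ i : Fin g, (((univ.filter (P i)).card : ℝ) / Fintype.card (V → Bool)) := by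
  obtain ⟨N, hN⟩ : ∃ N : ℝ, N = (Fintype.card (V → Bool) : ℝ) := ⟨_, rfl⟩
  have hN0 : 0 < N := by
    rw [hN]
    exact_mod_cast Fintype.card_pos
  set p : ℕ → ℝ := fun m => if h : m < g then ((univ.filter (P ⟨m, h⟩)).card : ℝ) / N else 1
    with hp
  have key : ∀ m ≤ g, ∀ Q : (V → Bool) → Prop, (∀ x, Q x ↔ ∀ i : Fin g, i.val < m → P i x) →
      ((univ.filter Q).card : ℝ) / N = ∏ j ∈ range m, p j := by
    intro m
    induction m with
    | zero =>
      intro _ Q hQ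
      have h1 : univ.filter Q = univ := by
        ext x
        simp [hQ]
      rw [h1, card_univ, ← hN, div_self hN0.ne', range_zero, prod_empty]
    | succ m ih =>
      intro hm Q hQ
      obtain ⟨Q', hQ'⟩ : ∃ Q' : (V → Bool) → Prop, ∀ x, Q' x ↔ ∀ i : Fin g, i.val < m → P i x :=
        ⟨_, fun _ => Iff.rfl⟩
      have ih' := ih (by omega) Q' hQ'
      have hind := indep (univ.filter fun v => ℓ v = ⟨m, by omega⟩) (P ⟨m, by omega⟩) Q' (by
          intro x x' hag
          apply hP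
          intro v hv
          exact hag v (by rw [mem_filter]; exact ⟨mem_univ _, hv⟩)) (by
          intro x x' hag hx
          rw [hQ'] at hx ⊢
          intro i hi
          refine hP i x x' (fun v hv => hag v ?_) (hx i hi)
          rw [mem_filter, not_and]
          intro _ h
          rw [hv] at h
          rw [h] at hi
          simp at hi)
      have hfil : univ.filter Q = univ.filter fun x => Q' x ∧ P ⟨m, by omega⟩ x := by
        ext x
        rw [mem_filter, mem_filter, hQ, hQ']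
        constructor
        · rintro ⟨_, h⟩
          exact ⟨mem_univ _, fun i hi => h i (by omega), h _ (by simp)⟩
        · rintro ⟨_, h1, h2⟩
          refine ⟨mem_univ _, fun i hi => ?_⟩
          rcases Nat.lt_succ_iff_lt_or_eq.1 hi with h | h
          · exact h1 i h
          · have : i = ⟨m, by omega⟩ := Fin.ext h
            rw [this]
            exact h2
      rw [prod_range_succ, ← ih', hfil, hp]
      simp only
      rw [dif_pos (by omega)]
      have h3 : ((univ.filter fun x => Q' x ∧ P ⟨m, by omega⟩ x).card : ℝ) * N =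
          ((univ.filter Q').card : ℝ) * ((univ.filter (P ⟨m, by omega⟩)).card : ℝ) := by
        rw [hN]
        exact_mod_cast hind
      rw [div_mul_div_comm, ← h3]
      field_simp
  rw [← hN, key g le_rfl Q₀ (fun x => (hQ₀ x).trans ⟨fun h i _ => h i, fun h i => h i i.isLt⟩),
    prod_range]
  apply prod_congr rfl
  intro i _
  rw [hp]
  simp only
  rw [dif_pos i.isLt]

/-- A product of numbers of average at most `c` is at most `c ^ g`. -/
theorem prod_le_of_sum {g : ℕ} (μ : Fin g → ℝ) (hμ : ∀ i, 0 ≤ μ i) (c : ℝ) (hc : 0 < c)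
    (hsum : ∑ i, μ i ≤ c * g) : ∏ i, μ i ≤ c ^ g := by
  have h1 : ∀ i, μ i ≤ c * Real.exp (μ i / c - 1) := by
    intro i
    have h2 := Real.add_one_le_exp (μ i / c - 1)
    have h3 : μ i / c ≤ Real.exp (μ i / c - 1) := by linarith
    rw [div_le_iff₀ hc] at h3
    linarith
  calc ∏ i, μ i ≤ ∏ i, c * Real.exp (μ i / c - 1) := prod_le_prod (fun i _ => hμ i) fun i _ => h1 i
    _ = c ^ g * Real.exp (∑ i, (μ i / c - 1)) := by
        rw [prod_mul_distrib, prod_const, card_univ, Fintype.card_fin, Real.exp_sum]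
    _ ≤ c ^ g * 1 := by
        apply mul_le_mul_of_nonneg_left _ (by positivity)
        rw [Real.exp_le_one_iff, sum_sub_distrib, sum_const, card_univ, Fintype.card_fin,
          nsmul_eq_mul, mul_one, ← sum_div, sub_nonpos, div_le_iff₀ hc]
        linarith
    _ = c ^ g := mul_one _

/-- **Robust cover.** A random assignment extends no partial assignment of a spread family only
with exponentially small probability. -/
theorem cover {α : Type} (𝒢 : Finset α) (hne : 𝒢.Nonempty) (Rf : α → Finset V)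
    (σ : α → V → Bool) (u r : ℕ) (hr : 1 ≤ r) (hu : ∀ S ∈ 𝒢, (Rf S).card = u) (B : ℝ)
    (hB : 0 < B) (hBg : 10 * (r * u) ≤ B)
    (hsp : ∀ S ∈ 𝒢, ∀ Z ⊆ Rf S, ((𝒢.filter fun S' => Z ⊆ Rf S').card : ℝ) * B ^ Z.card ≤
      2 * 𝒢.card) :
    (univ.filter fun x : V → Bool => ∀ S ∈ 𝒢, ∃ v ∈ Rf S, x v ≠ σ S v).card * 2 ^ r ≤
      2 ^ Fintype.card V := by
  obtain ⟨ℓ, hℓ⟩ := exists_labels 𝒢 hne Rf σ u (2 * r) (by omega) hu B hB
    (by push_cast; linarith) hsp
  obtain ⟨P, hP⟩ : ∃ P : Fin (2 * r) → (V → Bool) → Prop, ∀ i x, P i x ↔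
    ∀ S ∈ 𝒢, ∃ v ∈ Rf S, ¬ (ℓ v = i ∧ x v = σ S v) := ⟨_, fun _ _ => Iff.rfl⟩
  have hPc : ∀ i, (univ.filter (P i)).card = (univ.filter fun x : V → Bool =>
      ∀ S ∈ 𝒢, ∃ v ∈ Rf S, ¬ (ℓ v = i ∧ x v = σ S v)).card := by
    intro i
    apply congrArg
    ext x
    simp only [mem_filter, hP]
  simp only [← hPc] at hℓ
  have h1 := prod_labels ℓ P (by
    intro i x x' hag hx
    rw [hP] at hx ⊢
    intro S hS
    obtain ⟨v, hv, h2⟩ := hx S hS
    refine ⟨v, hv, fun h3 => h2 ⟨h3.1, ?_⟩⟩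
    rw [hag v h3.1]
    exact h3.2)
  obtain ⟨Q, hQ⟩ : ∃ Q : (V → Bool) → Prop, ∀ x, Q x ↔ ∀ i, P i x := ⟨_, fun _ => Iff.rfl⟩
  replace h1 := h1 Q hQ
  obtain ⟨N, hN⟩ : ∃ N : ℝ, N = (Fintype.card (V → Bool) : ℝ) := ⟨_, rfl⟩
  have hN0 : 0 < N := by
    rw [hN]
    exact_mod_cast Fintype.card_pos
  rw [← hN] at h1 hℓ
  have h2 : ∏ i : Fin (2 * r), (((univ.filter (P i)).card : ℝ) / N) ≤ (2 / 3) ^ (2 * r) := by
    apply prod_le_of_sum _ (fun i => by positivity) _ (by norm_num)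
    rw [← sum_div, div_le_iff₀ hN0]
    push_cast at hℓ ⊢
    linarith
  have h3 : (univ.filter fun x : V → Bool => ∀ S ∈ 𝒢, ∃ v ∈ Rf S, x v ≠ σ S v) ⊆
      univ.filter Q := by
    intro x hx
    rw [mem_filter] at hx ⊢
    refine ⟨mem_univ _, (hQ x).2 fun i => (hP i x).2 fun S hS => ?_⟩
    obtain ⟨v, hv, h4⟩ := hx.2 S hS
    exact ⟨v, hv, fun h5 => h4 h5.2⟩
  have h4 : ((univ.filter fun x : V → Bool => ∀ S ∈ 𝒢, ∃ v ∈ Rf S, x v ≠ σ S v).card : ℝ) ≤
      (univ.filter Q).card := by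
    exact_mod_cast card_le_card h3
  have h2' : ((univ.filter Q).card : ℝ) / N ≤ (2 / 3) ^ (2 * r) := h1.le.trans h2
  rw [div_le_iff₀ hN0] at h2'
  have h5 : (2 / 3 : ℝ) ^ (2 * r) * 2 ^ r ≤ 1 := by
    rw [pow_mul, ← mul_pow]
    apply pow_le_one₀ <;> norm_num
  have h6 : ((univ.filter fun x : V → Bool => ∀ S ∈ 𝒢, ∃ v ∈ Rf S, x v ≠ σ S v).card : ℝ) * 2 ^ r
      ≤ N := by
    calc ((univ.filter fun x : V → Bool => ∀ S ∈ 𝒢, ∃ v ∈ Rf S, x v ≠ σ S v).card : ℝ) * 2 ^ r
        ≤ ((2 / 3) ^ (2 * r) * N) * 2 ^ r :=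
          mul_le_mul_of_nonneg_right (h4.trans h2') (by positivity)
      _ = ((2 / 3 : ℝ) ^ (2 * r) * 2 ^ r) * N := by ring
      _ ≤ 1 * N := mul_le_mul_of_nonneg_right h5 hN0.le
      _ = N := one_mul _
  have h7 : N = ((2 ^ Fintype.card V : ℕ) : ℝ) := by
    rw [hN, Fintype.card_fun, Fintype.card_bool]
  rw [h7] at h6
  exact_mod_cast h6

end

end Pool.Agent.T9h16.Rand
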