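import Mathlib

/-!
Definitions: clauses with `k` literals, monotone circuits.
-/

set_option autoImplicit false

namespace Pool.Agent.T9h16.Rand

/-- A clause with `k` literals on `k` distinct variables among `n` variables; the literal `(v, b)`
is true if the variable `v` has the value `b`. -/
structure Clause (n k : ℕ) where
  lits : Finset (Fin n × Bool)
  card_lits : lits.card = k
  distinct : ∀ l ∈ lits, ∀ l' ∈ lits, l.1 = l'.1 → l = l'

/-- The assignment `x` satisfies the clause `c`. -/
def Sat {n k : ℕ} (x : Fin n → Bool) (c : Clause n k) : Prop := ∃ l ∈ c.lits, x l.1 = l.2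

/-- A set of clauses is satisfiable. -/
def Satisfiable {n k : ℕ} (F : Set (Clause n k)) : Prop := ∃ x : Fin n → Bool, ∀ c ∈ F, Sat x c

/-- A source of a gate of a circuit with inputs in `Λ` and `s` gates: an input, a constant or a
gate. -/
inductive Source (Λ : Type) (s : ℕ)
  | input (c : Λ)
  | const (b : Bool)
  | gate (j : Fin s)

/-- A monotone Boolean circuit with inputs in `Λ` and gates `0, ..., size - 1`: gate `i` is an AND
gate if `isAnd i = true` and an OR gate otherwise; it reads `left i` and `right i`, which are inputs,
constants or gates of smaller number; `out` is the output. -/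
structure MonoCircuit (Λ : Type) where
  size : ℕ
  isAnd : Fin size → Bool
  left : Fin size → Source Λ size
  right : Fin size → Source Λ size
  out : Source Λ size
  acyclic : ∀ i j, (left i = Source.gate j → j < i) ∧ (right i = Source.gate j → j < i)

/-- The value of a source if exactly the inputs in `F` are true and `v` lists the values of the
gates. -/
def value {Λ : Type} {s : ℕ} (F : Set Λ) (v : Fin s → Prop) : Source Λ s → Prop
  | Source.input c => c ∈ F
  | Source.const b => b = true
  | Source.gate j => v j

/-- `v` lists the values of the gates if exactly the inputs in `F` are true. -/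
def Run {Λ : Type} (D : MonoCircuit Λ) (F : Set Λ) (v : Fin D.size → Prop) : Prop :=
  ∀ i, v i ↔ if D.isAnd i = true then (value F v (D.left i) ∧ value F v (D.right i))
    else (value F v (D.left i) ∨ value F v (D.right i))

/-- The circuit `D` accepts the set `F`: the output is true if exactly the inputs in `F` are
true. -/
def Accepts {Λ : Type} (D : MonoCircuit Λ) (F : Set Λ) : Prop :=
  ∃ v, Run D F v ∧ value F v D.out

end Pool.Agent.T9h16.Rand
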