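import Pool.Agent.T9h16.Rand.Upper

/-!
The two sides together.
-/

set_option autoImplicit false
set_option linter.unusedSectionVars false

namespace Pool.Agent.T9h16.Rand

/-- The constant of the upper bound. -/
theorem const_le {K k : ℕ} (hK : 128 ≤ K) (hk : 2 ≤ k) :
    64 * 2 ^ k * ((k - 2) ^ (k - 2) * (k - 2).factorial) ≤ (K * k) ^ (2 * k) := by
  have h1 : (k - 2) ^ (k - 2) ≤ k ^ k :=
    (Nat.pow_le_pow_left (by omega) _).trans (Nat.pow_le_pow_right (by omega) (by omega))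
  have h2 : (k - 2).factorial ≤ k ^ k :=
    (Nat.factorial_le (by omega)).trans (Nat.factorial_le_pow k)
  calc 64 * 2 ^ k * ((k - 2) ^ (k - 2) * (k - 2).factorial)
      ≤ 64 ^ k * 2 ^ k * (k ^ k * k ^ k) := by
        apply Nat.mul_le_mul
        · exact Nat.mul_le_mul_right _ (Nat.le_self_pow (by omega) _)
        · exact Nat.mul_le_mul h1 h2
    _ = 128 ^ k * k ^ (2 * k) := by
        rw [← mul_pow, two_mul, pow_add]
        norm_num
    _ ≤ K ^ (2 * k) * k ^ (2 * k) := by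
        apply Nat.mul_le_mul_right
        exact (Nat.pow_le_pow_left hK k).trans (Nat.pow_le_pow_right (by omega) (by omega))
    _ = (K * k) ^ (2 * k) := by rw [← mul_pow]

/-- The refuters, with an absolute constant. -/
theorem upper' {K : ℕ} (hK : 128 ≤ K) {k n m t : ℕ} (hk : 2 ≤ k) (hn : 4 ≤ n) (hkt : k - 2 ≤ t)
    (ht : 2 * t ≤ n) (h : (K * k) ^ (2 * k) * n ^ (k - 1) ≤ m * t ^ (k - 2)) :
    ∃ D : MonoCircuit (Clause n k), D.size ≤ 2 ^ t * (n + 1) ^ (K * k) ∧
      (∀ F, Accepts D F → ¬ Satisfiable F) ∧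
      {φ : Fin m → Clause n k | ¬ Accepts D (Set.range φ)}.ncard * 2 ^ n ≤
        Nat.card (Fin m → Clause n k) := by
  obtain ⟨D, h1, h2, h3⟩ := upper (n := n) (k := k) (t := t) hk (m := m) hkt ht hn
    ((Nat.mul_le_mul_right _ (const_le hK hk)).trans h)
  refine ⟨D, h1.trans (Nat.mul_le_mul_left _ ?_), h2, h3⟩
  apply Nat.pow_le_pow_right (by omega)
  nlinarith

end Pool.Agent.T9h16.Rand
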