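import Pool.Agent.T9h16.Rand.Final
import Pool.Agent.T9h16.Rand.Bool

/-!
The four parts, for Boolean circuits with AND, OR and NOT gates.
-/

set_option autoImplicit false
set_option linter.unusedSectionVars false

namespace Pool.Agent.T9h16.Rand

open scoped Classical
open Pool.Agent.LN (Circuit)

variable {k n m : ℕ}

/-- The number of assignments `x` for which the circuit wrongly accepts the set of all clauses that
`x` satisfies. -/
noncomputable def errs (C : Circuit (Clause n k)) : ℕ :=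
  {x : Fin n → Bool | Acc' C {c | Sat x c}}.ncard

theorem part1 {K : ℕ} (hK : 655360 ≤ K) (hk : 2 ≤ k) {w : ℕ} (hw : 1 ≤ w)
    (hm : m * (K * k ^ 3 * w ^ 3 * (Nat.log 2 n + 1)) ^ k ≤ n ^ (k - 1))
    (C : Circuit (Clause n k)) (hC : C.nots = 0) (hs : C.size ≤ 2 ^ w)
    (hsound : errs C * 2 ^ (k * w + 1) ≤ 2 ^ n) :
    {φ : Fin m → Clause n k | Acc' C (Set.range φ) ∧
      ∀ S : Finset (Clause n k), S.card ≤ w → (S : Set (Clause n k)) ⊆ Set.range φ →
        Satisfiable (S : Set (Clause n k))}.ncard * 2 ^ w ≤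
      C.size * Nat.card (Fin m → Clause n k) := by
  obtain ⟨D, hD, hacc⟩ := exists_mono C hC
  have h := (lower hK (k := k) (by omega)).1 n m w hw hm D (hD.trans hs) (by
    unfold errs at hsound
    simpa only [hacc] using hsound)
  refine le_trans ?_ (h.trans (Nat.mul_le_mul_right _ hD))
  apply le_of_eq
  congr 2
  ext φ
  rw [Set.mem_ofPred_eq, Set.mem_ofPred_eq, hacc]
  exact Iff.rfl

theorem part2 {K : ℕ} (hK : 655360 ≤ K) (hk : 2 ≤ k) {s q : ℕ}
    (hm : m * (K * k ^ 3 * (Nat.log 2 (n + s + q) + 1) ^ 3 * (Nat.log 2 n + 1)) ^ k ≤ n ^ (k - 1))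
    (U : Type) [Fintype U] (C : U → Circuit (Clause n k)) (hU : Fintype.card U ≤ q)
    (hC : ∀ u, (C u).nots = 0 ∧ (C u).size ≤ s ∧ errs (C u) * (n + s + q) ^ (K * k) ≤ 2 ^ n) :
    {φ : Fin m → Clause n k | ∃ u, Acc' (C u) (Set.range φ)}.ncard * n ≤
      Nat.card (Fin m → Clause n k) := by
  choose D hD hacc using fun u => exists_mono (C u) (hC u).1
  have h := (lower hK (k := k) (by omega)).2 n m s q hm U D hU
    (fun u => (hD u).trans (hC u).2.1) (fun u => by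
      have h1 := (hC u).2.2
      unfold errs at h1
      rw [mul_comm]
      simpa only [hacc] using h1)
  rw [mul_comm]
  simpa only [hacc] using h

theorem part3 {K : ℕ} (hK : 128 ≤ K) (hk : 2 ≤ k) {t : ℕ} (hn : 4 ≤ n) (hkt : k - 2 ≤ t)
    (ht : 2 * t ≤ n) (h : (K * k) ^ (2 * k) * n ^ (k - 1) ≤ m * t ^ (k - 2)) :
    ∃ C : Circuit (Clause n k), C.nots = 0 ∧ C.size ≤ 2 ^ t * (n + 1) ^ (K * k) ∧
      (∀ F : Set (Clause n k), Satisfiable F → ¬ Acc' C F) ∧
      {φ : Fin m → Clause n k | ¬ Acc' C (Set.range φ)}.ncard * 2 ^ n ≤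
        Nat.card (Fin m → Clause n k) := by
  obtain ⟨D, h1, h2, h3⟩ := upper' hK hk hn hkt ht h
  obtain ⟨C, hC1, hC2, hC3⟩ := exists_bool D
  refine ⟨C, hC2, hC1.trans h1, fun F hF hacc => h2 F ((hC3 F).1 hacc) hF, ?_⟩
  simpa only [hC3] using h3

theorem part4 (C : Circuit (Clause n k)) :
    ∃ C' : Circuit (Clause n k), C'.nots ≤ 1 ∧
      C'.size ≤ 2 * C.size + 10 * (Nat.card (Clause n k) + 1) ^ 3 ∧
      (∀ F : Set (Clause n k), Acc' C' F → Acc' C F) ∧
      {φ : Fin m → Clause n k | Acc' C (Set.range φ) ∧ ¬ Acc' C' (Set.range φ)}.ncard *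
        (2 * Nat.card (Clause n k)) ≤ m ^ 2 * Nat.card (Fin m → Clause n k) := by
  obtain ⟨C', h1, h2, h3⟩ := exists_one_not C m
  rw [Nat.card_eq_fintype_card (α := Clause n k)]
  refine ⟨C', h2, h1, fun F hF => ((h3 F).1 hF).1, ?_⟩
  refine le_trans (Nat.mul_le_mul_right _ (Set.ncard_le_ncard ?_ (Set.toFinite _)))
    (not_distinct m)
  rintro φ ⟨h4, h5⟩ h6
  exact h5 ((h3 _).2 ⟨h4, h6⟩)

end Pool.Agent.T9h16.Rand
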