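import Pool.Agent.T9h16.Rand.Cover

/-!
The counting lemma for families of sets of constraints: a large family has a proper core such that
a random assignment satisfies the rest of some member of the family.
-/

set_option autoImplicit false
set_option linter.unusedSectionVars false

namespace Pool.Agent.T9h16.Rand

open Finset
open scoped Classical

section
variable {V E : Type} [Fintype V] [Fintype E]

/-- The variables of a set of constraints. -/
noncomputable def VS (vars : E → Finset V) (S : Finset E) : Finset V := S.biUnion vars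

variable {vars : E → Finset V}

theorem VS_mono {S T : Finset E} (h : S ⊆ T) : VS vars S ⊆ VS vars T :=
  biUnion_subset_biUnion_of_subset_left _ h

theorem VS_union (S T : Finset E) : VS vars (S ∪ T) = VS vars S ∪ VS vars T := by
  unfold VS
  exact union_biUnion

theorem mem_VS {S : Finset E} {v : V} : v ∈ VS vars S ↔ ∃ e ∈ S, v ∈ vars e := mem_biUnion

theorem card_VS_le {k : ℕ} (hk : ∀ e, (vars e).card ≤ k) (S : Finset E) :
    (VS vars S).card ≤ k * S.card := by
  unfold VS
  rw [mul_comm]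
  exact card_biUnion_le_card_mul _ _ _ fun e _ => hk e

/-- A small set is contained in the range of a function. -/
theorem exists_range [Nonempty V] (U : Finset V) (m : ℕ) (h : U.card ≤ m) :
    ∃ f : Fin m → V, U ⊆ univ.image f := by
  obtain ⟨d⟩ := ‹Nonempty V›
  refine ⟨fun i => if hi : i.val < U.card then (U.equivFin.symm ⟨i.val, hi⟩).1 else d, ?_⟩
  intro v hv
  rw [mem_image]
  refine ⟨⟨(U.equivFin ⟨v, hv⟩).val, lt_of_lt_of_le (U.equivFin ⟨v, hv⟩).isLt h⟩, mem_univ _, ?_⟩
  simp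

/-- The number of sets of `q` constraints with fewer than `q` variables outside `K`. -/
theorem card_viol [Nonempty V] {k : ℕ}
    (hcount : ∀ W : Finset V, (univ.filter fun e => vars e ⊆ W).card ≤ (2 * W.card) ^ k)
    (K : Finset V) (N q : ℕ) (hN : K.card + q ≤ N) (hq : 1 ≤ q) :
    (univ.filter fun Q : Finset E => Q.card = q ∧ (VS vars Q \ K).card < q).card ≤
      Fintype.card V ^ (q - 1) * ((2 * N) ^ k) ^ q := by
  have hsub : (univ.filter fun Q : Finset E => Q.card = q ∧ (VS vars Q \ K).card < q) ⊆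
      (univ : Finset (Fin (q - 1) → V)).biUnion fun f =>
        powersetCard q (univ.filter fun e => vars e ⊆ K ∪ univ.image f) := by
    intro Q hQ
    rw [mem_filter] at hQ
    obtain ⟨f, hf⟩ := exists_range (VS vars Q \ K) (q - 1) (by omega)
    rw [mem_biUnion]
    refine ⟨f, mem_univ _, ?_⟩
    rw [mem_powersetCard]
    refine ⟨?_, hQ.2.1⟩
    intro e he
    rw [mem_filter]
    refine ⟨mem_univ _, ?_⟩
    intro v hv
    rw [mem_union]
    by_cases hvK : v ∈ K
    · exact Or.inl hvK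
    · right
      apply hf
      rw [mem_sdiff]
      exact ⟨mem_VS.2 ⟨e, he, hv⟩, hvK⟩
  refine (card_le_card hsub).trans (card_biUnion_le.trans ?_)
  have h1 : ∀ f ∈ (univ : Finset (Fin (q - 1) → V)),
      (powersetCard q (univ.filter fun e => vars e ⊆ K ∪ univ.image f)).card ≤
        ((2 * N) ^ k) ^ q := by
    intro f _
    rw [card_powersetCard]
    refine (Nat.choose_le_pow _ _).trans ?_
    apply Nat.pow_le_pow_left
    refine (hcount _).trans ?_
    apply Nat.pow_le_pow_left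
    apply Nat.mul_le_mul_left
    have h2 : (K ∪ univ.image f).card ≤ K.card + (q - 1) := by
      refine (card_union_le _ _).trans ?_
      apply Nat.add_le_add_left
      refine card_image_le.trans ?_
      rw [card_univ, Fintype.card_fin]
    omega
  refine (sum_le_card_nsmul _ _ _ h1).trans (le_of_eq ?_)
  rw [card_univ, Fintype.card_fun, Fintype.card_fin, smul_eq_mul]

/-- Hall's theorem outside `K`. -/
theorem exists_rep_or_viol [Nonempty V] (U : Finset E) (K : Finset V) :
    (∃ rep : E → V, (∀ e ∈ U, rep e ∈ vars e ∧ rep e ∉ K) ∧ Set.InjOn rep (U : Set E)) ∨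
      ∃ Q ⊆ U, (VS vars Q \ K).card < Q.card := by
  by_cases h : ∀ s : Finset {e // e ∈ U}, s.card ≤ (s.biUnion fun e => vars e.1 \ K).card
  · left
    obtain ⟨f, hf1, hf2⟩ := (Finset.all_card_le_biUnion_card_iff_exists_injective _).1 h
    rcases U.eq_empty_or_nonempty with hU | ⟨e₀, he₀⟩
    · obtain ⟨d⟩ := ‹Nonempty V›
      exact ⟨fun _ => d, by simp [hU], by simp [hU]⟩
    · refine ⟨fun e => if he : e ∈ U then f ⟨e, he⟩ else f ⟨e₀, he₀⟩, ?_, ?_⟩
      · intro e he
        simp only [dif_pos he]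
        exact mem_sdiff.1 (hf2 ⟨e, he⟩)
      · intro e he e' he' hee
        simp only [mem_coe] at he he'
        simp only [dif_pos he, dif_pos he'] at hee
        have := hf1 hee
        simpa using this
  · right
    simp only [not_forall, not_le] at h
    obtain ⟨s, hs⟩ := h
    refine ⟨s.map (Function.Embedding.subtype _), ?_, ?_⟩
    · intro e he
      rw [mem_map] at he
      obtain ⟨e', _, rfl⟩ := he
      exact e'.2
    · rw [card_map]
      refine lt_of_le_of_lt (card_le_card ?_) hs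
      intro v hv
      rw [mem_sdiff, mem_VS] at hv
      obtain ⟨⟨e, he, hve⟩, hvK⟩ := hv
      rw [mem_map] at he
      obtain ⟨e', he', rfl⟩ := he
      rw [mem_biUnion]
      exact ⟨e', he', mem_sdiff.2 ⟨hve, hvK⟩⟩

/-- The number of violators weighted by their frequency. -/
theorem geo_quarter (n : ℕ) : ∑ q ∈ Finset.range n, (1 / 4 : ℝ) ^ (q + 1) ≤ 1 / 3 := by
  have h : ∑ q ∈ Finset.range n, (1 / 4 : ℝ) ^ (q + 1) = (1 - (1 / 4) ^ n) / 3 := by
    induction n with
    | zero => simp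
    | succ n ih =>
      rw [Finset.sum_range_succ, ih]
      ring
  rw [h]
  have : (0 : ℝ) ≤ (1 / 4 : ℝ) ^ n := by positivity
  linarith

/-- **The counting lemma.** -/
theorem kernel [Nonempty V] {k : ℕ} (sgn : E → V → Bool) (sat : (V → Bool) → E → Prop)
    (hk : ∀ e, (vars e).card ≤ k)
    (hsat : ∀ e v x, v ∈ vars e → x v = sgn e v → sat x e)
    (hcount : ∀ W : Finset V, (univ.filter fun e => vars e ⊆ W).card ≤ (2 * W.card) ^ k)
    (w R : ℕ) (hw1 : 1 ≤ w) (hR : 1 ≤ R) (D : ℕ)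
    (hD : D = 4 * Fintype.card V * (2 * ((k + 1) * w) * (10 * (R * w))) ^ k)
    (𝒜 : Finset (Finset E)) (I : Finset E) (j : ℕ) (hI : ∀ S ∈ 𝒜, I ⊆ S)
    (hj : ∀ S ∈ 𝒜, S.card = I.card + j) (hw : ∀ S ∈ 𝒜, S.card ≤ w) (hcard : D ^ j < 𝒜.card) :
    ∃ T : Finset E, (∃ S ∈ 𝒜, T ⊂ S) ∧
      (univ.filter fun x : V → Bool => ∀ S ∈ 𝒜, ∃ e ∈ S, e ∉ T ∧ ¬ sat x e).card * 2 ^ R ≤
        2 ^ Fintype.card V := by
  set B := 10 * (R * w) with hB
  have hB0 : 0 < B := by positivity
  have hV0 : 0 < Fintype.card V := Fintype.card_pos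
  have hD0 : 0 < D := by rw [hD]; positivity
  set F : Finset V × Finset E → ℕ := fun p =>
    (𝒜.filter fun S => p.2 ⊆ S ∧ p.1 ⊆ VS vars S).card * B ^ (p.1 \ VS vars p.2).card *
      D ^ (p.2 \ I).card with hF
  obtain ⟨⟨K, T⟩, hKT, hmax⟩ := exists_max_image
    ((univ : Finset (Finset V × Finset E)).filter fun p => I ⊆ p.2 ∧ VS vars p.2 ⊆ p.1) F
    ⟨(VS vars I, I), by simp⟩
  rw [mem_filter] at hKT
  obtain ⟨-, hIT, hTK⟩ := hKT
  simp only at hIT hTK
  have hFI : F (VS vars I, I) = 𝒜.card := by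
    have e1 : (𝒜.filter fun S => I ⊆ S ∧ VS vars I ⊆ VS vars S) = 𝒜 :=
      filter_true_of_mem fun S hS => ⟨hI S hS, VS_mono (hI S hS)⟩
    change (𝒜.filter fun S => I ⊆ S ∧ VS vars I ⊆ VS vars S).card *
      B ^ (VS vars I \ VS vars I).card * D ^ (I \ I).card = _
    rw [e1]
    simp
  have hFKT : D ^ j < F (K, T) := by
    refine lt_of_lt_of_le hcard ?_
    rw [← hFI]
    exact hmax _ (by simp)
  set 𝒯 := 𝒜.filter fun S => T ⊆ S ∧ K ⊆ VS vars S with h𝒯
  have hFK : F (K, T) = 𝒯.card * B ^ (K \ VS vars T).card * D ^ (T \ I).card := rfl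
  have hTS : ∀ S ∈ 𝒯, T ⊂ S := by
    intro S hS
    rw [h𝒯, mem_filter] at hS
    refine lt_of_le_of_ne hS.2.1 ?_
    rintro rfl
    have h1 : 𝒯 ⊆ {T} := by
      intro S' hS'
      rw [h𝒯, mem_filter] at hS'
      rw [mem_singleton]
      symm
      apply eq_of_subset_of_card_le hS'.2.1
      rw [hj T hS.1, hj S' hS'.1]
    have h2 : 𝒯.card ≤ 1 := by
      have := card_le_card h1
      rwa [card_singleton] at this
    have h3 : K \ VS vars T = ∅ := sdiff_eq_empty_iff_subset.2 hS.2.2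
    have h4 : (T \ I).card = j := by
      rw [card_sdiff_of_subset hIT, hj T hS.1]
      omega
    rw [hFK, h3, h4, card_empty, pow_zero, mul_one] at hFKT
    have := Nat.mul_le_mul_right (D ^ j) h2
    omega
  have h𝒯ne : 𝒯.Nonempty := by
    rw [← card_pos]
    by_contra h0
    have h1 : 𝒯.card = 0 := by omega
    rw [hFK, h1, zero_mul, zero_mul] at hFKT
    omega
  -- the two consequences of maximality
  have hZ : ∀ Z : Finset V, Disjoint Z K →
      (𝒯.filter fun S => Z ⊆ VS vars S).card * B ^ Z.card ≤ 𝒯.card := by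
    intro Z hZK
    have h1 := hmax (K ∪ Z, T) (by
      rw [mem_filter]
      exact ⟨mem_univ _, hIT, hTK.trans subset_union_left⟩)
    rw [hFK] at h1
    have e1 : (𝒜.filter fun S => T ⊆ S ∧ K ∪ Z ⊆ VS vars S) = 𝒯.filter fun S => Z ⊆ VS vars S := by
      ext S
      rw [mem_filter, mem_filter, h𝒯, mem_filter, union_subset_iff]
      tauto
    have e2 : ((K ∪ Z) \ VS vars T).card = (K \ VS vars T).card + Z.card := by
      rw [← card_union_of_disjoint]
      · congr 1
        ext v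
        simp only [mem_sdiff, mem_union]
        constructor
        · rintro ⟨h3 | h3, h4⟩
          · exact Or.inl ⟨h3, h4⟩
          · exact Or.inr h3
        · rintro (⟨h3, h4⟩ | h3)
          · exact ⟨Or.inl h3, h4⟩
          · exact ⟨Or.inr h3, fun h4 => (disjoint_left.1 hZK h3) (hTK h4)⟩
      · exact (hZK.mono_right sdiff_subset).symm
    have h2 : F (K ∪ Z, T) = (𝒯.filter fun S => Z ⊆ VS vars S).card *
        (B ^ (K \ VS vars T).card * B ^ Z.card) * D ^ (T \ I).card := by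
      change (𝒜.filter fun S => T ⊆ S ∧ K ∪ Z ⊆ VS vars S).card *
        B ^ ((K ∪ Z) \ VS vars T).card * D ^ (T \ I).card = _
      rw [e1, e2, pow_add]
    rw [h2] at h1
    have h3 : 0 < B ^ (K \ VS vars T).card * D ^ (T \ I).card := by positivity
    have h4 : (𝒯.filter fun S => Z ⊆ VS vars S).card * B ^ Z.card *
        (B ^ (K \ VS vars T).card * D ^ (T \ I).card) ≤
        𝒯.card * (B ^ (K \ VS vars T).card * D ^ (T \ I).card) := by
      calc _ = (𝒯.filter fun S => Z ⊆ VS vars S).card *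
        (B ^ (K \ VS vars T).card * B ^ Z.card) * D ^ (T \ I).card := by ring
        _ ≤ _ := h1
        _ = _ := by ring
    exact Nat.le_of_mul_le_mul_right h4 h3
  have hQ : ∀ Q : Finset E, Disjoint Q T →
      (𝒯.filter fun S => Q ⊆ S).card * D ^ Q.card ≤ 𝒯.card * (B ^ k) ^ Q.card := by
    intro Q hQT
    have h1 := hmax (K ∪ VS vars Q, T ∪ Q) (by
      rw [mem_filter]
      refine ⟨mem_univ _, hIT.trans subset_union_left, ?_⟩
      simp only
      rw [VS_union]
      exact union_subset_union hTK subset_rfl)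
    rw [hFK] at h1
    obtain ⟨a, ha⟩ : ∃ a, a = ((K ∪ VS vars Q) \ VS vars (T ∪ Q)).card := ⟨_, rfl⟩
    have e1 : (𝒜.filter fun S => T ∪ Q ⊆ S ∧ K ∪ VS vars Q ⊆ VS vars S) =
        𝒯.filter fun S => Q ⊆ S := by
      ext S
      rw [mem_filter, mem_filter, h𝒯, mem_filter, union_subset_iff, union_subset_iff]
      constructor
      · rintro ⟨h3, ⟨h4, h5⟩, h6, h7⟩
        exact ⟨⟨h3, h4, h6⟩, h5⟩
      · rintro ⟨⟨h3, h4, h6⟩, h5⟩
        exact ⟨h3, ⟨h4, h5⟩, h6, VS_mono h5⟩
    have e2 : ((T ∪ Q) \ I).card = (T \ I).card + Q.card := by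
      rw [← card_union_of_disjoint]
      · congr 1
        ext v
        simp only [mem_sdiff, mem_union]
        constructor
        · rintro ⟨h3 | h3, h4⟩
          · exact Or.inl ⟨h3, h4⟩
          · exact Or.inr h3
        · rintro (⟨h3, h4⟩ | h3)
          · exact ⟨Or.inl h3, h4⟩
          · exact ⟨Or.inr h3, fun h4 => (disjoint_left.1 hQT h3) (hIT h4)⟩
      · exact (hQT.mono_right sdiff_subset).symm
    have h2 : F (K ∪ VS vars Q, T ∪ Q) = (𝒯.filter fun S => Q ⊆ S).card * B ^ a *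
        (D ^ (T \ I).card * D ^ Q.card) := by
      change (𝒜.filter fun S => T ∪ Q ⊆ S ∧ K ∪ VS vars Q ⊆ VS vars S).card *
        B ^ ((K ∪ VS vars Q) \ VS vars (T ∪ Q)).card * D ^ ((T ∪ Q) \ I).card = _
      rw [e1, e2, pow_add, ← ha]
    have h5 : (K \ VS vars T).card ≤ a + k * Q.card := by
      have h6 : K \ VS vars T ⊆ ((K ∪ VS vars Q) \ VS vars (T ∪ Q)) ∪ VS vars Q := by
        intro v hv
        rw [mem_sdiff] at hv
        rw [mem_union, mem_sdiff, VS_union, mem_union, mem_union]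
        by_cases h7 : v ∈ VS vars Q
        · exact Or.inr h7
        · exact Or.inl ⟨Or.inl hv.1, fun h8 => h8.elim hv.2 h7⟩
      refine (card_le_card h6).trans ((card_union_le _ _).trans ?_)
      rw [← ha]
      exact Nat.add_le_add_left (card_VS_le hk Q) _
    rw [h2] at h1
    have h3 : 0 < B ^ a * D ^ (T \ I).card := by positivity
    have h4 : (𝒯.filter fun S => Q ⊆ S).card * D ^ Q.card * (B ^ a * D ^ (T \ I).card) ≤
        (𝒯.card * (B ^ k) ^ Q.card) * (B ^ a * D ^ (T \ I).card) := by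
      calc _ = (𝒯.filter fun S => Q ⊆ S).card * B ^ a * (D ^ (T \ I).card * D ^ Q.card) := by ring
        _ ≤ 𝒯.card * B ^ (K \ VS vars T).card * D ^ (T \ I).card := h1
        _ ≤ 𝒯.card * B ^ (a + k * Q.card) * D ^ (T \ I).card := by
            apply Nat.mul_le_mul_right
            apply Nat.mul_le_mul_left
            exact Nat.pow_le_pow_right hB0 h5
        _ = _ := by
            rw [pow_add, pow_mul]
            ring
    exact Nat.le_of_mul_le_mul_right h4 h3
  -- the violators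
  obtain ⟨S₀, hS₀⟩ := id h𝒯ne
  have hKcard : K.card ≤ k * w := by
    rw [h𝒯, mem_filter] at hS₀
    exact (card_le_card hS₀.2.2).trans ((card_VS_le hk S₀).trans
      (Nat.mul_le_mul_left _ (hw S₀ hS₀.1)))
  obtain ⟨good, hgood⟩ : ∃ good : Finset E → Prop, ∀ S, good S ↔
      ∃ rep : E → V, (∀ e ∈ S \ T, rep e ∈ vars e ∧ rep e ∉ K) ∧
        Set.InjOn rep ((S \ T : Finset E) : Set E) := ⟨_, fun _ => Iff.rfl⟩
  set 𝒢 := 𝒯.filter good with h𝒢
  set 𝒬 := (univ : Finset (Finset E)).filter fun Q =>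
    Disjoint Q T ∧ Q.card ≤ w ∧ (VS vars Q \ K).card < Q.card with h𝒬
  have hbad : (𝒯.filter fun S => ¬ good S) ⊆ 𝒬.biUnion fun Q => 𝒯.filter fun S => Q ⊆ S := by
    intro S hS
    rw [mem_filter] at hS
    have hS1 := hS.1
    rw [h𝒯, mem_filter] at hS1
    rcases exists_rep_or_viol (vars := vars) (S \ T) K with h1 | ⟨Q, hQS, hQK⟩
    · exact (hS.2 ((hgood S).2 h1)).elim
    · rw [mem_biUnion]
      refine ⟨Q, ?_, ?_⟩
      · rw [h𝒬, mem_filter]
        refine ⟨mem_univ _, ?_, ?_, hQK⟩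
        · rw [disjoint_left]
          intro e he
          exact (mem_sdiff.1 (hQS he)).2
        · exact (card_le_card (hQS.trans sdiff_subset)).trans (hw S hS1.1)
      · rw [mem_filter]
        exact ⟨hS.1, hQS.trans sdiff_subset⟩
  set A := (2 * ((k + 1) * w)) ^ k with hA
  have hDA : D = 4 * Fintype.card V * (A * B ^ k) := by
    rw [hD, hA, ← mul_pow]
  have hA0 : 0 < A := by positivity
  have hAR : (0 : ℝ) < A := by exact_mod_cast hA0
  have hBR : (0 : ℝ) < (B : ℝ) ^ k := by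
    have : (0 : ℝ) < B := by exact_mod_cast hB0
    positivity
  have hVR : (1 : ℝ) ≤ Fintype.card V := by exact_mod_cast hV0
  have hDR : (0 : ℝ) < D := by exact_mod_cast hD0
  obtain ⟨y, hy⟩ : ∃ y : ℝ, y = (B : ℝ) ^ k / D := ⟨_, rfl⟩
  have hy0 : 0 ≤ y := by rw [hy]; positivity
  have hAy : (A : ℝ) * y * Fintype.card V = 1 / 4 := by
    rw [hy, hDA]
    push_cast
    field_simp
  have hbadcard : ((𝒯.filter fun S => ¬ good S).card : ℝ) ≤ 𝒯.card * (1 / 3) := by
    have h1 : ((𝒯.filter fun S => ¬ good S).card : ℝ) ≤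
        ∑ Q ∈ 𝒬, ((𝒯.filter fun S => Q ⊆ S).card : ℝ) := by
      exact_mod_cast (card_le_card hbad).trans card_biUnion_le
    have h2 : ∀ Q ∈ 𝒬, ((𝒯.filter fun S => Q ⊆ S).card : ℝ) ≤ 𝒯.card * y ^ Q.card := by
      intro Q hQ𝒬
      rw [h𝒬, mem_filter] at hQ𝒬
      have h3 := hQ Q hQ𝒬.2.1
      have h4 : ((𝒯.filter fun S => Q ⊆ S).card : ℝ) * (D : ℝ) ^ Q.card ≤
          𝒯.card * ((B : ℝ) ^ k) ^ Q.card := by exact_mod_cast h3
      rw [hy, div_pow, ← mul_div_assoc, le_div_iff₀ (by positivity)]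
      exact h4
    refine h1.trans ((sum_le_sum h2).trans ?_)
    rw [← mul_sum]
    apply mul_le_mul_of_nonneg_left _ (Nat.cast_nonneg _)
    have hmaps : ∀ Q ∈ 𝒬, Q.card - 1 ∈ range w := by
      intro Q hQ𝒬
      rw [h𝒬, mem_filter] at hQ𝒬
      rw [mem_range]
      omega
    rw [← sum_fiberwise_of_maps_to hmaps]
    refine le_trans (sum_le_sum (g := fun q => (1 / 4 : ℝ) ^ (q + 1)) ?_) (geo_quarter w)
    intro q hq
    rw [mem_range] at hq
    have h5 : ∀ Q ∈ 𝒬.filter fun Q => Q.card - 1 = q, y ^ Q.card = y ^ (q + 1) := by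
      intro Q hQ𝒬
      rw [mem_filter, h𝒬, mem_filter] at hQ𝒬
      congr 1
      omega
    rw [sum_congr rfl h5, sum_const, nsmul_eq_mul]
    have h6 : (𝒬.filter fun Q => Q.card - 1 = q).card ≤
        Fintype.card V ^ q * A ^ (q + 1) := by
      have h7 := card_viol (vars := vars) hcount K ((k + 1) * w) (q + 1) (by
        have : (k + 1) * w = k * w + w := by ring
        omega) (by omega)
      rw [Nat.add_sub_cancel] at h7
      refine le_trans (card_le_card ?_) h7
      intro Q hQ𝒬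
      rw [mem_filter, h𝒬, mem_filter] at hQ𝒬
      rw [mem_filter]
      refine ⟨mem_univ _, by omega, by omega⟩
    have h7 : ((𝒬.filter fun Q => Q.card - 1 = q).card : ℝ) ≤
        (Fintype.card V : ℝ) ^ q * (A : ℝ) ^ (q + 1) := by exact_mod_cast h6
    calc ((𝒬.filter fun Q => Q.card - 1 = q).card : ℝ) * y ^ (q + 1)
        ≤ (Fintype.card V : ℝ) ^ q * (A : ℝ) ^ (q + 1) * y ^ (q + 1) :=
          mul_le_mul_of_nonneg_right h7 (by positivity)
      _ ≤ (Fintype.card V : ℝ) ^ (q + 1) * (A : ℝ) ^ (q + 1) * y ^ (q + 1) := by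
          apply mul_le_mul_of_nonneg_right _ (by positivity)
          apply mul_le_mul_of_nonneg_right _ (by positivity)
          exact pow_le_pow_right₀ hVR (by omega)
      _ = (A * y * Fintype.card V) ^ (q + 1) := by
          rw [mul_pow, mul_pow]
          ring
      _ = (1 / 4 : ℝ) ^ (q + 1) := by rw [hAy]
  have h𝒢card : (𝒯.card : ℝ) ≤ 2 * 𝒢.card := by
    have h1 : 𝒢.card + (𝒯.filter fun S => ¬ good S).card = 𝒯.card := by
      rw [h𝒢]
      exact card_filter_add_card_filter_not _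
    have h2 : (𝒢.card : ℝ) + ((𝒯.filter fun S => ¬ good S).card : ℝ) = 𝒯.card := by
      exact_mod_cast h1
    have h3 : (0 : ℝ) ≤ 𝒯.card := Nat.cast_nonneg _
    linarith
  have h𝒢ne : 𝒢.Nonempty := by
    rw [← card_pos]
    by_contra h0
    have h1 : 𝒢.card = 0 := by omega
    have h2 : (0 : ℝ) < 𝒯.card := by exact_mod_cast card_pos.2 h𝒯ne
    rw [h1, Nat.cast_zero, mul_zero] at h𝒢card
    linarith
  have hrep : ∀ S, ∃ rep : E → V, S ∈ 𝒢 → (∀ e ∈ S \ T, rep e ∈ vars e ∧ rep e ∉ K) ∧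
      Set.InjOn rep ((S \ T : Finset E) : Set E) := by
    intro S
    by_cases hS : S ∈ 𝒢
    · rw [h𝒢, mem_filter] at hS
      obtain ⟨rep, hrep⟩ := (hgood S).1 hS.2
      exact ⟨rep, fun _ => hrep⟩
    · obtain ⟨d⟩ := ‹Nonempty V›
      exact ⟨fun _ => d, fun h => (hS h).elim⟩
  choose rep hrep using hrep
  set Rf : Finset E → Finset V := fun S => (S \ T).image (rep S) with hRf
  set σ : Finset E → V → Bool := fun S v =>
    if h : ∃ e ∈ S \ T, rep S e = v then sgn h.choose v else true with hσ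
  have hσe : ∀ S ∈ 𝒢, ∀ e ∈ S \ T, σ S (rep S e) = sgn e (rep S e) := by
    intro S hS e he
    have h1 : ∃ e' ∈ S \ T, rep S e' = rep S e := ⟨e, he, rfl⟩
    simp only [hσ]
    rw [dif_pos h1]
    have h2 := h1.choose_spec
    rw [(hrep S hS).2 (mem_coe.2 h2.1) (mem_coe.2 he) h2.2]
  have hmem𝒢 : ∀ S ∈ 𝒢, S ∈ 𝒜 ∧ T ⊆ S ∧ K ⊆ VS vars S := by
    intro S hS
    rw [h𝒢, mem_filter, h𝒯, mem_filter] at hS
    exact hS.1
  have hu : ∀ S ∈ 𝒢, (Rf S).card = I.card + j - T.card := by
    intro S hS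
    simp only [hRf]
    rw [card_image_of_injOn (hrep S hS).2, card_sdiff_of_subset (hmem𝒢 S hS).2.1,
      hj S (hmem𝒢 S hS).1]
  have huw : I.card + j - T.card ≤ w := by
    obtain ⟨S, hS⟩ := h𝒢ne
    have := hw S (hmem𝒢 S hS).1
    rw [hj S (hmem𝒢 S hS).1] at this
    omega
  have hcov := cover 𝒢 h𝒢ne Rf σ (I.card + j - T.card) R hR hu (B : ℝ) (by exact_mod_cast hB0)
    (by
      have h1 : 10 * (R * (I.card + j - T.card)) ≤ B := by
        rw [hB]
        exact Nat.mul_le_mul_left _ (Nat.mul_le_mul_left _ huw)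
      exact_mod_cast h1)
    (by
      intro S hS Z hZS
      have hdis : Disjoint Z K := by
        rw [disjoint_left]
        intro v hv hvK
        have h1 := hZS hv
        simp only [hRf] at h1
        rw [mem_image] at h1
        obtain ⟨e, he, rfl⟩ := h1
        exact ((hrep S hS).1 e he).2 hvK
      have h1 := hZ Z hdis
      have h2 : (𝒢.filter fun S' => Z ⊆ Rf S').card ≤ (𝒯.filter fun S => Z ⊆ VS vars S).card := by
        apply card_le_card
        intro S' hS'
        rw [mem_filter] at hS' ⊢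
        refine ⟨(mem_filter.1 (h𝒢 ▸ hS'.1)).1, ?_⟩
        intro v hv
        have h3 := hS'.2 hv
        simp only [hRf] at h3
        rw [mem_image] at h3
        obtain ⟨e, he, rfl⟩ := h3
        exact mem_VS.2 ⟨e, (mem_sdiff.1 he).1, ((hrep S' hS'.1).1 e he).1⟩
      have h3 : ((𝒢.filter fun S' => Z ⊆ Rf S').card : ℝ) * (B : ℝ) ^ Z.card ≤ 𝒯.card := by
        exact_mod_cast (Nat.mul_le_mul_right _ h2).trans h1
      exact h3.trans h𝒢card)
  obtain ⟨S₁, hS₁⟩ := id h𝒢ne
  refine ⟨T, ⟨S₁, (hmem𝒢 S₁ hS₁).1, hTS S₁ ?_⟩, ?_⟩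
  · rw [h𝒢, mem_filter] at hS₁
    exact hS₁.1
  · refine le_trans (Nat.mul_le_mul_right _ (card_le_card ?_)) hcov
    intro x hx
    simp only [mem_filter, mem_univ, true_and] at hx ⊢
    intro S hS
    obtain ⟨e, heS, heT, hex⟩ := hx S (hmem𝒢 S hS).1
    have he : e ∈ S \ T := mem_sdiff.2 ⟨heS, heT⟩
    refine ⟨rep S e, ?_, ?_⟩
    · simp only [hRf]
      exact mem_image_of_mem _ he
    · rw [hσe S hS e he]
      intro h
      exact hex (hsat e (rep S e) x ((hrep S hS).1 e he).1 h)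

end

end Pool.Agent.T9h16.Rand
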