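import Pool.Agent.T9h16.Rand.Clause
import Pool.Agent.T9h16.Rand.Circuit

/-!
The lower bound for monotone circuits that refute random `k`-SAT.
-/

set_option autoImplicit false
set_option linter.unusedSectionVars false

namespace Pool.Agent.T9h16.Rand

open Finset
open scoped Classical
open Pool.Agent.T9h16 (Leaf Avail IsSLP)

theorem lits_injective {n k : ℕ} : Function.Injective (Clause.lits : Clause n k → _) := by
  rintro ⟨s, h1, h2⟩ ⟨t, h3, h4⟩ h
  simp only at h
  subst h
  rfl

noncomputable instance {n k : ℕ} : Fintype (Clause n k) :=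
  Fintype.ofInjective _ lits_injective

theorem ncard_filter {α : Type} (i : Fintype α) (p : α → Prop) (d : DecidablePred p) :
    {x | p x}.ncard = (@Finset.filter α p d (@univ α i)).card := by
  rw [← Set.ncard_coe_finset]
  congr 1
  ext x
  simp

theorem isCl {n k : ℕ} : IsCl k (Clause.lits : Clause n k → _) :=
  ⟨lits_injective, fun c => c.card_lits, fun c => c.distinct, fun s h1 h2 => ⟨⟨s, h1, h2⟩, rfl⟩⟩

/-- With fewer than `k` variables there are no clauses. -/
theorem isEmpty_clause {n k : ℕ} (h : n < k) : IsEmpty (Clause n k) := by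
  refine ⟨fun c => ?_⟩
  have h1 : (c.lits.image Prod.fst).card = k := by
    rw [card_image_of_injOn, c.card_lits]
    intro l hl l' hl' hll
    exact c.distinct l hl l' hl' hll
  have h2 := card_le_univ (c.lits.image Prod.fst)
  rw [h1, Fintype.card_fin] at h2
  omega

theorem card_filter_eq {α : Type} (i₁ i₂ : Fintype α) (p q : α → Prop) (d₁ : DecidablePred p)
    (d₂ : DecidablePred q) (h : ∀ a, p a ↔ q a) :
    (@Finset.filter α p d₁ (@univ α i₁)).card = (@Finset.filter α q d₂ (@univ α i₂)).card := by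
  have h1 : p = q := funext fun a => propext (h a)
  subst h1
  have h2 : i₁ = i₂ := Subsingleton.elim _ _
  subst h2
  have h3 : d₁ = d₂ := Subsingleton.elim _ _
  subst h3
  rfl

/-- The structure theorem. -/
theorem structure_circuit {n k m w : ℕ} (hk : 1 ≤ k) (hw : 1 ≤ w)
    (hm : m * (640 * (k + 1) * k * (3 * k + 5) * w ^ 3 * (Nat.log 2 n + 1)) ^ k ≤ n ^ (k - 1))
    (D : MonoCircuit (Clause n k)) (hs : D.size ≤ 2 ^ w)
    (hsound : (univ.filter fun x : Fin n → Bool => Accepts D {c | Sat x c}).card *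
      2 ^ (k * w + 1) ≤ 2 ^ n) :
    (univ.filter fun φ : Fin m → Clause n k => Accepts D (Set.range φ) ∧
      ∀ S : Finset (Clause n k), S.card ≤ w → (∀ c ∈ S, c ∈ Set.range φ) →
        ∃ x, ∀ c ∈ S, Sat x c).card * 2 ^ w ≤ D.size * Fintype.card (Fin m → Clause n k) := by
  obtain ⟨g, o, hg, ho, hacc⟩ := exists_slp D
  rcases lt_or_ge n k with hnk | hkn
  · have hE := isEmpty_clause hnk
    have h0 : (univ.filter fun φ : Fin m → Clause n k => Accepts D (Set.range φ) ∧
      ∀ S : Finset (Clause n k), S.card ≤ w → (∀ c ∈ S, c ∈ Set.range φ) →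
        ∃ x, ∀ c ∈ S, Sat x c) = ∅ := by
      rw [filter_eq_empty_iff]
      rintro φ - ⟨h1, -⟩
      have h2 : (univ.filter fun x : Fin n → Bool => Accepts D {c | Sat x c}) = univ := by
        rw [filter_eq_self]
        intro x _
        have h3 : {c : Clause n k | Sat x c} = Set.range φ := by
          ext c
          exact (hE.false c).elim
        rw [h3]
        exact h1
      rw [h2, card_univ, Fintype.card_fun, Fintype.card_bool, Fintype.card_fin] at hsound
      have h3 : 1 < 2 ^ (k * w + 1) := Nat.one_lt_two_pow (by omega)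
      have h4 : 0 < 2 ^ n := by positivity
      nlinarith
    rw [h0, card_empty, zero_mul]
    exact Nat.zero_le _
  · have h := structure_Cl (V := Fin n) (ι := Fin m) (E := Clause n k) isCl hk
      (Fintype.card_fin n).symm hkn w hw (by rw [Fintype.card_fin]; exact hm) g D.size hg hs o ho
      (by
        refine le_trans (Nat.mul_le_mul_right _ (le_of_eq ?_)) hsound
        congr 1
        ext x
        simp only [mem_filter, mem_univ, true_and]
        exact (hacc _).symm)
    rw [Fintype.card_fin, ] at h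
    rw [Fintype.card_fun, Fintype.card_fin]
    refine le_trans (Nat.mul_le_mul_right _ (le_of_eq ?_)) h
    have e1 : ∀ φ : Fin m → Clause n k, (Accepts D (Set.range φ) ∧
      ∀ S : Finset (Clause n k), S.card ≤ w → (∀ c ∈ S, c ∈ Set.range φ) →
        ∃ x, ∀ c ∈ S, Sat x c) ↔ (o (Set.range φ) ∧
      ∀ S : Finset (Clause n k), S.card ≤ w → (∀ c ∈ S, ∃ i, φ i = c) →
        ∃ x, ∀ c ∈ S, csat Clause.lits x c) := by
      intro φ
      rw [hacc]
      exact Iff.rfl
    exact card_filter_eq _ _ _ _ _ _ e1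

/-- Small unsatisfiable subformulas are rare. -/
theorem small_unsat_rare {n k m w : ℕ} (hk : 1 ≤ k) (hw : 1 ≤ w)
    (hm : m * (640 * (k + 1) * k * (3 * k + 5) * w ^ 3 * (Nat.log 2 n + 1)) ^ k ≤ n ^ (k - 1)) :
    3 * (n * (univ.filter fun φ : Fin m → Clause n k => ∃ S : Finset (Clause n k), S.card ≤ w ∧
      (∀ c ∈ S, c ∈ Set.range φ) ∧ ¬ ∃ x, ∀ c ∈ S, Sat x c).card) ≤
      Fintype.card (Fin m → Clause n k) := by
  rcases lt_or_ge n k with hnk | hkn
  · have hE := isEmpty_clause hnk
    have h0 : (univ.filter fun φ : Fin m → Clause n k => ∃ S : Finset (Clause n k),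
        S.card ≤ w ∧ (∀ c ∈ S, c ∈ Set.range φ) ∧ ¬ ∃ x, ∀ c ∈ S, Sat x c) = ∅ := by
      rw [filter_eq_empty_iff]
      rintro φ - ⟨S, -, -, h3⟩
      exact h3 ⟨fun _ => true, fun c _ => (hE.false c).elim⟩
    rw [h0, card_empty, mul_zero, mul_zero]
    exact Nat.zero_le _
  · have h := small_Cl (V := Fin n) (ι := Fin m) (E := Clause n k) isCl hk
      (Fintype.card_fin n).symm hkn w hw (by rw [Fintype.card_fin]; exact hm)
    rw [Fintype.card_fin] at h
    rw [Fintype.card_fun, Fintype.card_fin]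
    refine le_trans (Nat.mul_le_mul_left _ (Nat.mul_le_mul_left _ (le_of_eq ?_))) h
    have e1 : ∀ φ : Fin m → Clause n k, (∃ S : Finset (Clause n k), S.card ≤ w ∧
      (∀ c ∈ S, c ∈ Set.range φ) ∧ ¬ ∃ x, ∀ c ∈ S, Sat x c) ↔
      (∃ S : Finset (Clause n k), S.card ≤ w ∧
      (∀ c ∈ S, ∃ i, φ i = c) ∧ ¬ ∃ x, ∀ c ∈ S, csat Clause.lits x c) := by
      intro φ
      exact Iff.rfl
    exact card_filter_eq _ _ _ _ _ _ e1

/-- The structure theorem, for `Set.ncard`. -/
theorem structure_ncard {n k m w : ℕ} (hk : 1 ≤ k) (hw : 1 ≤ w)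
    (hm : m * (640 * (k + 1) * k * (3 * k + 5) * w ^ 3 * (Nat.log 2 n + 1)) ^ k ≤ n ^ (k - 1))
    (D : MonoCircuit (Clause n k)) (hs : D.size ≤ 2 ^ w)
    (hsound : {x : Fin n → Bool | Accepts D {c | Sat x c}}.ncard * 2 ^ (k * w + 1) ≤ 2 ^ n) :
    {φ : Fin m → Clause n k | Accepts D (Set.range φ) ∧
      ∀ S : Finset (Clause n k), S.card ≤ w → (∀ c ∈ S, c ∈ Set.range φ) →
        ∃ x, ∀ c ∈ S, Sat x c}.ncard * 2 ^ w ≤ D.size * Nat.card (Fin m → Clause n k) := by
  rw [Nat.card_eq_fintype_card, ncard_filter inferInstance _ (Classical.decPred _)]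
  rw [ncard_filter inferInstance _ (Classical.decPred _)] at hsound
  have h := structure_circuit hk hw hm D hs (by
    refine le_trans (Nat.mul_le_mul_right _ (le_of_eq ?_)) hsound
    exact card_filter_eq _ _ _ _ _ _ fun _ => Iff.rfl)
  refine le_trans (Nat.mul_le_mul_right _ (le_of_eq ?_)) h
  exact card_filter_eq _ _ _ _ _ _ fun _ => Iff.rfl

/-- The lower bounds, with an absolute constant. -/
theorem lower {K : ℕ} (hK : 655360 ≤ K) {k : ℕ} (hk : 1 ≤ k) :
    (∀ n m w : ℕ, 1 ≤ w → m * (K * k ^ 3 * w ^ 3 * (Nat.log 2 n + 1)) ^ k ≤ n ^ (k - 1) →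
      ∀ D : MonoCircuit (Clause n k), D.size ≤ 2 ^ w →
        {x : Fin n → Bool | Accepts D {c | Sat x c}}.ncard * 2 ^ (k * w + 1) ≤ 2 ^ n →
        {φ : Fin m → Clause n k | Accepts D (Set.range φ) ∧
          ∀ S : Finset (Clause n k), S.card ≤ w → (∀ c ∈ S, c ∈ Set.range φ) →
            ∃ x, ∀ c ∈ S, Sat x c}.ncard * 2 ^ w ≤ D.size * Nat.card (Fin m → Clause n k)) ∧
    ∀ n m s q : ℕ, m * (K * k ^ 3 * (Nat.log 2 (n + s + q) + 1) ^ 3 *
        (Nat.log 2 n + 1)) ^ k ≤ n ^ (k - 1) →
      ∀ (U : Type) [Fintype U] (D : U → MonoCircuit (Clause n k)), Fintype.card U ≤ q →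
        (∀ u, (D u).size ≤ s) →
        (∀ u, (n + s + q) ^ (K * k) *
          {x : Fin n → Bool | Accepts (D u) {c | Sat x c}}.ncard ≤ 2 ^ n) →
        n * {φ : Fin m → Clause n k | ∃ u, Accepts (D u) (Set.range φ)}.ncard ≤
          Nat.card (Fin m → Clause n k) := by
  obtain ⟨K₀, hK₀⟩ : ∃ K₀, K₀ = 640 * (k + 1) * k * (3 * k + 5) := ⟨_, rfl⟩
  have hK₀k : K₀ ≤ 10240 * k ^ 3 := by
    rw [hK₀]
    calc 640 * (k + 1) * k * (3 * k + 5) ≤ 640 * (2 * k) * k * (8 * k) :=
          Nat.mul_le_mul (Nat.mul_le_mul_right _ (Nat.mul_le_mul_left _ (by omega))) (by omega)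
      _ = 10240 * k ^ 3 := by ring
  refine ⟨?_, ?_⟩
  · intro n m w hw hm D hs hsound
    refine structure_ncard hk hw ?_ D hs hsound
    refine le_trans ?_ hm
    apply Nat.mul_le_mul_left
    apply Nat.pow_le_pow_left
    apply Nat.mul_le_mul_right
    apply Nat.mul_le_mul_right
    rw [← hK₀]
    exact hK₀k.trans (Nat.mul_le_mul_right _ (by omega))
  · intro n m s q hm U _ D hU hs hsound
    rw [Nat.card_eq_fintype_card, ncard_filter inferInstance _ (Classical.decPred _)]
    have hsound : ∀ u, (n + s + q) ^ (K * k) *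
        (univ.filter fun x : Fin n → Bool => Accepts (D u) {c | Sat x c}).card ≤ 2 ^ n := by
      intro u
      have h := hsound u
      rw [ncard_filter inferInstance _ (Classical.decPred _)] at h
      refine le_trans (Nat.mul_le_mul_left _ (le_of_eq ?_)) h
      exact card_filter_eq _ _ _ _ _ _ fun _ => Iff.rfl
    suffices key : n * (univ.filter fun φ : Fin m → Clause n k =>
        ∃ u, Accepts (D u) (Set.range φ)).card ≤ Fintype.card (Fin m → Clause n k) by
      refine le_trans (Nat.mul_le_mul_left _ (le_of_eq ?_)) key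
      exact card_filter_eq _ _ _ _ _ _ fun _ => Iff.rfl
    rcases Nat.eq_zero_or_pos n with hn0 | hn1
    · have h0 : ∀ a : ℕ, n * a = 0 := fun a => by rw [hn0, zero_mul]
      rw [h0]
      exact Nat.zero_le _
    rcases isEmpty_or_nonempty U with hUe | hUn
    · have h0 : (univ.filter fun φ : Fin m → Clause n k =>
          ∃ u, Accepts (D u) (Set.range φ)) = ∅ := by
        rw [filter_eq_empty_iff]
        rintro φ - ⟨u, -⟩
        exact hUe.false u
      rw [h0, card_empty, mul_zero]
      exact Nat.zero_le _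
    have hq1 : 1 ≤ q := le_trans Fintype.card_pos hU
    obtain ⟨ℓ, hℓ⟩ : ∃ ℓ, ℓ = Nat.log 2 (n + s + q) + 1 := ⟨_, rfl⟩
    rw [← hℓ] at hm
    have hℓlt : n + s + q < 2 ^ ℓ := hℓ ▸ Nat.lt_pow_succ_log_self (by norm_num) _
    have hℓle : 2 ^ ℓ ≤ 2 * (n + s + q) := by
      rw [hℓ, pow_succ, mul_comm]
      exact Nat.mul_le_mul_left _ (Nat.pow_log_le_self 2 (by omega))
    have hℓ1 : 1 ≤ ℓ := by omega
    obtain ⟨w, hw⟩ : ∃ w, w = 3 * ℓ + 1 := ⟨_, rfl⟩
    have hw1 : 1 ≤ w := by omega
    have hwℓ : w ≤ 4 * ℓ := by omega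
    have h2w : 2 * (n * (s * q)) ≤ 2 ^ w := by
      calc 2 * (n * (s * q)) ≤ 2 * (2 ^ ℓ * (2 ^ ℓ * 2 ^ ℓ)) := by
            apply Nat.mul_le_mul_left
            apply Nat.mul_le_mul (by omega)
            exact Nat.mul_le_mul (by omega) (by omega)
        _ = 2 ^ w := by
            rw [hw]
            ring
    have hsw : s ≤ 2 ^ w := by
      calc s ≤ 2 ^ ℓ := by omega
        _ ≤ 2 ^ w := Nat.pow_le_pow_right (by norm_num) (by omega)
    have hmw : m * (640 * (k + 1) * k * (3 * k + 5) * w ^ 3 * (Nat.log 2 n + 1)) ^ k ≤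
        n ^ (k - 1) := by
      refine le_trans ?_ hm
      apply Nat.mul_le_mul_left
      rw [← hK₀]
      apply Nat.pow_le_pow_left
      apply Nat.mul_le_mul_right
      calc K₀ * w ^ 3 ≤ (10240 * k ^ 3) * (4 * ℓ) ^ 3 :=
            Nat.mul_le_mul hK₀k (Nat.pow_le_pow_left hwℓ 3)
        _ = 655360 * k ^ 3 * ℓ ^ 3 := by ring
        _ ≤ K * k ^ 3 * ℓ ^ 3 :=
            Nat.mul_le_mul_right _ (Nat.mul_le_mul_right _ hK)
    have hsd : ∀ u, (univ.filter fun x : Fin n → Bool =>
        Accepts (D u) {c | Sat x c}).card * 2 ^ (k * w + 1) ≤ 2 ^ n := by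
      intro u
      refine le_trans ?_ (hsound u)
      rw [mul_comm]
      apply Nat.mul_le_mul_right
      have h2 : 2 ≤ n + s + q := by omega
      calc 2 ^ (k * w + 1) = (2 ^ ℓ) ^ (3 * k) * 2 ^ (k + 1) := by
            rw [← pow_mul, ← pow_add, hw]
            congr 1
            ring
        _ ≤ (2 * (n + s + q)) ^ (3 * k) * 2 ^ (k + 1) :=
            Nat.mul_le_mul_right _ (Nat.pow_le_pow_left hℓle _)
        _ ≤ ((n + s + q) * (n + s + q)) ^ (3 * k) * (n + s + q) ^ (k + 1) :=
            Nat.mul_le_mul (Nat.pow_le_pow_left (Nat.mul_le_mul_right _ h2) _)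
              (Nat.pow_le_pow_left h2 _)
        _ = (n + s + q) ^ (7 * k + 1) := by
            rw [← pow_two, ← pow_mul, ← pow_add]
            congr 1
            ring
        _ ≤ (n + s + q) ^ (K * k) := by
            apply Nat.pow_le_pow_right (by omega)
            nlinarith
    set X := Fintype.card (Fin m → Clause n k) with hX
    -- the two kinds of accepted formulas
    set A := univ.filter fun φ : Fin m → Clause n k => ∃ S : Finset (Clause n k), S.card ≤ w ∧
      (∀ c ∈ S, c ∈ Set.range φ) ∧ ¬ ∃ x, ∀ c ∈ S, Sat x c with hA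
    have hAX : 3 * (n * A.card) ≤ X := small_unsat_rare hk hw1 hmw
    set B : U → Finset (Fin m → Clause n k) := fun u => univ.filter fun φ : Fin m → Clause n k =>
      Accepts (D u) (Set.range φ) ∧
      ∀ S : Finset (Clause n k), S.card ≤ w → (∀ c ∈ S, c ∈ Set.range φ) →
        ∃ x, ∀ c ∈ S, Sat x c with hB
    have hBX : ∀ u, (B u).card * 2 ^ w ≤ s * X := fun u =>
      (structure_circuit hk hw1 hmw (D u) ((hs u).trans hsw) (hsd u)).trans
        (Nat.mul_le_mul_right _ (hs u))
    have hsub : (univ.filter fun φ : Fin m → Clause n k => ∃ u, Accepts (D u) (Set.range φ)) ⊆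
        A ∪ univ.biUnion B := by
      intro φ hφ
      rw [mem_filter] at hφ
      obtain ⟨-, u, hu⟩ := hφ
      rw [mem_union]
      by_cases hA' : φ ∈ A
      · exact Or.inl hA'
      · right
        rw [mem_biUnion]
        refine ⟨u, mem_univ _, ?_⟩
        rw [hB, mem_filter]
        refine ⟨mem_univ _, hu, ?_⟩
        intro S hS1 hS2
        by_contra hcon
        apply hA'
        rw [hA, mem_filter]
        exact ⟨mem_univ _, S, hS1, hS2, hcon⟩
    have hsum : (univ.biUnion B).card * 2 ^ w ≤ q * (s * X) := by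
      calc (univ.biUnion B).card * 2 ^ w ≤ (∑ u : U, (B u).card) * 2 ^ w :=
            Nat.mul_le_mul_right _ card_biUnion_le
        _ = ∑ u : U, (B u).card * 2 ^ w := sum_mul _ _ _
        _ ≤ ∑ _u : U, s * X := sum_le_sum fun u _ => hBX u
        _ = Fintype.card U * (s * X) := by rw [sum_const, card_univ, smul_eq_mul]
        _ ≤ q * (s * X) := Nat.mul_le_mul_right _ hU
    have hBn : 2 * (n * (univ.biUnion B).card) ≤ X := by
      have h1 : 2 ^ w * (2 * (n * (univ.biUnion B).card)) ≤ 2 ^ w * X := by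
        calc 2 ^ w * (2 * (n * (univ.biUnion B).card))
            = 2 * n * ((univ.biUnion B).card * 2 ^ w) := by ring
          _ ≤ 2 * n * (q * (s * X)) := Nat.mul_le_mul_left _ hsum
          _ = (2 * (n * (s * q))) * X := by ring
          _ ≤ 2 ^ w * X := Nat.mul_le_mul_right _ h2w
      exact Nat.le_of_mul_le_mul_left h1 (by positivity)
    calc n * (univ.filter fun φ : Fin m → Clause n k => ∃ u, Accepts (D u) (Set.range φ)).card
        ≤ n * (A.card + (univ.biUnion B).card) :=
          Nat.mul_le_mul_left _ ((card_le_card hsub).trans (card_union_le _ _))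
      _ = n * A.card + n * (univ.biUnion B).card := by ring
      _ ≤ X := by omega

end Pool.Agent.T9h16.Rand
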