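import Pool.Agent.T9h16.Rand.Spread

set_option autoImplicit false
set_option linter.unusedSectionVars false

namespace Pool.Agent.T9h16.Rand

open Finset
open scoped Classical

section
variable {V : Type} [Fintype V]

theorem pow_le_three_half (x : ℝ) (t : ℕ) (hx : 0 ≤ x) (htx : 5 * (t * x) ≤ 2) :
    (1 + x) ^ t ≤ 3 / 2 := by
  have h1 : (1 + x) ^ t ≤ Real.exp (t * x) := by
    have h2 : 1 + x ≤ Real.exp x := by
      have := Real.add_one_le_exp x
      linarith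
    calc (1 + x) ^ t ≤ (Real.exp x) ^ t := pow_le_pow_left₀ (by linarith) h2 t
      _ = Real.exp (t * x) := by rw [← Real.exp_nat_mul]
  have h3 : Real.exp (t * x) ≤ Real.exp (2 / 5) := Real.exp_le_exp.2 (by linarith)
  have h4 : Real.exp (2 / 5) ≤ 3 / 2 := by
    have h5 : Real.exp (2 / 5 : ℝ) = (Real.exp 1) ^ (2 / 5 : ℝ) := by
      rw [← Real.exp_mul]; norm_num
    have h6 : (Real.exp (2 / 5 : ℝ)) ^ 5 = (Real.exp 1) ^ 2 := by
      rw [← Real.exp_nat_mul, ← Real.exp_nat_mul]; norm_num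
    have h7 : (Real.exp 1) ^ 2 ≤ (3 / 2 : ℝ) ^ 5 := by
      have := Real.exp_one_lt_d9
      have h8 : (Real.exp 1) ^ 2 ≤ (2.7182818286 : ℝ) ^ 2 :=
        pow_le_pow_left₀ (Real.exp_pos 1).le this.le 2
      refine h8.trans ?_
      norm_num
    rw [← h6] at h7
    exact le_of_pow_le_pow_left₀ (by norm_num) (by norm_num) h7
  exact h1.trans (h3.trans h4)

/-- The second moment bound for one label. -/
theorem second_moment {α : Type} (𝒢 : Finset α) (hne : 𝒢.Nonempty) (Rf : α → Finset V)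
    (σ : α → V → Bool) (u g : ℕ) (hg : 1 ≤ g) (hu : ∀ S ∈ 𝒢, (Rf S).card = u) (B : ℝ)
    (hB : 0 < B) (hBg : 5 * (g * u) ≤ B)
    (hsp : ∀ S ∈ 𝒢, ∀ Z ⊆ Rf S, ((𝒢.filter fun S' => Z ⊆ Rf S').card : ℝ) * B ^ Z.card ≤
      2 * 𝒢.card) (i : Fin g) :
    ((univ.filter fun ω : V → Fin g × Bool => ∀ S ∈ 𝒢, ∃ v ∈ Rf S, ω v ≠ (i, σ S v)).card : ℝ) * 3
      ≤ 2 * Fintype.card (V → Fin g × Bool) := by
  set a : ℝ := 2 * g with ha
  have hg0 : (1 : ℝ) ≤ g := by exact_mod_cast hg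
  have ha0 : 0 < a := by rw [ha]; linarith
  obtain ⟨N, hN⟩ : ∃ N : ℝ, N = (Fintype.card (V → Fin g × Bool) : ℝ) := ⟨_, rfl⟩
  have hcardA : Fintype.card (Fin g × Bool) = 2 * g := by
    rw [Fintype.card_prod, Fintype.card_fin, Fintype.card_bool]; ring
  have hNa : N = a ^ Fintype.card V := by
    rw [hN, Fintype.card_fun, hcardA, ha]
    push_cast
    ring
  have hN0 : 0 < N := by rw [hNa]; positivity
  set f : α → (V → Fin g × Bool) → ℝ := fun S ω => if ∀ v ∈ Rf S, ω v = (i, σ S v) then 1 else 0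
    with hf
  set X : (V → Fin g × Bool) → ℝ := fun ω => ∑ S ∈ 𝒢, f S ω with hX
  have hfixed : ∀ (T : Finset V) (τ : V → Fin g × Bool),
      ((univ.filter fun ρ : V → Fin g × Bool => ∀ v ∈ T, ρ v = τ v).card : ℝ) * a ^ T.card = N := by
    intro T τ
    have h1 := card_fixed T τ
    rw [hcardA] at h1
    have h1' : (univ.filter fun ρ : V → Fin g × Bool => ∀ v ∈ T, ρ v = τ v).card *
        (2 * g) ^ T.card = (2 * g) ^ Fintype.card V := by
      rw [← h1]
      congr 1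
      apply congrArg
      ext ρ
      simp only [mem_filter]
    have h2 : (((univ.filter fun ρ : V → Fin g × Bool => ∀ v ∈ T, ρ v = τ v).card *
      (2 * g) ^ T.card : ℕ) : ℝ) = (((2 * g) ^ Fintype.card V : ℕ) : ℝ) := by exact_mod_cast h1'
    push_cast at h2
    rw [hNa, ha]
    exact h2
  have hsum1 : ∑ ω, X ω = 𝒢.card * N / a ^ u := by
    rw [hX, sum_comm]
    have h1 : ∀ S ∈ 𝒢, ∑ ω, f S ω = N / a ^ u := by
      intro S hS
      rw [hf]
      simp only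
      rw [sum_boole, eq_div_iff (by positivity), ← hu S hS]
      exact hfixed (Rf S) (fun v => (i, σ S v))
    rw [sum_congr rfl h1, sum_const, nsmul_eq_mul]
    ring
  have hpair : ∀ S ∈ 𝒢, ∀ S' ∈ 𝒢, ∑ ω, f S ω * f S' ω ≤
      N / a ^ (2 * u) * a ^ (Rf S ∩ Rf S').card := by
    intro S hS S' hS'
    have h1 : ∑ ω, f S ω * f S' ω ≤ ((univ.filter fun ρ : V → Fin g × Bool =>
        ∀ v ∈ Rf S ∪ Rf S', ρ v = (i, if v ∈ Rf S then σ S v else σ S' v)).card : ℝ) := by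
      rw [← sum_boole]
      apply sum_le_sum
      intro ω _
      simp only [hf]
      by_cases h2 : ∀ v ∈ Rf S, ω v = (i, σ S v)
      · rw [if_pos h2, one_mul]
        by_cases h3 : ∀ v ∈ Rf S', ω v = (i, σ S' v)
        · rw [if_pos h3, if_pos]
          intro v hv
          by_cases h4 : v ∈ Rf S
          · rw [if_pos h4]; exact h2 v h4
          · rw [if_neg h4]
            exact h3 v ((mem_union.1 hv).resolve_left h4)
        · rw [if_neg h3]
          split_ifs <;> norm_num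
      · rw [if_neg h2, zero_mul]
        split_ifs <;> norm_num
    refine h1.trans ?_
    have h2 := hfixed (Rf S ∪ Rf S') (fun v => (i, if v ∈ Rf S then σ S v else σ S' v))
    have h3 : (Rf S ∪ Rf S').card + (Rf S ∩ Rf S').card = 2 * u := by
      rw [card_union_add_card_inter, hu S hS, hu S' hS']; ring
    have h4 : (0 : ℝ) < a ^ (Rf S ∪ Rf S').card := by positivity
    rw [← h3, pow_add, div_mul_eq_mul_div, le_div_iff₀ (by positivity), ← mul_assoc]
    exact mul_le_mul_of_nonneg_right h2.le (by positivity)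
  have hsum2 : ∑ ω, X ω ^ 2 ≤ N / a ^ (2 * u) * (3 * (𝒢.card : ℝ) ^ 2) := by
    have h1 : ∑ ω, X ω ^ 2 = ∑ S ∈ 𝒢, ∑ S' ∈ 𝒢, ∑ ω, f S ω * f S' ω := by
      have h2 : ∀ ω, X ω ^ 2 = ∑ S ∈ 𝒢, ∑ S' ∈ 𝒢, f S ω * f S' ω := by
        intro ω
        rw [hX]
        simp only
        rw [sq, sum_mul_sum]
      simp only [h2]
      rw [sum_comm]
      apply sum_congr rfl
      intro S _
      rw [sum_comm]
    rw [h1]
    have hNa2 : (0 : ℝ) ≤ N / a ^ (2 * u) := by positivity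
    calc ∑ S ∈ 𝒢, ∑ S' ∈ 𝒢, ∑ ω, f S ω * f S' ω
        ≤ ∑ S ∈ 𝒢, ∑ S' ∈ 𝒢, N / a ^ (2 * u) * a ^ (Rf S ∩ Rf S').card :=
          sum_le_sum fun S hS => sum_le_sum fun S' hS' => hpair S hS S' hS'
      _ ≤ ∑ S ∈ 𝒢, N / a ^ (2 * u) * (3 * 𝒢.card) := by
          apply sum_le_sum
          intro S hS
          rw [← mul_sum]
          apply mul_le_mul_of_nonneg_left _ hNa2
          refine (spread_sum 𝒢 Rf B a 2 ha0.le hB S (hsp S hS)).trans ?_
          rw [hu S hS]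
          have h3 : (1 + a / B) ^ u ≤ 3 / 2 := by
            apply pow_le_three_half _ _ (by positivity)
            have h4 : 5 * ((u : ℝ) * (a / B)) = 2 * (5 * (g * u)) / B := by
              rw [ha]; ring
            rw [h4, div_le_iff₀ hB]
            linarith
          calc 2 * (𝒢.card : ℝ) * (1 + a / B) ^ u ≤ 2 * (𝒢.card : ℝ) * (3 / 2) :=
                mul_le_mul_of_nonneg_left h3 (by positivity)
            _ = 3 * 𝒢.card := by ring
      _ = _ := by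
          rw [sum_const, nsmul_eq_mul]; ring
  set Z := univ.filter fun ω : V → Fin g × Bool => ∀ S ∈ 𝒢, ∃ v ∈ Rf S, ω v ≠ (i, σ S v) with hZ
  have hX0 : ∀ ω ∈ Z, X ω = 0 := by
    intro ω hω
    rw [hZ, mem_filter] at hω
    rw [hX]
    apply sum_eq_zero
    intro S hS
    rw [hf]
    simp only
    rw [if_neg]
    intro h
    obtain ⟨v, hv, hne'⟩ := hω.2 S hS
    exact hne' (h v hv)
  have hsplit : ∑ ω, X ω = ∑ ω ∈ Zᶜ, X ω := by
    rw [← sum_add_sum_compl Z X, sum_eq_zero hX0, zero_add]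
  have hcs : (∑ ω, X ω) ^ 2 ≤ (Zᶜ.card : ℝ) * ∑ ω, X ω ^ 2 := by
    rw [hsplit]
    refine (sq_sum_le_card_mul_sum_sq (s := Zᶜ) (f := X)).trans ?_
    apply mul_le_mul_of_nonneg_left _ (Nat.cast_nonneg _)
    apply sum_le_sum_of_subset_of_nonneg (subset_univ _)
    intro ω _ _
    positivity
  rw [hsum1] at hcs
  have h𝒢 : (0 : ℝ) < 𝒢.card := by exact_mod_cast card_pos.2 hne
  have h5 : N ≤ 3 * (Zᶜ.card : ℝ) := by
    have h6 : ((𝒢.card : ℝ) * N / a ^ u) ^ 2 ≤ (Zᶜ.card : ℝ) *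
        (N / a ^ (2 * u) * (3 * (𝒢.card : ℝ) ^ 2)) :=
      hcs.trans (mul_le_mul_of_nonneg_left hsum2 (Nat.cast_nonneg _))
    have h7 : ((𝒢.card : ℝ) * N / a ^ u) ^ 2 = N * ((𝒢.card : ℝ) ^ 2 * N / a ^ (2 * u)) := by
      rw [div_pow, mul_comm 2 u, pow_mul]
      ring
    have h8 : (Zᶜ.card : ℝ) * (N / a ^ (2 * u) * (3 * (𝒢.card : ℝ) ^ 2)) =
        (3 * (Zᶜ.card : ℝ)) * ((𝒢.card : ℝ) ^ 2 * N / a ^ (2 * u)) := by ring
    rw [h7, h8] at h6
    exact le_of_mul_le_mul_right h6 (by positivity)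
  have h9 : (Z.card : ℝ) + (Zᶜ.card : ℝ) = N := by
    rw [hN, ← Nat.cast_add, card_add_card_compl]
  rw [← hN]
  linarith

end

end Pool.Agent.T9h16.Rand
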