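import Pool.Agent.T9h16.Rand.Approx

/-!
Approximation of monotone straight-line programs on random sets of constraints.
-/

set_option autoImplicit false
set_option linter.unusedSectionVars false

namespace Pool.Agent.T9h16.Rand

open Finset
open scoped Classical
open Pool.Agent.T9h16 (Leaf Avail IsSLP)

section
variable {V E ι : Type} [Fintype V] [Fintype E] [Fintype ι]

/-- `h` has an approximator (a closed family), correct outside of the error sets. -/
def App (sat : (V → Bool) → E → Prop) (R w : ℕ) (PE : Finset (ι → E)) (NE : Finset (V → Bool))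
    (h : Set E → Prop) : Prop :=
  ∃ 𝒜 : Set (Finset E), ClosedF sat R w 𝒜 ∧
    (∀ φ : ι → E, φ ∉ PE → h (Set.range φ) → ∃ A ∈ 𝒜, ∀ e ∈ A, ∃ i, φ i = e) ∧
    (∀ x, x ∉ NE → Acc sat 𝒜 x → h {e | sat x e})

variable {sat : (V → Bool) → E → Prop} {R w : ℕ}

theorem App.mono {PE PE' : Finset (ι → E)} {NE NE' : Finset (V → Bool)}
    {h : Set E → Prop} (hP : PE ⊆ PE') (hN : NE ⊆ NE') (H : App sat R w PE NE h) :
    App sat R w PE' NE' h := by
  obtain ⟨𝒜, h1, h2, h3⟩ := H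
  exact ⟨𝒜, h1, fun φ hφ => h2 φ (fun h => hφ (hP h)), fun χ hχ => h3 χ (fun h => hχ (hN h))⟩

theorem App.congr {PE : Finset (ι → E)} {NE : Finset (V → Bool)}
    {h h' : Set E → Prop} (hh : ∀ z, h' z ↔ h z) (H : App sat R w PE NE h) :
    App sat R w PE NE h' := by
  obtain ⟨𝒜, h1, h2, h3⟩ := H
  exact ⟨𝒜, h1, fun φ hφ h => h2 φ hφ ((hh _).1 h), fun χ hχ h => (hh _).2 (h3 χ hχ h)⟩

/-- Approximation by the closure of a family of small sets. -/
theorem app_closure (𝒜 : Set (Finset E)) (hA : ∀ A ∈ 𝒜, A.card ≤ w)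
    {PE : Finset (ι → E)} {NE : Finset (V → Bool)} {h : Set E → Prop}
    (h2 : ∀ φ : ι → E, φ ∉ PE → h (Set.range φ) → ∃ A ∈ 𝒜, ∀ e ∈ A, ∃ i, φ i = e)
    (h3 : ∀ x, x ∉ NE → Acc sat 𝒜 x → h {e | sat x e}) :
    ∃ N : Finset (V → Bool),
      N.card * 2 ^ R ≤ UU E w * 2 ^ Fintype.card V ∧
      App sat R w PE (NE ∪ N) h := by
  obtain ⟨ℬ, hsub, hcl, herr⟩ := exists_closure sat R w 𝒜 hA
  refine ⟨_, herr, ℬ, hcl, ?_, ?_⟩
  · intro φ hφ hh
    obtain ⟨A, hA', hAφ⟩ := h2 φ hφ hh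
    exact ⟨A, hsub hA', hAφ⟩
  · intro χ hχ hacc
    rw [notMem_union, mem_filter] at hχ
    apply h3 χ hχ.1
    by_contra hnot
    exact hχ.2 ⟨mem_univ _, hacc, hnot⟩

theorem app_leaf (hw : 1 ≤ w) {PE : Finset (ι → E)} {NE : Finset (V → Bool)}
    {h : Set E → Prop} (hh : Leaf h) :
    ∃ N : Finset (V → Bool),
      N.card * 2 ^ R ≤ UU E w * 2 ^ Fintype.card V ∧
      App sat R w PE (NE ∪ N) h := by
  rcases hh with ⟨e, he⟩ | ⟨t, ht⟩
  · apply app_closure {{e}}
    · rintro W rfl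
      rw [card_singleton]
      exact hw
    · intro φ _ hφ
      refine ⟨_, rfl, ?_⟩
      obtain ⟨i, hi⟩ := (he _).1 hφ
      intro v hv
      rw [mem_singleton] at hv
      exact ⟨i, hi.trans hv.symm⟩
    · rintro χ _ ⟨A, rfl, hinj⟩
      rw [he]
      exact hinj e (mem_singleton_self e)
  · by_cases t
    case pos htt =>
      apply app_closure {∅}
      · rintro W rfl; simp
      · intro φ _ _
        exact ⟨∅, rfl, by simp⟩
      · intro χ _ _
        exact (ht _).2 htt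
    case neg htt =>
      apply app_closure ∅
      · intro W hW; exact hW.elim
      · intro φ _ hφ
        exact (htt ((ht _).1 hφ)).elim
      · rintro χ _ ⟨A, hA, -⟩
        exact hA.elim

theorem app_or {PE : Finset (ι → E)} {NE : Finset (V → Bool)}
    {p q : Set E → Prop} (hp : App sat R w PE NE p) (hq : App sat R w PE NE q) :
    ∃ N : Finset (V → Bool),
      N.card * 2 ^ R ≤ UU E w * 2 ^ Fintype.card V ∧
      App sat R w PE (NE ∪ N) (fun z => p z ∨ q z) := by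
  obtain ⟨𝒜₁, h1, h2, h3⟩ := hp
  obtain ⟨𝒜₂, k1, k2, k3⟩ := hq
  apply app_closure (𝒜₁ ∪ 𝒜₂)
  · rintro W (hW | hW)
    · exact h1.1 W hW
    · exact k1.1 W hW
  · rintro φ hφ (h | h)
    · obtain ⟨A, hA, hAφ⟩ := h2 φ hφ h
      exact ⟨A, Or.inl hA, hAφ⟩
    · obtain ⟨A, hA, hAφ⟩ := k2 φ hφ h
      exact ⟨A, Or.inr hA, hAφ⟩
  · rintro χ hχ ⟨A, hA | hA, hinj⟩
    · exact Or.inl (h3 χ hχ ⟨A, hA, hinj⟩)
    · exact Or.inr (k3 χ hχ ⟨A, hA, hinj⟩)

theorem app_and (hE : 0 < Fintype.card E) (D : ℕ)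
    (hD : ∀ 𝒜 : Set (Finset E), ClosedF sat R w 𝒜 → FewMin D 𝒜)
    (hρ : 2 * (D : ℝ) * ((Fintype.card ι : ℝ) / Fintype.card E) ≤ 1 / 4)
    {PE : Finset (ι → E)} {NE : Finset (V → Bool)} {p q : Set E → Prop}
    (hp : App sat R w PE NE p) (hq : App sat R w PE NE q) :
    ∃ P : Finset (ι → E), P.card * 2 ^ w ≤ Fintype.card E ^ Fintype.card ι ∧
      App sat R w (PE ∪ P) NE (fun z => p z ∧ q z) := by
  obtain ⟨𝒜₁, h1, h2, h3⟩ := hp
  obtain ⟨𝒜₂, k1, k2, k3⟩ := hq
  refine ⟨_, card_pairs hE D h1.1 k1.1 (hD _ h1) (hD _ k1) hρ, 𝒜₁ ∩ 𝒜₂, h1.inter k1, ?_, ?_⟩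
  · rintro φ hφ ⟨hpz, hqz⟩
    rw [notMem_union] at hφ
    obtain ⟨A₁, hA₁, hφ₁⟩ := h2 φ hφ.1 hpz
    obtain ⟨A₂, hA₂, hφ₂⟩ := k2 φ hφ.1 hqz
    obtain ⟨B₁, hB₁, hBA₁⟩ := exists_min hA₁
    obtain ⟨B₂, hB₂, hBA₂⟩ := exists_min hA₂
    have hBφ : ∀ v ∈ B₁ ∪ B₂, ∃ i, φ i = v := by
      intro v hv
      rcases mem_union.1 hv with h | h
      · exact hφ₁ v (hBA₁ h)
      · exact hφ₂ v (hBA₂ h)
    have hm₁ : B₁ ∈ 𝒜₁ := by
      have := hB₁
      rw [MinF, mem_filter] at this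
      exact this.2.1
    have hm₂ : B₂ ∈ 𝒜₂ := by
      have := hB₂
      rw [MinF, mem_filter] at this
      exact this.2.1
    by_cases hcard : w < (B₁ ∪ B₂).card
    · exfalso
      apply hφ.2
      rw [mem_filter]
      exact ⟨mem_univ _, B₁, hB₁, B₂, hB₂, hcard, hBφ⟩
    · have hle : (B₁ ∪ B₂).card ≤ w := by omega
      exact ⟨B₁ ∪ B₂, ⟨h1.up hm₁ subset_union_left hle, k1.up hm₂ subset_union_right hle⟩, hBφ⟩
  · rintro χ hχ ⟨A, hA, hinj⟩
    exact ⟨h3 χ hχ ⟨A, hA.1, hinj⟩, k3 χ hχ ⟨A, hA.2, hinj⟩⟩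

/-- Approximation of a whole straight-line program. -/
theorem app_slp (hw : 1 ≤ w) (hE : 0 < Fintype.card E) (D : ℕ)
    (hD : ∀ 𝒜 : Set (Finset E), ClosedF sat R w 𝒜 → FewMin D 𝒜)
    (hρ : 2 * (D : ℝ) * ((Fintype.card ι : ℝ) / Fintype.card E) ≤ 1 / 4)
    (g : ℕ → Set E → Prop) (s : ℕ) (hg : IsSLP g s) :
    ∃ (PE : Finset (ι → E)) (NE : Finset (V → Bool)),
      PE.card * 2 ^ w ≤ s * Fintype.card E ^ Fintype.card ι ∧
      NE.card * 2 ^ R ≤ 3 * s * (UU E w * 2 ^ Fintype.card V) ∧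
      ∀ i < s, App sat R w PE NE (g i) := by
  induction s with
  | zero => exact ⟨∅, ∅, by simp, by simp, by intro i hi; omega⟩
  | succ s ih =>
    obtain ⟨PE, NE, hPE, hNE, happ⟩ := ih (fun i hi => hg i (by omega))
    set X := UU E w * 2 ^ Fintype.card V with hX
    set Y := Fintype.card E ^ Fintype.card ι with hY
    have havail : ∀ p, Avail g s p → ∀ NE' : Finset (V → Bool),
        ∃ N : Finset (V → Bool), N.card * 2 ^ R ≤ X ∧
          App sat R w PE (NE ∪ NE' ∪ N) p := by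
      rintro p (hp | ⟨j, hj, hp⟩) NE'
      · exact app_leaf hw hp
      · refine ⟨∅, by simp, ?_⟩
        rw [union_empty]
        exact ((happ j hj).mono subset_rfl subset_union_left).congr hp
    have hP1 : PE.card * 2 ^ w ≤ (s + 1) * Y :=
      hPE.trans (Nat.mul_le_mul_right _ (by omega))
    rcases hg s (by omega) with hleaf | ⟨p, q, hp, hq, hgs⟩
    · obtain ⟨N, hN, hap⟩ := app_leaf (sat := sat) (R := R) (w := w)
        (PE := PE) (NE := NE) hw hleaf
      refine ⟨PE, NE ∪ N, hP1, ?_, ?_⟩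
      · calc (NE ∪ N).card * 2 ^ R ≤ (NE.card + N.card) * 2 ^ R :=
              Nat.mul_le_mul_right _ (card_union_le _ _)
          _ = NE.card * 2 ^ R + N.card * 2 ^ R := by ring
          _ ≤ 3 * s * X + X := Nat.add_le_add hNE hN
          _ ≤ 3 * (s + 1) * X := by nlinarith
      · intro i hi
        rcases Nat.lt_succ_iff_lt_or_eq.1 hi with hi | rfl
        · exact (happ i hi).mono subset_rfl subset_union_left
        · exact hap
    · obtain ⟨N₁, hN₁, hap₁⟩ := havail p hp ∅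
      obtain ⟨N₂, hN₂, hap₂⟩ := havail q hq N₁
      have hap₁' : App sat R w PE (NE ∪ N₁ ∪ N₂) p := by
        refine hap₁.mono subset_rfl ?_
        rw [union_empty]
        exact subset_union_left
      have hNN : ∀ N₃ : Finset (V → Bool), N₃.card * 2 ^ R ≤ X →
          (NE ∪ N₁ ∪ N₂ ∪ N₃).card * 2 ^ R ≤ 3 * (s + 1) * X := by
        intro N₃ hN₃
        calc (NE ∪ N₁ ∪ N₂ ∪ N₃).card * 2 ^ R
            ≤ (NE.card + N₁.card + N₂.card + N₃.card) * 2 ^ R := by
              apply Nat.mul_le_mul_right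
              have e1 := card_union_le NE N₁
              have e2 := card_union_le (NE ∪ N₁) N₂
              have e3 := card_union_le (NE ∪ N₁ ∪ N₂) N₃
              omega
          _ = NE.card * 2 ^ R + N₁.card * 2 ^ R + N₂.card * 2 ^ R + N₃.card * 2 ^ R := by ring
          _ ≤ 3 * s * X + X + X + X := by omega
          _ = 3 * (s + 1) * X := by ring
      have hsubN : NE ⊆ NE ∪ N₁ ∪ N₂ := subset_union_left.trans subset_union_left
      rcases hgs with hgs | hgs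
      · obtain ⟨P, hP, hap⟩ := app_and hE D hD hρ hap₁' hap₂
        refine ⟨PE ∪ P, NE ∪ N₁ ∪ N₂, ?_, ?_, ?_⟩
        · calc (PE ∪ P).card * 2 ^ w ≤ (PE.card + P.card) * 2 ^ w :=
                Nat.mul_le_mul_right _ (card_union_le _ _)
            _ = PE.card * 2 ^ w + P.card * 2 ^ w := by ring
            _ ≤ s * Y + Y := Nat.add_le_add hPE hP
            _ = (s + 1) * Y := by ring
        · have := hNN ∅ (by simp)
          rwa [union_empty] at this
        · intro i hi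
          rcases Nat.lt_succ_iff_lt_or_eq.1 hi with hi | rfl
          · exact (happ i hi).mono subset_union_left hsubN
          · exact hap.congr hgs
      · obtain ⟨N₃, hN₃, hap⟩ := app_or hap₁' hap₂
        refine ⟨PE, NE ∪ N₁ ∪ N₂ ∪ N₃, hP1, hNN N₃ hN₃, ?_⟩
        intro i hi
        rcases Nat.lt_succ_iff_lt_or_eq.1 hi with hi | rfl
        · exact (happ i hi).mono subset_rfl (hsubN.trans subset_union_left)
        · exact hap.congr hgs

/-- A sound monotone straight-line program accepts a random set of constraints only if it contains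
a small unsatisfiable set, up to a small error. -/
theorem structure_slp {vars : E → Finset V} {k : ℕ} (hk : ∀ e, (vars e).card ≤ k)
    (hdep : ∀ e x y, (∀ v ∈ vars e, x v = y v) → sat x e → sat y e)
    (hw : 1 ≤ w) (hE : 0 < Fintype.card E) (D : ℕ)
    (hD : ∀ 𝒜 : Set (Finset E), ClosedF sat R w 𝒜 → FewMin D 𝒜)
    (hρ : 2 * (D : ℝ) * ((Fintype.card ι : ℝ) / Fintype.card E) ≤ 1 / 4)
    (g : ℕ → Set E → Prop) (s : ℕ) (hg : IsSLP g s) (o : Set E → Prop) (ho : Avail g s o)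
    (hR : 2 ^ (k * w + 1) * ((3 * s + 1) * UU E w) < 2 ^ R)
    (hsound : (univ.filter fun x : V → Bool => o {e | sat x e}).card * 2 ^ (k * w + 1) ≤
      2 ^ Fintype.card V) :
    (univ.filter fun φ : ι → E => o (Set.range φ) ∧
      ∀ S : Finset E, S.card ≤ w → (∀ e ∈ S, ∃ i, φ i = e) → ∃ x, ∀ e ∈ S, sat x e).card * 2 ^ w ≤
      s * Fintype.card E ^ Fintype.card ι := by
  obtain ⟨PE, NE, hPE, hNE, happ⟩ := app_slp (ι := ι) hw hE D hD hρ g s hg
  obtain ⟨N, hN, hoapp⟩ : ∃ N : Finset (V → Bool),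
      N.card * 2 ^ R ≤ UU E w * 2 ^ Fintype.card V ∧ App sat R w PE (NE ∪ N) o := by
    rcases ho with ho | ⟨j, hj, ho⟩
    · exact app_leaf hw ho
    · refine ⟨∅, by simp, ?_⟩
      rw [union_empty]
      exact (happ j hj).congr ho
  obtain ⟨𝒜, h1, h2, h3⟩ := hoapp
  have hunsat : ∀ S ∈ 𝒜, ¬ ∃ x, ∀ e ∈ S, sat x e := by
    rintro S hS ⟨x₀, hx₀⟩
    have hsub : (univ.filter fun x : V → Bool => ∀ v ∈ VS vars S, x v = x₀ v) ⊆ (NE ∪ N) ∪
        univ.filter fun x : V → Bool => o {e | sat x e} := by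
      intro x hx
      rw [mem_filter] at hx
      rw [mem_union]
      by_contra hnot
      rw [not_or] at hnot
      refine hnot.2 ?_
      rw [mem_filter]
      refine ⟨mem_univ _, h3 x hnot.1 ⟨S, hS, ?_⟩⟩
      intro e he
      apply hdep e x₀ x _ (hx₀ e he)
      intro v hv
      exact (hx.2 v (mem_VS.2 ⟨e, he, hv⟩)).symm
    have h4 := card_fixed (VS vars S) x₀
    rw [Fintype.card_bool] at h4
    have h5 : (VS vars S).card ≤ k * w :=
      (card_VS_le hk S).trans (Nat.mul_le_mul_left _ (h1.1 S hS))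
    obtain ⟨b, hb⟩ : ∃ b, b = (univ.filter fun x : V → Bool => o {e | sat x e}).card := ⟨_, rfl⟩
    rw [← hb] at hsound
    have h6 : 2 ^ Fintype.card V ≤ ((NE ∪ N).card + b) * 2 ^ (k * w) := by
      rw [← h4, hb]
      refine Nat.mul_le_mul (le_trans (card_le_card ?_) (card_union_le _ _))
        (Nat.pow_le_pow_right (by norm_num) h5)
      intro x hx
      apply hsub
      simp only [mem_filter, mem_univ, true_and] at hx ⊢
      exact hx
    have h7 : (NE ∪ N).card * 2 ^ R ≤ ((3 * s + 1) * UU E w) * 2 ^ Fintype.card V := by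
      calc (NE ∪ N).card * 2 ^ R ≤ (NE.card + N.card) * 2 ^ R :=
            Nat.mul_le_mul_right _ (card_union_le _ _)
        _ = NE.card * 2 ^ R + N.card * 2 ^ R := by ring
        _ ≤ 3 * s * (UU E w * 2 ^ Fintype.card V) + UU E w * 2 ^ Fintype.card V :=
            Nat.add_le_add hNE hN
        _ = _ := by ring
    have h8 : 2 ^ Fintype.card V ≤ 2 ^ (k * w + 1) * (NE ∪ N).card := by
      have e1 : b * 2 ^ (k * w + 1) = 2 * (b * 2 ^ (k * w)) := by
        rw [pow_succ]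
        ring
      have e2 : ((NE ∪ N).card + b) * 2 ^ (k * w) =
          (NE ∪ N).card * 2 ^ (k * w) + b * 2 ^ (k * w) := by ring
      have e3 : 2 ^ (k * w + 1) * (NE ∪ N).card = 2 * ((NE ∪ N).card * 2 ^ (k * w)) := by
        rw [pow_succ]
        ring
      omega
    have h9 : 2 ^ Fintype.card V * 2 ^ R ≤
        2 ^ Fintype.card V * (2 ^ (k * w + 1) * ((3 * s + 1) * UU E w)) := by
      calc 2 ^ Fintype.card V * 2 ^ R ≤ (2 ^ (k * w + 1) * (NE ∪ N).card) * 2 ^ R :=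
            Nat.mul_le_mul_right _ h8
        _ = 2 ^ (k * w + 1) * ((NE ∪ N).card * 2 ^ R) := by ring
        _ ≤ 2 ^ (k * w + 1) * (((3 * s + 1) * UU E w) * 2 ^ Fintype.card V) :=
            Nat.mul_le_mul_left _ h7
        _ = _ := by ring
    have := Nat.le_of_mul_le_mul_left h9 (by positivity)
    omega
  refine le_trans (Nat.mul_le_mul_right _ (card_le_card ?_)) hPE
  intro φ hφ
  rw [mem_filter] at hφ
  obtain ⟨-, ho1, ho2⟩ := hφ
  by_contra hnot
  obtain ⟨A, hA, hAφ⟩ := h2 φ hnot ho1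
  exact hunsat A hA (ho2 A (h1.1 A hA) hAφ)

/-- A random set of constraints rarely contains a small unsatisfiable set. -/
theorem small_unsat [Nonempty V] {vars : E → Finset V} {k : ℕ} (sgn : E → V → Bool)
    (hsat : ∀ e v x, v ∈ vars e → x v = sgn e v → sat x e)
    (hcount : ∀ W : Finset V, (univ.filter fun e => vars e ⊆ W).card ≤ (2 * W.card) ^ k)
    (hE : 0 < Fintype.card E)
    (hρ : (Fintype.card V : ℝ) * (2 * (w : ℝ)) ^ k *
      ((Fintype.card ι : ℝ) / Fintype.card E) ≤ 1 / 4) :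
    3 * (Fintype.card V * (univ.filter fun φ : ι → E => ∃ S : Finset E, S.card ≤ w ∧
      (∀ e ∈ S, ∃ i, φ i = e) ∧ ¬ ∃ x : V → Bool, ∀ e ∈ S, sat x e).card) ≤
      Fintype.card E ^ Fintype.card ι := by
  obtain ⟨ρ, hρdef⟩ : ∃ ρ : ℝ, ρ = (Fintype.card ι : ℝ) / Fintype.card E := ⟨_, rfl⟩
  have hρ0 : 0 ≤ ρ := by rw [hρdef]; positivity
  rw [← hρdef] at hρ
  have hV0 : 0 < Fintype.card V := Fintype.card_pos
  have hV1 : (0 : ℝ) < Fintype.card V := by exact_mod_cast hV0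
  set X := (Fintype.card E : ℝ) ^ Fintype.card ι with hX
  have hX0 : 0 ≤ X := by positivity
  set 𝒬 := (univ : Finset (Finset E)).filter fun Q =>
    Q.card ≤ w ∧ (VS vars Q \ (∅ : Finset V)).card < Q.card with h𝒬
  have hsub : (univ.filter fun φ : ι → E => ∃ S : Finset E, S.card ≤ w ∧
      (∀ e ∈ S, ∃ i, φ i = e) ∧ ¬ ∃ x : V → Bool, ∀ e ∈ S, sat x e) ⊆
      𝒬.biUnion fun Q => univ.filter fun φ : ι → E => ∀ z ∈ Q, ∃ i, φ i = z := by
    intro φ hφ
    rw [mem_filter] at hφ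
    obtain ⟨-, S, hSw, hSφ, hS⟩ := hφ
    rcases exists_rep_or_viol (vars := vars) S (∅ : Finset V) with ⟨rep, h1, h2⟩ | ⟨Q, hQS, hQ⟩
    · exfalso
      apply hS
      refine ⟨fun v => if h : ∃ e ∈ S, rep e = v then sgn h.choose v else true, ?_⟩
      intro e he
      apply hsat e (rep e) _ (h1 e he).1
      have h3 : ∃ e' ∈ S, rep e' = rep e := ⟨e, he, rfl⟩
      rw [dif_pos h3]
      have h4 := h3.choose_spec
      rw [h2 (mem_coe.2 h4.1) (mem_coe.2 he) h4.2]
    · rw [mem_biUnion]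
      refine ⟨Q, ?_, ?_⟩
      · rw [h𝒬, mem_filter]
        exact ⟨mem_univ _, (card_le_card hQS).trans hSw, hQ⟩
      · rw [mem_filter]
        exact ⟨mem_univ _, fun z hz => hSφ z (hQS hz)⟩
  have h1 : ((univ.filter fun φ : ι → E => ∃ S : Finset E, S.card ≤ w ∧
      (∀ e ∈ S, ∃ i, φ i = e) ∧ ¬ ∃ x : V → Bool, ∀ e ∈ S, sat x e).card : ℝ) ≤
      ∑ Q ∈ 𝒬, X * ρ ^ Q.card := by
    have h2 : ((univ.filter fun φ : ι → E => ∃ S : Finset E, S.card ≤ w ∧
        (∀ e ∈ S, ∃ i, φ i = e) ∧ ¬ ∃ x : V → Bool, ∀ e ∈ S, sat x e).card : ℝ) ≤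
        ∑ Q ∈ 𝒬, ((univ.filter fun φ : ι → E => ∀ z ∈ Q, ∃ i, φ i = z).card : ℝ) := by
      exact_mod_cast (card_le_card hsub).trans card_biUnion_le
    refine h2.trans (sum_le_sum fun Q _ => ?_)
    rw [hX, hρdef]
    exact card_contain_real hE Q
  have hmaps : ∀ Q ∈ 𝒬, Q.card - 1 ∈ range w := by
    intro Q hQ𝒬
    rw [h𝒬, mem_filter] at hQ𝒬
    rw [mem_range]
    omega
  have h2 : (∑ Q ∈ 𝒬, X * ρ ^ Q.card) * Fintype.card V ≤ X * (1 / 3) := by
    rw [← sum_fiberwise_of_maps_to hmaps, sum_mul]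
    refine le_trans (sum_le_sum (g := fun q => X * (1 / 4 : ℝ) ^ (q + 1)) ?_) ?_
    · intro q hq
      rw [mem_range] at hq
      have h5 : ∀ Q ∈ 𝒬.filter fun Q => Q.card - 1 = q, X * ρ ^ Q.card = X * ρ ^ (q + 1) := by
        intro Q hQ𝒬
        rw [mem_filter, h𝒬, mem_filter] at hQ𝒬
        congr 2
        omega
      rw [sum_congr rfl h5, sum_const, nsmul_eq_mul]
      have h6 : (𝒬.filter fun Q => Q.card - 1 = q).card ≤
          Fintype.card V ^ q * ((2 * w) ^ k) ^ (q + 1) := by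
        have h7 := card_viol (vars := vars) hcount ∅ w (q + 1) (by
          rw [card_empty]
          omega) (by omega)
        rw [Nat.add_sub_cancel] at h7
        refine le_trans (card_le_card ?_) h7
        intro Q hQ𝒬
        rw [mem_filter, h𝒬, mem_filter] at hQ𝒬
        rw [mem_filter]
        refine ⟨mem_univ _, by omega, by omega⟩
      have h7 : ((𝒬.filter fun Q => Q.card - 1 = q).card : ℝ) ≤
          (Fintype.card V : ℝ) ^ q * ((2 * (w : ℝ)) ^ k) ^ (q + 1) := by exact_mod_cast h6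
      calc ((𝒬.filter fun Q => Q.card - 1 = q).card : ℝ) * (X * ρ ^ (q + 1)) * Fintype.card V
          ≤ ((Fintype.card V : ℝ) ^ q * ((2 * (w : ℝ)) ^ k) ^ (q + 1)) * (X * ρ ^ (q + 1)) *
            Fintype.card V := by
            apply mul_le_mul_of_nonneg_right _ hV1.le
            exact mul_le_mul_of_nonneg_right h7 (by positivity)
        _ = X * ((Fintype.card V : ℝ) * (2 * (w : ℝ)) ^ k * ρ) ^ (q + 1) := by
            rw [mul_pow, mul_pow]
            ring
        _ ≤ X * (1 / 4 : ℝ) ^ (q + 1) := by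
            apply mul_le_mul_of_nonneg_left _ hX0
            exact pow_le_pow_left₀ (by positivity) hρ _
    · rw [← mul_sum]
      exact mul_le_mul_of_nonneg_left (geo_quarter w) hX0
  have h3 : ((univ.filter fun φ : ι → E => ∃ S : Finset E, S.card ≤ w ∧
      (∀ e ∈ S, ∃ i, φ i = e) ∧ ¬ ∃ x : V → Bool, ∀ e ∈ S, sat x e).card : ℝ) *
      Fintype.card V ≤ X * (1 / 3) :=
    (mul_le_mul_of_nonneg_right h1 hV1.le).trans h2
  have h4 : 3 * ((Fintype.card V : ℝ) * ((univ.filter fun φ : ι → E => ∃ S : Finset E,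
      S.card ≤ w ∧ (∀ e ∈ S, ∃ i, φ i = e) ∧ ¬ ∃ x : V → Bool, ∀ e ∈ S, sat x e).card : ℝ)) ≤
      X := by linarith
  rw [hX] at h4
  exact_mod_cast h4

end

end Pool.Agent.T9h16.Rand
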