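import Mathlib

/-!
Spread families of partial assignments: a random assignment extends one of them except with
exponentially small probability.
-/

set_option autoImplicit false

namespace Pool.Agent.T9h16.Rand

open Finset
open scoped Classical

section
variable {V : Type} [Fintype V]

/-- The number of functions with prescribed values on a set. -/
theorem card_fixed {A : Type} [Fintype A] (T : Finset V) (τ : V → A) :
    (univ.filter fun ρ : V → A => ∀ v ∈ T, ρ v = τ v).card * Fintype.card A ^ T.card =
      Fintype.card A ^ Fintype.card V := by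
  have h1 : (univ.filter fun ρ : V → A => ∀ v ∈ T, ρ v = τ v) =
      Fintype.piFinset (fun v => if v ∈ T then ({τ v} : Finset A) else univ) := by
    ext ρ
    simp only [mem_filter, mem_univ, true_and, Fintype.mem_piFinset]
    constructor
    · intro h v
      split_ifs with hv
      · rw [mem_singleton]; exact h v hv
      · exact mem_univ _
    · intro h v hv
      have := h v
      rw [if_pos hv, mem_singleton] at this
      exact this
  rw [h1, Fintype.card_piFinset]
  calc (∏ v : V, (if v ∈ T then ({τ v} : Finset A) else univ).card) * Fintype.card A ^ T.card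
      = (∏ v : V, if v ∈ T then 1 else Fintype.card A) *
          (∏ v : V, if v ∈ T then Fintype.card A else 1) := by
        congr 1
        · apply prod_congr rfl
          intro v _
          split_ifs
          · exact card_singleton _
          · exact card_univ
        · rw [prod_ite_mem, univ_inter, prod_const]
    _ = ∏ _v : V, Fintype.card A := by
        rw [← prod_mul_distrib]
        apply prod_congr rfl
        intro v _
        split_ifs <;> simp
    _ = Fintype.card A ^ Fintype.card V := by
        rw [prod_const, card_univ]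

/-- Independence of events that depend on disjoint sets of coordinates. -/
theorem indep {A : Type} [Fintype A] (C : Finset V) (P Q : (V → A) → Prop)
    (hP : ∀ χ χ', (∀ v ∈ C, χ v = χ' v) → P χ → P χ')
    (hQ : ∀ χ χ', (∀ v ∉ C, χ v = χ' v) → Q χ → Q χ') :
    (univ.filter fun χ : V → A => Q χ ∧ P χ).card * Fintype.card (V → A) =
      (univ.filter Q).card * (univ.filter P).card := by
  set mix : (V → A) → (V → A) → (V → A) := fun χ χ' v => if v ∈ C then χ' v else χ v
    with hmix
  have hin : ∀ χ χ', ∀ v ∈ C, mix χ χ' v = χ' v := fun χ χ' v hv => if_pos hv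
  have hout : ∀ χ χ', ∀ v ∉ C, mix χ χ' v = χ v := fun χ χ' v hv => if_neg hv
  rw [← card_univ, ← card_product, ← card_product]
  refine card_bij' (fun q _ => (mix q.1 q.2, mix q.2 q.1)) (fun q _ => (mix q.1 q.2, mix q.2 q.1))
    ?_ ?_ ?_ ?_
  · rintro ⟨χ, χ'⟩ hq
    rw [mem_product, mem_filter] at hq
    simp only at hq
    obtain ⟨⟨_, h2, h3⟩, _⟩ := hq
    rw [mem_product, mem_filter, mem_filter]
    refine ⟨⟨mem_univ _, ?_⟩, ⟨mem_univ _, ?_⟩⟩
    · exact hQ χ _ (fun v hv => (hout χ χ' v hv).symm) h2
    · exact hP χ _ (fun v hv => (hin χ' χ v hv).symm) h3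
  · rintro ⟨χ, χ'⟩ hq
    rw [mem_product, mem_filter, mem_filter] at hq
    simp only at hq
    obtain ⟨⟨_, h2⟩, _, h4⟩ := hq
    rw [mem_product, mem_filter]
    refine ⟨⟨mem_univ _, ?_, ?_⟩, mem_univ _⟩
    · exact hQ χ _ (fun v hv => (hout χ χ' v hv).symm) h2
    · exact hP χ' _ (fun v hv => (hin χ χ' v hv).symm) h4
  · rintro ⟨χ, χ'⟩ _
    simp only [Prod.mk.injEq]
    constructor <;> funext v <;> simp only [hmix] <;> split_ifs <;> rfl
  · rintro ⟨χ, χ'⟩ _
    simp only [Prod.mk.injEq]
    constructor <;> funext v <;> simp only [hmix] <;> split_ifs <;> rfl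

/-- Counting intersections in a spread family. -/
theorem spread_sum {α : Type} (𝒢 : Finset α) (Rf : α → Finset V) (B x c : ℝ)
    (hx : 0 ≤ x) (hB : 0 < B) (S : α)
    (hsp : ∀ Z : Finset V, Z ⊆ Rf S → ((𝒢.filter fun S' => Z ⊆ Rf S').card : ℝ) * B ^ Z.card ≤
      c * 𝒢.card) :
    ∑ S' ∈ 𝒢, x ^ (Rf S ∩ Rf S').card ≤ c * 𝒢.card * (1 + x / B) ^ (Rf S).card := by
  have hxB : 0 ≤ x / B := div_nonneg hx hB.le
  calc ∑ S' ∈ 𝒢, x ^ (Rf S ∩ Rf S').card
      ≤ ∑ S' ∈ 𝒢, ∑ Z ∈ (Rf S).powerset, (if Z ⊆ Rf S' then x ^ Z.card else 0) := by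
        apply sum_le_sum
        intro S' _
        have hmem : Rf S ∩ Rf S' ∈ (Rf S).powerset := mem_powerset.2 inter_subset_left
        refine le_trans (le_of_eq ?_) (single_le_sum (f := fun Z =>
          if Z ⊆ Rf S' then x ^ Z.card else 0) (fun Z _ => ?_) hmem)
        · rw [if_pos inter_subset_right]
        · split_ifs
          · positivity
          · exact le_rfl
    _ = ∑ Z ∈ (Rf S).powerset, x ^ Z.card * ((𝒢.filter fun S' => Z ⊆ Rf S').card : ℝ) := by
        rw [sum_comm]
        apply sum_congr rfl
        intro Z _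
        rw [← sum_filter, sum_const, nsmul_eq_mul]
        ring
    _ ≤ ∑ Z ∈ (Rf S).powerset, c * 𝒢.card * ((x / B) ^ Z.card * 1 ^ ((Rf S).card - Z.card)) := by
        apply sum_le_sum
        intro Z hZ
        rw [mem_powerset] at hZ
        have h1 := hsp Z hZ
        have hBz : (0 : ℝ) < B ^ Z.card := by positivity
        rw [one_pow, mul_one, div_pow]
        have h2 : x ^ Z.card * ((𝒢.filter fun S' => Z ⊆ Rf S').card : ℝ) =
            (x ^ Z.card / B ^ Z.card) *
              (((𝒢.filter fun S' => Z ⊆ Rf S').card : ℝ) * B ^ Z.card) := by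
          field_simp
        rw [h2, mul_comm (c * (𝒢.card : ℝ))]
        exact mul_le_mul_of_nonneg_left h1 (by positivity)
    _ = c * 𝒢.card * (1 + x / B) ^ (Rf S).card := by
        rw [← mul_sum, sum_pow_mul_eq_add_pow, add_comm (x / B) 1]

end

end Pool.Agent.T9h16.Rand
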