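import Pool.Agent.T9h16.Rand.Build

/-!
The 2-SAT theorem and monotone circuits for reachability.
-/

set_option autoImplicit false
set_option linter.unusedSectionVars false

namespace Pool.Agent.T9h16.Rand

open Finset
open scoped Classical

/-- The complementary literal. -/
def neg {X : Type} (a : X × Bool) : X × Bool := (a.1, !a.2)

theorem neg_neg' {X : Type} (a : X × Bool) : neg (neg a) = a := by
  simp [neg]

theorem val_neg {X : Type} (x : X → Bool) (a : X × Bool) :
    x (neg a).1 = (neg a).2 ↔ ¬ x a.1 = a.2 := by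
  unfold neg
  simp only
  cases x a.1 <;> cases a.2 <;> simp

/-- The 2-SAT theorem: a reflexive, transitive, contrapositive relation without contradictory
variable has a model. -/
theorem two_sat {X : Type} [Fintype X] (P : X × Bool → X × Bool → Prop) (hrefl : ∀ a, P a a)
    (htrans : ∀ a b c, P a b → P b c → P a c) (hcontra : ∀ a b, P a b → P (neg b) (neg a))
    (hno : ∀ a, ¬ (P a (neg a) ∧ P (neg a) a)) :
    ∃ x : X → Bool, ∀ a b, P a b → x a.1 = a.2 → x b.1 = b.2 := by
  obtain ⟨L, hL, hmax⟩ := exists_max_image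
    (univ.filter fun L : Finset (X × Bool) => (∀ a ∈ L, ∀ b, P a b → b ∈ L) ∧
      ∀ a ∈ L, neg a ∉ L) Finset.card ⟨∅, by simp⟩
  rw [mem_filter] at hL
  obtain ⟨-, hcl, hcons⟩ := hL
  -- the step
  have hstep : ∀ a : X × Bool, ¬ P a (neg a) → a ∈ L ∨ neg a ∈ L := by
    intro a ha
    by_contra hcon
    rw [not_or] at hcon
    set L' := L ∪ univ.filter fun b => P a b with hL'
    have hmem : ∀ b, b ∈ L' ↔ b ∈ L ∨ P a b := by
      intro b
      rw [hL', mem_union, mem_filter]
      simp
    have hgood : L' ∈ univ.filter fun L : Finset (X × Bool) =>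
        (∀ a ∈ L, ∀ b, P a b → b ∈ L) ∧ ∀ a ∈ L, neg a ∉ L := by
      rw [mem_filter]
      refine ⟨mem_univ _, ?_, ?_⟩
      · intro b hb c hbc
        rw [hmem] at hb ⊢
        rcases hb with hb | hb
        · exact Or.inl (hcl b hb c hbc)
        · exact Or.inr (htrans a b c hb hbc)
      · intro b hb hnb
        rw [hmem] at hb hnb
        rcases hb with hb | hb
        · rcases hnb with hnb | hnb
          · exact hcons b hb hnb
          · have h1 := hcontra _ _ hnb
            rw [neg_neg'] at h1
            exact hcon.2 (hcl b hb _ h1)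
        · rcases hnb with hnb | hnb
          · have h1 := hcontra _ _ hb
            exact hcon.2 (hcl _ hnb _ h1)
          · have h1 := hcontra _ _ hnb
            rw [neg_neg'] at h1
            exact ha (htrans a b _ hb h1)
    have h2 := hmax L' hgood
    have h3 : L ⊂ L' := by
      refine ⟨subset_union_left, fun h => hcon.1 (h ?_)⟩
      exact (hmem a).2 (Or.inr (hrefl a))
    have h4 := card_lt_card h3
    omega
  have hdec : ∀ a : X × Bool, a ∈ L ∨ neg a ∈ L := by
    intro a
    by_cases ha : P a (neg a)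
    · have h1 : ¬ P (neg a) (neg (neg a)) := by
        rw [neg_neg']
        exact fun h => hno a ⟨ha, h⟩
      have h2 := hstep (neg a) h1
      rw [neg_neg'] at h2
      exact h2.symm
    · exact hstep a ha
  have hx : ∀ a : X × Bool, decide ((a.1, true) ∈ L) = a.2 ↔ a ∈ L := by
    rintro ⟨v, b⟩
    cases b
    · simp only [decide_eq_false_iff_not]
      constructor
      · intro h
        have h1 := hdec (v, false)
        simp only [neg, Bool.not_false] at h1
        exact h1.resolve_right h
      · intro h h'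
        exact hcons _ h (by simpa [neg] using h')
    · simp
  refine ⟨fun v => decide ((v, true) ∈ L), ?_⟩
  intro a b hab ha
  exact (hx b).2 (hcl a ((hx a).1 ha) b hab)

/-- A monotone sequence of sets which is constant after its first repetition. -/
theorem stabilize {Y : Type} [Fintype Y] (A : ℕ → Finset Y) (hmono : ∀ i, A i ⊆ A (i + 1))
    (hrep : ∀ i, A i = A (i + 1) → A (i + 1) = A (i + 2)) :
    A (Fintype.card Y) = A (Fintype.card Y + 1) := by
  by_contra hne
  have h1 : ∀ d i, i + d = Fintype.card Y → A i ≠ A (i + 1) := by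
    intro d
    induction d with
    | zero =>
      intro i hi h
      rw [add_zero] at hi
      rw [hi] at h
      exact hne h
    | succ d ih =>
      intro i hi h
      exact ih (i + 1) (by omega) (hrep i h)
  have h2 : ∀ i, i ≤ Fintype.card Y + 1 → i ≤ (A i).card := by
    intro i
    induction i with
    | zero => intro _; exact Nat.zero_le _
    | succ i ih =>
      intro hi
      have h3 := ih (by omega)
      have h4 : A i ⊂ A (i + 1) :=
        (hmono i).ssubset_of_ne (h1 (Fintype.card Y - i) i (by omega))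
      have h5 := card_lt_card h4
      omega
  have h3 := h2 (Fintype.card Y + 1) le_rfl
  have h4 := card_le_univ (A (Fintype.card Y + 1))
  omega

/-- Iterated composition of a reflexive relation. -/
def PP {Y : Type} (B : Y → Y → Prop) : ℕ → Y → Y → Prop
  | 0, a, b => a = b ∨ B a b
  | i + 1, a, b => ∃ c, PP B i a c ∧ PP B i c b

theorem PP_refl {Y : Type} (B : Y → Y → Prop) (i : ℕ) (a : Y) : PP B i a a := by
  induction i with
  | zero => exact Or.inl rfl
  | succ i ih => exact ⟨a, ih, ih⟩

theorem PP_succ {Y : Type} {B : Y → Y → Prop} {i : ℕ} {a b : Y} (h : PP B i a b) :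
    PP B (i + 1) a b := ⟨b, h, PP_refl B i b⟩

theorem PP_of {Y : Type} {B : Y → Y → Prop} {i : ℕ} {a b : Y} (h : B a b) : PP B i a b := by
  induction i with
  | zero => exact Or.inr h
  | succ i ih => exact PP_succ ih

theorem PP_ind {Y : Type} {B : Y → Y → Prop} {Q : Y → Y → Prop} (hrefl : ∀ a, Q a a)
    (htrans : ∀ a b c, Q a b → Q b c → Q a c) (hB : ∀ a b, B a b → Q a b) {i : ℕ} {a b : Y}
    (h : PP B i a b) : Q a b := by
  induction i generalizing a b with
  | zero =>
    rcases h with rfl | h
    · exact hrefl _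
    · exact hB _ _ h
  | succ i ih =>
    obtain ⟨c, h1, h2⟩ := h
    exact htrans _ _ _ (ih h1) (ih h2)

theorem PP_contra {X : Type} {B : X × Bool → X × Bool → Prop}
    (hB : ∀ a b, B a b → B (neg b) (neg a)) {i : ℕ} {a b : X × Bool} (h : PP B i a b) :
    PP B i (neg b) (neg a) := by
  induction i generalizing a b with
  | zero =>
    rcases h with rfl | h
    · exact Or.inl rfl
    · exact Or.inr (hB _ _ h)
  | succ i ih =>
    obtain ⟨c, h1, h2⟩ := h
    exact ⟨neg c, ih h2, ih h1⟩

theorem PP_trans {Y : Type} [Fintype Y] (B : Y → Y → Prop) {a b c : Y}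
    (hab : PP B (Fintype.card (Y × Y)) a b) (hbc : PP B (Fintype.card (Y × Y)) b c) :
    PP B (Fintype.card (Y × Y)) a c := by
  have h := stabilize (Y := Y × Y) (fun i => univ.filter fun p : Y × Y => PP B i p.1 p.2)
    (by
      intro i p hp
      rw [mem_filter] at hp ⊢
      exact ⟨mem_univ _, PP_succ hp.2⟩)
    (by
      intro i hi
      have h1 : ∀ a b, PP B i a b ↔ PP B (i + 1) a b := by
        intro a b
        have h2 := Finset.ext_iff.1 hi (a, b)
        simpa using h2
      ext ⟨a, b⟩
      simp only [mem_filter, mem_univ, true_and]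
      constructor
      · rintro ⟨c, h2, h3⟩
        exact ⟨c, (h1 _ _).1 h2, (h1 _ _).1 h3⟩
      · rintro ⟨c, h2, h3⟩
        exact ⟨c, (h1 _ _).2 h2, (h1 _ _).2 h3⟩)
  have h1 : (a, c) ∈ univ.filter fun p : Y × Y => PP B (Fintype.card (Y × Y) + 1) p.1 p.2 := by
    rw [mem_filter]
    exact ⟨mem_univ _, b, hab, hbc⟩
  rw [← h] at h1
  exact (mem_filter.1 h1).2

/-- The program for the iterated composition, simultaneously for all `τ`. -/
theorem comp_PP {Λ Y T : Type} [Fintype Y] [Fintype T] (B : T → Y → Y → Set Λ → Prop) {s : ℕ}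
    {𝓕 : Set (Set Λ → Prop)} (h : Comp s 𝓕)
    (h0 : ∀ τ a b, (fun z => PP (fun a b => B τ a b z) 0 a b) ∈ 𝓕) (i : ℕ) :
    Comp (s + i * (2 * Fintype.card Y * (Fintype.card T * Fintype.card (Y × Y))))
      (𝓕 ∪ {f | ∃ τ a b, f = fun z => PP (fun a b => B τ a b z) i a b}) := by
  induction i with
  | zero =>
    refine h.mono (by simp) ?_
    rintro f (hf | ⟨τ, a, b, rfl⟩)
    · exact hf
    · exact h0 τ a b
  | succ i ih =>
    have h1 := ih.family (univ : Finset ((T × (Y × Y)) × Y))
      (fun p z => PP (fun a b => B p.1.1 a b z) i p.1.2.1 p.2 ∧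
        PP (fun a b => B p.1.1 a b z) i p.2 p.1.2.2) (by
        rintro ⟨⟨τ, a, b⟩, c⟩ -
        exact ⟨_, Or.inr ⟨τ, a, c, rfl⟩, _, Or.inr ⟨τ, c, b, rfl⟩, Or.inl fun z => Iff.rfl⟩)
    have h2 := (h1.big (univ : Finset Y) (fun (p : T × (Y × Y)) (c : Y) z =>
      PP (fun a b => B p.1 a b z) i p.2.1 c ∧ PP (fun a b => B p.1 a b z) i c p.2.2) (by
        rintro p c -
        exact Or.inr ⟨(p, c), by simp, rfl⟩)).1
    refine h2.mono ?_ ?_
    · rw [card_univ, card_univ, Fintype.card_prod (T × (Y × Y)) Y, Fintype.card_prod T (Y × Y)]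
      apply le_of_eq
      ring
    · rintro f (hf | ⟨τ, a, b, rfl⟩)
      · exact Or.inl (Or.inl (Or.inl hf))
      · refine Or.inr ⟨(τ, (a, b)), ?_⟩
        funext z
        simp [PP]

end Pool.Agent.T9h16.Rand
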