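import Pool.Agent.T9h16.Rand.TwoSat
import Pool.Agent.T9h16.Rand.Main

/-!
Monotone circuits that refute random `k`-SAT above the threshold.
-/

set_option autoImplicit false
set_option linter.unusedSectionVars false

namespace Pool.Agent.T9h16.Rand

open Finset
open scoped Classical
open Pool.Agent.T9h16 (Leaf Avail IsSLP)

section
variable {n k t : ℕ}

/-- The clause `c` gives the implication `a → b` after the first `t` variables are set to `τ`. -/
def IsEdge (t : ℕ) (τ : Fin t → Bool) (c : Clause n k) (a b : Fin n × Bool) : Prop :=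
  neg a ∈ c.lits ∧ b ∈ c.lits ∧ neg a ≠ b ∧ t ≤ a.1.val ∧ t ≤ b.1.val ∧
    ∀ l ∈ c.lits, l ≠ neg a → l ≠ b → ∃ h : l.1.val < t, τ ⟨l.1.val, h⟩ ≠ l.2

/-- The implications given by a set of clauses. -/
def BB (t : ℕ) (τ : Fin t → Bool) (a b : Fin n × Bool) (F : Set (Clause n k)) : Prop :=
  ∃ c ∈ F, IsEdge t τ c a b

theorem BB_contra {τ : Fin t → Bool} {F : Set (Clause n k)} (a b : Fin n × Bool)
    (h : BB t τ a b F) : BB t τ (neg b) (neg a) F := by
  obtain ⟨c, hc, h1, h2, h3, h4, h5, h6⟩ := h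
  refine ⟨c, hc, ?_, h1, ?_, h5, h4, ?_⟩
  · rw [neg_neg']
    exact h2
  · rw [neg_neg']
    exact h3.symm
  · intro l hl hl1 hl2
    rw [neg_neg'] at hl1
    exact h6 l hl hl2 hl1

/-- The refuter. -/
def Out (t : ℕ) (F : Set (Clause n k)) : Prop :=
  ∀ τ ∈ (univ : Finset (Fin t → Bool)), ∃ a ∈ (univ : Finset (Fin n × Bool)),
    PP (fun a b => BB t τ a b F) (Fintype.card ((Fin n × Bool) × (Fin n × Bool))) a (neg a) ∧
    PP (fun a b => BB t τ a b F) (Fintype.card ((Fin n × Bool) × (Fin n × Bool))) (neg a) a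

theorem exists_refuter [Nonempty (Clause n k)] (t : ℕ) : ∃ D : MonoCircuit (Clause n k),
    D.size ≤ 2 ^ t * (Fintype.card (Clause n k) * (2 * n) ^ 2 + 2 * (2 * n) ^ 5 + 2 * (2 * n) + 1) ∧
      ∀ F, Accepts D F ↔ Out t F := by
  have h0 := (comp_zero (Λ := Clause n k)).leaves
    (𝒢 := {f | ∃ (p : (Fin t → Bool) × ((Fin n × Bool) × (Fin n × Bool))) (c : Clause n k),
      f = fun z => p.2.1 = p.2.2 ∨ (IsEdge t p.1 c p.2.1 p.2.2 ∧ c ∈ z)}) (by
      rintro f ⟨⟨τ, a, b⟩, c, rfl⟩
      by_cases hab : a = b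
      · exact Or.inr ⟨True, fun z => by simp [hab]⟩
      · by_cases hE : IsEdge t τ c a b
        · exact Or.inl ⟨c, fun z => by simp [hab, hE]⟩
        · exact Or.inr ⟨False, fun z => by simp [hab, hE]⟩)
  have h1 := (h0.big (J := (Fin t → Bool) × ((Fin n × Bool) × (Fin n × Bool)))
    (univ : Finset (Clause n k))
    (fun p c z => p.2.1 = p.2.2 ∨ (IsEdge t p.1 c p.2.1 p.2.2 ∧ c ∈ z)) (by
      intro p c _
      exact Or.inr ⟨p, c, rfl⟩)).1
  have h2 := comp_PP (Y := Fin n × Bool) (T := Fin t → Bool) (fun τ a b z => BB t τ a b z) h1 (by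
    intro τ a b
    refine Or.inr ⟨(τ, (a, b)), ?_⟩
    funext z
    apply propext
    constructor
    · rintro ⟨c, -, h | ⟨h, hc⟩⟩
      · exact Or.inl h
      · exact Or.inr ⟨c, hc, h⟩
    · obtain ⟨c₀⟩ := ‹Nonempty (Clause n k)›
      rintro (h | ⟨c, hc, h⟩)
      · exact ⟨c₀, mem_univ _, Or.inl h⟩
      · exact ⟨c, mem_univ _, Or.inr ⟨h, hc⟩⟩) (Fintype.card ((Fin n × Bool) × (Fin n × Bool)))
  have h3 := h2.family (univ : Finset ((Fin t → Bool) × (Fin n × Bool)))
    (fun p z => PP (fun a b => BB t p.1 a b z) (Fintype.card ((Fin n × Bool) × (Fin n × Bool)))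
      p.2 (neg p.2) ∧ PP (fun a b => BB t p.1 a b z)
        (Fintype.card ((Fin n × Bool) × (Fin n × Bool))) (neg p.2) p.2) (by
      rintro ⟨τ, a⟩ -
      exact ⟨_, Or.inr ⟨τ, a, neg a, rfl⟩, _, Or.inr ⟨τ, neg a, a, rfl⟩, Or.inl fun z => Iff.rfl⟩)
  have h4 := (h3.big (J := Fin t → Bool) (univ : Finset (Fin n × Bool))
    (fun τ a z => PP (fun a b => BB t τ a b z) (Fintype.card ((Fin n × Bool) × (Fin n × Bool)))
      a (neg a) ∧ PP (fun a b => BB t τ a b z)
        (Fintype.card ((Fin n × Bool) × (Fin n × Bool))) (neg a) a) (by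
      rintro τ a -
      exact Or.inr ⟨(τ, a), by simp, rfl⟩)).1
  have h5 := (h4.big (J := Unit) (univ : Finset (Fin t → Bool))
    (fun _ τ z => ∃ a ∈ (univ : Finset (Fin n × Bool)),
      PP (fun a b => BB t τ a b z) (Fintype.card ((Fin n × Bool) × (Fin n × Bool)))
      a (neg a) ∧ PP (fun a b => BB t τ a b z)
        (Fintype.card ((Fin n × Bool) × (Fin n × Bool))) (neg a) a) (by
      rintro - τ -
      exact Or.inr ⟨τ, rfl⟩)).2
  obtain ⟨D, hD, hacc⟩ := h5.circuit (o := fun z => Out t z) (Or.inr ⟨(), rfl⟩)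
  refine ⟨D, hD.trans (le_of_eq ?_), hacc⟩
  simp only [card_univ, Fintype.card_prod, Fintype.card_fun, Fintype.card_bool, Fintype.card_fin,
    Fintype.card_unit]
  ring

/-- Soundness. -/
theorem Out_sound (ht : t ≤ n) {F : Set (Clause n k)} (h : Out t F) : ¬ Satisfiable F := by
  rintro ⟨x, hx⟩
  obtain ⟨a, -, h1, h2⟩ := h (fun i => x ⟨i.val, by omega⟩) (mem_univ _)
  have hQ : ∀ {a b : Fin n × Bool}, PP (fun a b => BB t (fun i => x ⟨i.val, by omega⟩) a b F)
      (Fintype.card ((Fin n × Bool) × (Fin n × Bool))) a b → (x a.1 = a.2 → x b.1 = b.2) := by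
    intro a b hab
    refine PP_ind (Q := fun a b => x a.1 = a.2 → x b.1 = b.2) (fun a h => h) ?_ ?_ hab
    · intro a b c h1 h2 h3
      exact h2 (h1 h3)
    rintro a b ⟨c, hc, h1, h2, h3, h4, h5, h6⟩ hxa
    obtain ⟨l, hl, hxl⟩ := hx c hc
    by_cases hla : l = neg a
    · rw [hla] at hxl
      exact absurd hxa ((val_neg x a).1 hxl)
    · by_cases hlb : l = b
      · rw [hlb] at hxl
        exact hxl
      · obtain ⟨hlt, hne⟩ := h6 l hl hla hlb
        exact absurd hxl hne
  by_cases hxa : x a.1 = a.2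
  · exact (val_neg x a).1 (hQ h1 hxa) hxa
  · exact hxa (hQ h2 ((val_neg x a).2 hxa))

/-- The clause `c` is falsified by `x` and has two variables outside of the first `t` ones. -/
def Bad (t : ℕ) (x : Fin n → Bool) (c : Clause n k) : Prop :=
  (∀ l ∈ c.lits, x l.1 ≠ l.2) ∧ (c.lits.filter fun l => t ≤ l.1.val).card = 2

/-- Completeness. -/
theorem Out_complete {F : Set (Clause n k)} (h : ¬ Out t F) :
    ∃ x : Fin n → Bool, ∀ c ∈ F, ¬ Bad t x c := by
  unfold Out at h
  simp only [not_forall] at h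
  obtain ⟨τ, -, h⟩ := h
  obtain ⟨x₀, hx₀⟩ := two_sat
    (PP (fun a b => BB t τ a b F) (Fintype.card ((Fin n × Bool) × (Fin n × Bool))))
    (fun a => PP_refl _ _ a) (fun a b c => PP_trans _) (fun a b => PP_contra BB_contra)
    (fun a ha => h ⟨a, mem_univ _, ha⟩)
  refine ⟨fun v => if hv : v.val < t then τ ⟨v.val, hv⟩ else x₀ v, ?_⟩
  rintro c hc ⟨hfal, hcard⟩
  obtain ⟨b, b', hbb, hset⟩ := card_eq_two.1 hcard
  have hb : b ∈ c.lits.filter fun l => t ≤ l.1.val := by rw [hset]; simp
  have hb' : b' ∈ c.lits.filter fun l => t ≤ l.1.val := by rw [hset]; simp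
  rw [mem_filter] at hb hb'
  have hout : ∀ l ∈ c.lits, t ≤ l.1.val → ¬ x₀ l.1 = l.2 := by
    intro l hl htl
    have h1 := hfal l hl
    dsimp only at h1
    rw [dif_neg (by omega)] at h1
    exact h1
  have hedge : BB t τ (neg b') b F := by
    refine ⟨c, hc, ?_, hb.1, ?_, hb'.2, hb.2, ?_⟩
    · rw [neg_neg']
      exact hb'.1
    · rw [neg_neg']
      exact hbb.symm
    · intro l hl hl1 hl2
      rw [neg_neg'] at hl1
      have hlt : l.1.val < t := by
        by_contra hge
        have h1 : l ∈ c.lits.filter fun l => t ≤ l.1.val := by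
          rw [mem_filter]
          exact ⟨hl, by omega⟩
        rw [hset, mem_insert, mem_singleton] at h1
        rcases h1 with h1 | h1
        · exact hl2 h1
        · exact hl1 h1
      refine ⟨hlt, ?_⟩
      have h1 := hfal l hl
      dsimp only at h1
      rw [dif_pos hlt] at h1
      exact h1
  exact hout b hb.1 hb.2 (hx₀ _ _ (PP_of hedge)
    ((val_neg x₀ b').2 (hout b' hb'.1 hb'.2)))

/-- The number of falsified clauses with two variables outside of the first `t` ones. -/
theorem card_bad (hk : 2 ≤ k) (ht : t ≤ n) (x : Fin n → Bool) :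
    t.choose (k - 2) * (n - t).choose 2 ≤
      (univ.filter fun c : Clause n k => Bad t x c).card := by
  set V₀ : Finset (Fin n) := (univ : Finset (Fin t)).map (Fin.castLEEmb ht) with hV₀
  have hmem : ∀ v, v ∈ V₀ ↔ v.val < t := by
    intro v
    rw [hV₀, mem_map]
    constructor
    · rintro ⟨i, -, rfl⟩
      exact i.isLt
    · intro hv
      exact ⟨⟨v.val, hv⟩, mem_univ _, Fin.ext rfl⟩
  have hc₀ : V₀.card = t := by
    rw [hV₀, card_map, card_univ, Fintype.card_fin]
  have hc₁ : V₀ᶜ.card = n - t := by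
    rw [card_compl, hc₀, Fintype.card_fin]
  set f : Fin n → Fin n × Bool := fun v => (v, !x v) with hf
  have hfinj : Function.Injective f := by
    intro v v' h
    simp only [hf, Prod.mk.injEq] at h
    exact h.1
  set G : Finset (Fin n) × Finset (Fin n) → Finset (Fin n × Bool) :=
    fun p => (p.1 ∪ p.2).image f with hG
  set S := powersetCard (k - 2) V₀ ×ˢ powersetCard 2 V₀ᶜ with hS
  have hSmem : ∀ p ∈ S, (p.1 ⊆ V₀ ∧ p.1.card = k - 2) ∧ (p.2 ⊆ V₀ᶜ ∧ p.2.card = 2) := by
    intro p hp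
    rw [hS, mem_product, mem_powersetCard, mem_powersetCard] at hp
    exact hp
  have hGinj : Set.InjOn G (S : Set (Finset (Fin n) × Finset (Fin n))) := by
    intro p hp q hq h
    rw [mem_coe] at hp hq
    have h1 : p.1 ∪ p.2 = q.1 ∪ q.2 := image_injective hfinj h
    obtain ⟨⟨p1, -⟩, p2, -⟩ := hSmem p hp
    obtain ⟨⟨q1, -⟩, q2, -⟩ := hSmem q hq
    have h2 : ∀ v, (v ∈ p.1 ∨ v ∈ p.2) ↔ (v ∈ q.1 ∨ v ∈ q.2) := by
      intro v
      rw [← mem_union, ← mem_union, h1]
    apply Prod.ext
    · ext v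
      constructor
      · intro hv
        rcases (h2 v).1 (Or.inl hv) with h3 | h3
        · exact h3
        · exact absurd (p1 hv) (mem_compl.1 (q2 h3))
      · intro hv
        rcases (h2 v).2 (Or.inl hv) with h3 | h3
        · exact h3
        · exact absurd (q1 hv) (mem_compl.1 (p2 h3))
    · ext v
      constructor
      · intro hv
        rcases (h2 v).1 (Or.inr hv) with h3 | h3
        · exact absurd (q1 h3) (mem_compl.1 (p2 hv))
        · exact h3
      · intro hv
        rcases (h2 v).2 (Or.inr hv) with h3 | h3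
        · exact absurd (p1 h3) (mem_compl.1 (q2 hv))
        · exact h3
  have hsub : S.image G ⊆ (univ.filter fun c : Clause n k => Bad t x c).image Clause.lits := by
    intro s hs
    rw [mem_image] at hs
    obtain ⟨p, hp, rfl⟩ := hs
    obtain ⟨⟨p1, p1c⟩, p2, p2c⟩ := hSmem p hp
    have hdis : Disjoint p.1 p.2 := by
      rw [disjoint_left]
      intro v hv hv'
      exact (mem_compl.1 (p2 hv')) (p1 hv)
    have hcard : (G p).card = k := by
      simp only [hG]
      rw [card_image_of_injective _ hfinj, card_union_of_disjoint hdis, p1c, p2c]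
      omega
    have hdist : ∀ l ∈ G p, ∀ l' ∈ G p, l.1 = l'.1 → l = l' := by
      intro l hl l' hl' h
      simp only [hG] at hl hl'
      rw [mem_image] at hl hl'
      obtain ⟨v, -, rfl⟩ := hl
      obtain ⟨v', -, rfl⟩ := hl'
      simp only [hf] at h ⊢
      rw [h]
    rw [mem_image]
    refine ⟨⟨G p, hcard, hdist⟩, ?_, rfl⟩
    rw [mem_filter]
    refine ⟨mem_univ _, ?_, ?_⟩
    · intro l hl
      simp only [hG] at hl
      rw [mem_image] at hl
      obtain ⟨v, -, rfl⟩ := hl
      simp only [hf]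
      cases x v <;> simp
    · simp only [hG]
      have h1 : ((p.1 ∪ p.2).image f).filter (fun l => t ≤ l.1.val) = p.2.image f := by
        ext l
        simp only [mem_filter, mem_image, mem_union]
        constructor
        · rintro ⟨⟨v, hv | hv, rfl⟩, htl⟩
          · have := (hmem v).1 (p1 hv)
            simp only [hf] at htl
            omega
          · exact ⟨v, hv, rfl⟩
        · rintro ⟨v, hv, rfl⟩
          refine ⟨⟨v, Or.inr hv, rfl⟩, ?_⟩
          have h2 := mem_compl.1 (p2 hv)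
          rw [hmem] at h2
          simp only [hf]
          omega
      rw [h1, card_image_of_injective _ hfinj, p2c]
  calc t.choose (k - 2) * (n - t).choose 2 = S.card := by
        rw [hS, card_product, card_powersetCard, card_powersetCard, hc₀, hc₁]
    _ = (S.image G).card := (card_image_of_injOn hGinj).symm
    _ ≤ ((univ.filter fun c : Clause n k => Bad t x c).image Clause.lits).card :=
        card_le_card hsub
    _ ≤ _ := card_image_le

/-- The number of sequences that avoid a set. -/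
theorem card_avoid {E ι : Type} [Fintype E] [Fintype ι] (S : Finset E) :
    (univ.filter fun φ : ι → E => ∀ i, φ i ∉ S).card =
      (Fintype.card E - S.card) ^ Fintype.card ι := by
  have h1 : (univ.filter fun φ : ι → E => ∀ i, φ i ∉ S) = Fintype.piFinset fun _ => Sᶜ := by
    ext φ
    simp
  rw [h1, Fintype.card_piFinset, prod_const, card_univ, card_compl]

/-- The exponential estimate. -/
theorem pow_estimate {M b m n : ℕ} (hM : 0 < M) (hb : b ≤ M) (h : 2 * (n * M) ≤ b * m) :
    2 ^ n * (M - b) ^ m * 2 ^ n ≤ M ^ m := by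
  have hMR : (0 : ℝ) < M := by exact_mod_cast hM
  have h1 : ((M - b : ℕ) : ℝ) = M * (1 - b / M) := by
    rw [Nat.cast_sub hb]
    field_simp
  have hbM : (b : ℝ) / M ≤ 1 := by
    rw [div_le_one hMR]
    exact_mod_cast hb
  have h2 : (1 - (b : ℝ) / M) ^ m ≤ Real.exp (-(2 * n)) := by
    have h3 : (1 - (b : ℝ) / M) ^ m ≤ Real.exp (-(b / M)) ^ m :=
      pow_le_pow_left₀ (by linarith) (Real.one_sub_le_exp_neg _) m
    refine h3.trans ?_
    rw [← Real.exp_nat_mul]
    apply Real.exp_le_exp.2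
    have h4 : 2 * ((n : ℝ) * M) ≤ b * m := by exact_mod_cast h
    have h5 : 2 * (n : ℝ) ≤ m * (b / M) := by
      rw [← mul_div_assoc, le_div_iff₀ hMR]
      linarith
    linarith
  have h3 : (2 : ℝ) ^ n * Real.exp (-(2 * n)) * 2 ^ n ≤ 1 := by
    have e1 : Real.exp (-(2 * (n : ℝ))) = (Real.exp (-2)) ^ n := by
      rw [← Real.exp_nat_mul]
      congr 1
      ring
    have e2 : (2 : ℝ) ^ n * Real.exp (-(2 * n)) * 2 ^ n = (4 * Real.exp (-2)) ^ n := by
      rw [e1, mul_pow, show (4 : ℝ) = 2 * 2 by norm_num, mul_pow]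
      ring
    rw [e2]
    apply pow_le_one₀ (by positivity)
    have h4 : (4 : ℝ) ≤ Real.exp 2 := by
      have h5 : (2 : ℝ) ≤ Real.exp 1 := by
        have := Real.add_one_le_exp (1 : ℝ)
        linarith
      calc (4 : ℝ) = 2 * 2 := by norm_num
        _ ≤ Real.exp 1 * Real.exp 1 := mul_le_mul h5 h5 (by norm_num) (by positivity)
        _ = Real.exp 2 := by
            rw [← Real.exp_add]
            norm_num
    rw [Real.exp_neg, ← div_eq_mul_inv]
    exact (div_le_one (by positivity)).2 h4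
  have h4 : ((2 ^ n * (M - b) ^ m * 2 ^ n : ℕ) : ℝ) ≤ ((M ^ m : ℕ) : ℝ) := by
    push_cast
    rw [h1, mul_pow]
    calc (2 : ℝ) ^ n * ((M : ℝ) ^ m * (1 - b / M) ^ m) * 2 ^ n
        = (M : ℝ) ^ m * (2 ^ n * (1 - (b : ℝ) / M) ^ m * 2 ^ n) := by ring
      _ ≤ (M : ℝ) ^ m * (2 ^ n * Real.exp (-(2 * n)) * 2 ^ n) := by
          apply mul_le_mul_of_nonneg_left _ (by positivity)
          apply mul_le_mul_of_nonneg_right _ (by positivity)
          exact mul_le_mul_of_nonneg_left h2 (by positivity)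
      _ ≤ (M : ℝ) ^ m * 1 := mul_le_mul_of_nonneg_left h3 (by positivity)
      _ = (M : ℝ) ^ m := mul_one _
  exact_mod_cast h4

/-- The numerical estimate. -/
theorem num_estimate {k n m t M j : ℕ} (hj : k = j + 2) (hjt : j ≤ t) (ht : 2 * t ≤ n)
    (hn : 4 ≤ n) (hM : M ≤ (2 * n) ^ k)
    (h : 64 * 2 ^ k * (j ^ j * j.factorial) * n ^ (k - 1) ≤ m * t ^ j) :
    2 * (n * M) ≤ t.choose j * (n - t).choose 2 * m := by
  have h1 : t ^ j ≤ j ^ j * j.factorial * t.choose j := by
    rcases Nat.eq_zero_or_pos j with hj0 | hj1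
    · subst hj0
      simp
    · have h2 : (t + 1 - j) ^ j ≤ j.factorial * t.choose j := by
        exact_mod_cast Nat.pow_sub_le_descFactorial t j |>.trans
          (le_of_eq (Nat.descFactorial_eq_factorial_mul_choose t j))
      have h3 : t ≤ j * (t + 1 - j) := by
        obtain ⟨d, rfl⟩ := Nat.exists_eq_add_of_le hjt
        have e1 : j + d + 1 - j = d + 1 := by omega
        rw [e1]
        nlinarith
      calc t ^ j ≤ (j * (t + 1 - j)) ^ j := Nat.pow_le_pow_left h3 j
        _ = j ^ j * (t + 1 - j) ^ j := mul_pow _ _ _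
        _ ≤ j ^ j * (j.factorial * t.choose j) := Nat.mul_le_mul_left _ h2
        _ = _ := by ring
  have h2 : n ^ 2 ≤ 32 * (n - t).choose 2 := by
    have h3 : (n - t + 1 - 2) ^ 2 ≤ (2).factorial * (n - t).choose 2 := by
      exact_mod_cast Nat.pow_sub_le_descFactorial (n - t) 2 |>.trans
        (le_of_eq (Nat.descFactorial_eq_factorial_mul_choose (n - t) 2))
    have h4 : n ≤ 4 * (n - t + 1 - 2) := by omega
    calc n ^ 2 ≤ (4 * (n - t + 1 - 2)) ^ 2 := Nat.pow_le_pow_left h4 2
      _ = 16 * (n - t + 1 - 2) ^ 2 := by ring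
      _ ≤ 16 * ((2).factorial * (n - t).choose 2) := Nat.mul_le_mul_left _ h3
      _ = 32 * (n - t).choose 2 := by
          rw [Nat.factorial_two]
          ring
  have hc : 0 < 32 * (j ^ j * j.factorial) := by
    have : 0 < j ^ j := by
      rcases Nat.eq_zero_or_pos j with hj0 | hj1
      · subst hj0
        norm_num
      · exact Nat.pow_pos hj1
    have := Nat.factorial_pos j
    positivity
  apply Nat.le_of_mul_le_mul_left _ hc
  calc 32 * (j ^ j * j.factorial) * (2 * (n * M))
      ≤ 32 * (j ^ j * j.factorial) * (2 * (n * (2 * n) ^ k)) := by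
        apply Nat.mul_le_mul_left
        apply Nat.mul_le_mul_left
        exact Nat.mul_le_mul_left _ hM
    _ = 64 * 2 ^ k * (j ^ j * j.factorial) * n ^ (k - 1) * n ^ 2 := by
        have e1 : n * n ^ k = n ^ (k - 1) * n ^ 2 := by
          rw [← pow_succ', ← pow_add]
          congr 1
          omega
        rw [mul_pow]
        calc 32 * (j ^ j * j.factorial) * (2 * (n * (2 ^ k * n ^ k)))
            = 64 * 2 ^ k * (j ^ j * j.factorial) * (n * n ^ k) := by ring
          _ = _ := by rw [e1]; ring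
    _ ≤ m * t ^ j * n ^ 2 := Nat.mul_le_mul_right _ h
    _ ≤ m * (j ^ j * j.factorial * t.choose j) * (32 * (n - t).choose 2) := by
        apply Nat.mul_le_mul _ h2
        exact Nat.mul_le_mul_left _ h1
    _ = _ := by ring

/-- The refuters: the upper bound. -/
theorem upper (hk : 2 ≤ k) {m : ℕ} (hkt : k - 2 ≤ t) (ht : 2 * t ≤ n) (hn : 4 ≤ n)
    (h : 64 * 2 ^ k * ((k - 2) ^ (k - 2) * (k - 2).factorial) * n ^ (k - 1) ≤
      m * t ^ (k - 2)) :
    ∃ D : MonoCircuit (Clause n k), D.size ≤ 2 ^ t * (n + 1) ^ (2 * k + 13) ∧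
      (∀ F, Accepts D F → ¬ Satisfiable F) ∧
      {φ : Fin m → Clause n k | ¬ Accepts D (Set.range φ)}.ncard * 2 ^ n ≤
        Nat.card (Fin m → Clause n k) := by
  have hM : Fintype.card (Clause n k) ≤ (2 * n) ^ k := by
    have h1 := card_Cl_le (V := Fin n) (isCl (n := n) (k := k))
    rwa [Fintype.card_fin] at h1
  have hpos : ∀ x : Fin n → Bool, 0 < (univ.filter fun c : Clause n k => Bad t x c).card := by
    intro x
    refine lt_of_lt_of_le ?_ (card_bad hk (by omega) x)
    exact Nat.mul_pos (Nat.choose_pos hkt) (Nat.choose_pos (by omega))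
  have hM0 : 0 < Fintype.card (Clause n k) := by
    refine lt_of_lt_of_le (hpos fun _ => true) ?_
    exact card_le_univ _
  have : Nonempty (Clause n k) := Fintype.card_pos_iff.1 hM0
  obtain ⟨D, hD, hacc⟩ := exists_refuter (n := n) (k := k) t
  refine ⟨D, ?_, fun F hF => Out_sound (by omega) ((hacc F).1 hF), ?_⟩
  · refine hD.trans (Nat.mul_le_mul_left _ ?_)
    have e1 : 2 * n ≤ (n + 1) ^ 2 := by nlinarith
    have e2 : 1 ≤ n + 1 := by omega
    calc Fintype.card (Clause n k) * (2 * n) ^ 2 + 2 * (2 * n) ^ 5 + 2 * (2 * n) + 1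
        ≤ (2 * n) ^ k * (2 * n) ^ 2 + (2 * n) * (2 * n) ^ 5 + (2 * (2 * n) + 1) := by
          have h1 := Nat.mul_le_mul_right ((2 * n) ^ 2) hM
          have h2 : 2 * (2 * n) ^ 5 ≤ (2 * n) * (2 * n) ^ 5 :=
            Nat.mul_le_mul_right _ (by omega)
          omega
      _ ≤ (n + 1) ^ (2 * k + 12) + (n + 1) ^ (2 * k + 12) + (n + 1) ^ (2 * k + 12) := by
          apply Nat.add_le_add (Nat.add_le_add ?_ ?_) ?_
          · calc (2 * n) ^ k * (2 * n) ^ 2 = (2 * n) ^ (k + 2) := by rw [← pow_add]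
              _ ≤ ((n + 1) ^ 2) ^ (k + 2) := Nat.pow_le_pow_left e1 _
              _ = (n + 1) ^ (2 * (k + 2)) := by rw [← pow_mul]
              _ ≤ (n + 1) ^ (2 * k + 12) := Nat.pow_le_pow_right e2 (by omega)
          · calc (2 * n) * (2 * n) ^ 5 = (2 * n) ^ 6 := by ring
              _ ≤ ((n + 1) ^ 2) ^ 6 := Nat.pow_le_pow_left e1 _
              _ = (n + 1) ^ 12 := by rw [← pow_mul]
              _ ≤ (n + 1) ^ (2 * k + 12) := Nat.pow_le_pow_right e2 (by omega)
          · calc 2 * (2 * n) + 1 ≤ (n + 1) ^ 2 := by nlinarith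
              _ ≤ (n + 1) ^ (2 * k + 12) := Nat.pow_le_pow_right e2 (by omega)
      _ = 3 * (n + 1) ^ (2 * k + 12) := by ring
      _ ≤ (n + 1) * (n + 1) ^ (2 * k + 12) := Nat.mul_le_mul_right _ (by omega)
      _ = (n + 1) ^ (2 * k + 13) := by ring
  · rw [Nat.card_eq_fintype_card, Fintype.card_fun, Fintype.card_fin,
      ncard_filter inferInstance _ (Classical.decPred _)]
    obtain ⟨b, hb⟩ : ∃ b, b = t.choose (k - 2) * (n - t).choose 2 := ⟨_, rfl⟩
    have hbM : b ≤ Fintype.card (Clause n k) := by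
      rw [hb]
      exact (card_bad hk (by omega) fun _ => true).trans (card_le_univ _)
    have hest := num_estimate (k := k) (j := k - 2) (by omega) hkt ht hn hM h
    rw [← hb] at hest
    have hpow := pow_estimate hM0 hbM hest
    refine le_trans (Nat.mul_le_mul_right _ ?_) hpow
    have hsub : (univ.filter fun φ : Fin m → Clause n k => ¬ Accepts D (Set.range φ)) ⊆
        (univ : Finset (Fin n → Bool)).biUnion fun x => univ.filter fun φ : Fin m → Clause n k =>
          ∀ i, φ i ∉ univ.filter fun c : Clause n k => Bad t x c := by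
      intro φ hφ
      rw [mem_filter] at hφ
      obtain ⟨x, hx⟩ := Out_complete (t := t) (F := Set.range φ) (fun h => hφ.2 ((hacc _).2 h))
      rw [mem_biUnion]
      refine ⟨x, mem_univ _, ?_⟩
      rw [mem_filter]
      refine ⟨mem_univ _, fun i hi => ?_⟩
      rw [mem_filter] at hi
      exact hx _ ⟨i, rfl⟩ hi.2
    have hcount : ∀ x ∈ (univ : Finset (Fin n → Bool)),
        (univ.filter fun φ : Fin m → Clause n k =>
          ∀ i, φ i ∉ univ.filter fun c : Clause n k => Bad t x c).card ≤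
        (Fintype.card (Clause n k) - b) ^ m := by
      intro x _
      have h1 := card_avoid (ι := Fin m) (univ.filter fun c : Clause n k => Bad t x c)
      rw [Fintype.card_fin] at h1
      refine le_trans (le_of_eq ((card_filter_eq _ _ _ _ _ _ fun _ => Iff.rfl).trans h1)) ?_
      apply Nat.pow_le_pow_left
      have h2 := card_bad hk (show t ≤ n by omega) x
      rw [← hb] at h2
      omega
    have h2 := (card_le_card hsub).trans (card_biUnion_le.trans (sum_le_card_nsmul _ _ _ hcount))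
    rw [card_univ, Fintype.card_fun, Fintype.card_bool, Fintype.card_fin, smul_eq_mul] at h2
    refine le_trans (le_of_eq ?_) h2
    exact card_filter_eq _ _ _ _ _ _ fun _ => Iff.rfl

end

end Pool.Agent.T9h16.Rand
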